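import Pool.Agent.LiebLoss.Fock

/-!
# The Bargmann transform
-/

open MeasureTheory Complex Real
open scoped ENNReal

set_option linter.unusedSectionVars false

namespace Pool.Agent.LiebLoss

variable {ι : Type*} [Fintype ι] [DecidableEq ι]

/-- The Bargmann transform of an occupation number vector. -/
noncomputable def bt (u : (ι → ℕ) → ℂ) (w : ι → ℂ) : ℂ := ∑' n, u n * mono n w

lemma bt_eq_sum {S : Finset (ι → ℕ)} {u : (ι → ℕ) → ℂ} (h : ∀ n ∉ S, u n = 0) (w : ι → ℂ) :
    bt u w = ∑ n ∈ S, u n * mono n w :=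
  tsum_eq_sum fun n hn => by rw [h n hn, zero_mul]

lemma sqrt_fact_succ (k : ℕ) :
    ((√((k + 1).factorial : ℝ) : ℝ) : ℂ) = (√((k : ℝ) + 1) : ℝ) * (√((k).factorial : ℝ) : ℝ) := by
  rw [← Complex.ofReal_mul, ← Real.sqrt_mul (by positivity), Nat.factorial_succ]
  push_cast; rfl

lemma sqrt_fact_ne (k : ℕ) : ((√((k).factorial : ℝ) : ℝ) : ℂ) ≠ 0 := by
  have : (0:ℝ) < √((k).factorial : ℝ) := Real.sqrt_pos.2 (by exact_mod_cast Nat.factorial_pos k)
  exact_mod_cast this.ne'

lemma sqrt_succ_ne (k : ℕ) : ((√((k : ℝ) + 1) : ℝ) : ℂ) ≠ 0 := by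
  have : (0:ℝ) < √((k:ℝ) + 1) := Real.sqrt_pos.2 (by positivity)
  exact_mod_cast this.ne'

lemma mono_split (j : ι) (n : ι → ℕ) (w : ι → ℂ) :
    mono n w = (w j ^ n j / (√((n j).factorial : ℝ) : ℝ)) *
      ∏ i ∈ Finset.univ.erase j, (w i ^ n i / (√((n i).factorial : ℝ) : ℝ)) := by
  unfold mono
  exact (Finset.mul_prod_erase Finset.univ
    (fun i => (w i ^ n i / (√((n i).factorial : ℝ) : ℝ) : ℂ)) (Finset.mem_univ j)).symm

lemma prod_erase_add (j : ι) (n : ι → ℕ) (w : ι → ℂ) :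
    ∏ i ∈ Finset.univ.erase j, (w i ^ (n + Pi.single j 1 : ι → ℕ) i /
        (√(((n + Pi.single j 1 : ι → ℕ) i).factorial : ℝ) : ℝ))
      = ∏ i ∈ Finset.univ.erase j, (w i ^ n i / (√((n i).factorial : ℝ) : ℝ) : ℂ) := by
  refine Finset.prod_congr rfl fun i hi => ?_
  have hij : i ≠ j := Finset.ne_of_mem_erase hi
  simp [Pi.single_eq_of_ne hij]

lemma mono_add_single (j : ι) (n : ι → ℕ) (w : ι → ℂ) :
    (√((n j : ℝ) + 1) : ℝ) * mono (n + Pi.single j 1) w = w j * mono n w := by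
  rw [mono_split j (n + Pi.single j 1), mono_split j n, prod_erase_add]
  simp only [Pi.add_apply, Pi.single_eq_same]
  rw [sqrt_fact_succ]
  have h1 := sqrt_fact_ne (n j)
  have h2 := sqrt_succ_ne (n j)
  field_simp
  ring

/-- Multiplication by `w j` is the creation operator. -/
lemma bt_cr (j : ι) (u : (ι → ℕ) → ℂ) (w : ι → ℂ) : bt (cr j u) w = w j * bt u w := by
  unfold bt
  rw [← tsum_mul_left, ← (add_single_injective j).tsum_eq (f := fun n => cr j u n * mono n w)]
  · refine tsum_congr fun n => ?_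
    have h := mono_add_single j n w
    simp only [cr, Pi.add_apply, Pi.single_eq_same, add_sub_single]
    push_cast
    linear_combination (u n) * h
  · intro n hn
    simp only [Function.mem_support, ne_eq, mul_eq_zero, not_or] at hn
    have : n j ≠ 0 := fun h => hn.1 (cr_zero_of h)
    exact ⟨n - Pi.single j 1, sub_add_single this⟩

/-- The partial derivative of the monomial. -/
noncomputable def dmono (j : ι) (n : ι → ℕ) (w : ι → ℂ) : ℂ :=
  (√(n j : ℝ) : ℝ) * mono (n - Pi.single j 1) w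

lemma bt_an (j : ι) (u : (ι → ℕ) → ℂ) (w : ι → ℂ) :
    bt (an j u) w = ∑' n, u n * dmono j n w := by
  unfold bt
  rw [← (add_single_injective j).tsum_eq (f := fun n => u n * dmono j n w)]
  · refine tsum_congr fun n => ?_
    simp only [an, dmono, Pi.add_apply, Pi.single_eq_same, add_sub_single]
    push_cast
    ring
  · intro n hn
    simp only [Function.mem_support, ne_eq, mul_eq_zero, not_or, dmono] at hn
    have : n j ≠ 0 := fun h => hn.2.1 (by simp [h])
    exact ⟨n - Pi.single j 1, sub_add_single this⟩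

lemma bt_an_eq_sum {S : Finset (ι → ℕ)} {u : (ι → ℕ) → ℂ} (h : ∀ n ∉ S, u n = 0) (j : ι)
    (w : ι → ℂ) : bt (an j u) w = ∑ n ∈ S, u n * dmono j n w := by
  rw [bt_an]
  exact tsum_eq_sum fun n hn => by rw [h n hn, zero_mul]

lemma hasDerivAt_mono (n : ι → ℕ) {w : ℝ → ι → ℂ} {w' : ι → ℂ} {t : ℝ}
    (h : ∀ j, HasDerivAt (fun s => w s j) (w' j) t) :
    HasDerivAt (fun s => mono n (w s)) (∑ j, w' j * dmono j n (w t)) t := by
  unfold mono
  have h1 : ∀ j ∈ (Finset.univ : Finset ι), HasDerivAt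
      (fun s => (w s j ^ n j / (√((n j).factorial : ℝ) : ℝ) : ℂ))
      ((n j : ℂ) * w t j ^ (n j - 1) * w' j / (√((n j).factorial : ℝ) : ℝ)) t := by
    intro j _
    exact ((h j).pow (n j)).div_const _
  have h2 := HasDerivAt.fun_finsetProd h1
  refine h2.congr_deriv ?_
  refine Finset.sum_congr rfl fun j _ => ?_
  symm
  rw [dmono, mono_split j (n - Pi.single j 1)]
  have h3 : ∏ i ∈ Finset.univ.erase j, (w t i ^ (n - Pi.single j 1 : ι → ℕ) i /
        (√(((n - Pi.single j 1 : ι → ℕ) i).factorial : ℝ) : ℝ))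
      = ∏ i ∈ Finset.univ.erase j, (w t i ^ n i / (√((n i).factorial : ℝ) : ℝ) : ℂ) := by
    refine Finset.prod_congr rfl fun i hi => ?_
    have hij : i ≠ j := Finset.ne_of_mem_erase hi
    simp [Pi.single_eq_of_ne hij]
  rw [h3, smul_eq_mul]
  rcases Nat.eq_zero_or_pos (n j) with h0 | h0
  · simp [h0]
  · obtain ⟨k, hk⟩ : ∃ k, n j = k + 1 := ⟨n j - 1, by omega⟩
    have h4 : (n - Pi.single j 1 : ι → ℕ) j = k := by simp [hk]
    rw [h4, hk, sqrt_fact_succ]
    simp only [Nat.add_sub_cancel]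
    have h5 := sqrt_fact_ne k
    have h6 := sqrt_succ_ne k
    have e1 : ((√((k:ℝ) + 1) : ℝ) : ℂ) * ((√((k:ℝ) + 1) : ℝ) : ℂ) = (k : ℂ) + 1 := by
      rw [← Complex.ofReal_mul, Real.mul_self_sqrt (by positivity)]; push_cast; ring
    push_cast
    field_simp
    linear_combination (w' j * w t j ^ k * ∏ i ∈ Finset.univ.erase j, (w t i ^ n i / (√((n i).factorial : ℝ) : ℝ) : ℂ)) * e1

/-- The Gaussian measure. -/
noncomputable def gam (ι : Type*) [Fintype ι] : Measure (ι → ℂ) :=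
  volume.withDensity fun w => ENNReal.ofReal (wt w)

lemma integrable_bt {S : Finset (ι → ℕ)} {u : (ι → ℕ) → ℂ} (h : ∀ n ∉ S, u n = 0) :
    Integrable (fun w : ι → ℂ => starRingEnd ℂ (bt u w) * bt u w * (wt w : ℂ)) := by
  have : (fun w : ι → ℂ => starRingEnd ℂ (bt u w) * bt u w * (wt w : ℂ))
      = fun w => ∑ n ∈ S, ∑ m ∈ S, (starRingEnd ℂ (u n) * u m) *
          (starRingEnd ℂ (mono n w) * mono m w * (wt w : ℂ)) := by
    funext w
    rw [bt_eq_sum h, map_sum, Finset.sum_mul_sum, Finset.sum_mul]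
    refine Finset.sum_congr rfl fun n _ => ?_
    rw [Finset.sum_mul]
    refine Finset.sum_congr rfl fun m _ => ?_
    rw [map_mul]; ring
  rw [this]
  refine integrable_finsetSum _ fun n _ => integrable_finsetSum _ fun m _ => ?_
  exact (integrable_mono_mul n m).const_mul _

lemma integral_bt {S : Finset (ι → ℕ)} {u : (ι → ℕ) → ℂ} (h : ∀ n ∉ S, u n = 0) :
    ∫ w : ι → ℂ, starRingEnd ℂ (bt u w) * bt u w * (wt w : ℂ)
      = ∑ n ∈ S, starRingEnd ℂ (u n) * u n := by
  have : (fun w : ι → ℂ => starRingEnd ℂ (bt u w) * bt u w * (wt w : ℂ))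
      = fun w => ∑ n ∈ S, ∑ m ∈ S, (starRingEnd ℂ (u n) * u m) *
          (starRingEnd ℂ (mono n w) * mono m w * (wt w : ℂ)) := by
    funext w
    rw [bt_eq_sum h, map_sum, Finset.sum_mul_sum, Finset.sum_mul]
    refine Finset.sum_congr rfl fun n _ => ?_
    rw [Finset.sum_mul]
    refine Finset.sum_congr rfl fun m _ => ?_
    rw [map_mul]; ring
  rw [this, integral_finsetSum _ fun n _ => integrable_finsetSum _ fun m _ =>
    (integrable_mono_mul n m).const_mul _]
  refine Finset.sum_congr rfl fun n hn => ?_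
  rw [integral_finsetSum _ fun m _ => (integrable_mono_mul n m).const_mul _]
  simp_rw [integral_const_mul, integral_mono]
  simp [hn]

lemma continuous_bt {S : Finset (ι → ℕ)} {u : (ι → ℕ) → ℂ} (h : ∀ n ∉ S, u n = 0) :
    Continuous (bt u) := by
  have : bt u = fun w => ∑ n ∈ S, u n * mono n w := funext fun w => bt_eq_sum h w
  rw [this]
  have := fun n : ι → ℕ => continuous_mono n
  fun_prop

/-- The Bargmann transform is an isometry. -/
lemma lintegral_bt {S : Finset (ι → ℕ)} {u : (ι → ℕ) → ℂ} (h : ∀ n ∉ S, u n = 0) :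
    ∫⁻ w, ‖bt u w‖ₑ ^ 2 ∂(gam ι) = ∑ n ∈ S, ‖u n‖ₑ ^ 2 := by
  have hc := continuous_bt h
  have hw := continuous_wt (ι := ι)
  unfold gam
  rw [lintegral_withDensity_eq_lintegral_mul _ (by fun_prop) (by fun_prop)]
  have e1 : ∀ w : ι → ℂ, ((fun w : ι → ℂ => ENNReal.ofReal (wt w)) * (fun w => ‖bt u w‖ₑ ^ 2)) w
      = ENNReal.ofReal (‖bt u w‖ ^ 2 * wt w) := by
    intro w
    simp only [Pi.mul_apply]
    rw [mul_comm, ENNReal.ofReal_mul (by positivity), ENNReal.ofReal_pow (norm_nonneg _),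
      ofReal_norm]
  simp_rw [e1]
  have e2 : ∀ w : ι → ℂ, ((‖bt u w‖ ^ 2 * wt w : ℝ) : ℂ)
      = starRingEnd ℂ (bt u w) * bt u w * (wt w : ℂ) := by
    intro w
    rw [Complex.conj_mul']; push_cast; rfl
  have hi : Integrable (fun w : ι → ℂ => ‖bt u w‖ ^ 2 * wt w) := by
    have := (integrable_bt h).re
    refine this.congr (Filter.Eventually.of_forall fun w => ?_)
    simp only [← e2]
    exact Complex.ofReal_re _
  rw [← ofReal_integral_eq_lintegral_ofReal hi
    (Filter.Eventually.of_forall fun w => mul_nonneg (by positivity) (wt_pos w).le)]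
  have e3 : ∫ w : ι → ℂ, ‖bt u w‖ ^ 2 * wt w = ∑ n ∈ S, ‖u n‖ ^ 2 := by
    have h1 := integral_bt h
    simp_rw [← e2] at h1
    rw [integral_complex_ofReal] at h1
    have h2 : (((∑ n ∈ S, ‖u n‖ ^ 2 : ℝ)) : ℂ) = ∑ n ∈ S, starRingEnd ℂ (u n) * u n := by
      push_cast
      refine Finset.sum_congr rfl fun n _ => ?_
      rw [Complex.conj_mul']
    rw [← h2] at h1
    exact_mod_cast h1
  rw [e3, ENNReal.ofReal_sum_of_nonneg fun _ _ => by positivity]
  refine Finset.sum_congr rfl fun n _ => ?_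
  rw [ENNReal.ofReal_pow (norm_nonneg _), ofReal_norm]

/-- Finite support. -/
def FS (u : (ι → ℕ) → ℂ) : Prop := (Function.support u).Finite

lemma FS.summable {u : (ι → ℕ) → ℂ} (h : FS u) (f : (ι → ℕ) → ℂ) :
    Summable (fun n => u n * f n) :=
  summable_of_hasFiniteSupport (h.subset fun n hn => by
    simp only [Function.mem_support, ne_eq, mul_eq_zero, not_or] at hn ⊢
    exact hn.1)

lemma FS.add {u v : (ι → ℕ) → ℂ} (hu : FS u) (hv : FS v) : FS (fun n => u n + v n) :=
  (hu.union hv).subset (Function.support_add u v)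

lemma FS.mul_left {u : (ι → ℕ) → ℂ} (hu : FS u) (c : ℂ) : FS (fun n => c * u n) :=
  hu.subset fun n hn => by
    simp only [Function.mem_support, ne_eq, mul_eq_zero, not_or] at hn ⊢
    exact hn.2

lemma FS.neg {u : (ι → ℕ) → ℂ} (hu : FS u) : FS (fun n => - u n) :=
  hu.subset fun n hn => by simpa using hn

lemma FS.sum {κ : Type*} (s : Finset κ) {u : κ → (ι → ℕ) → ℂ} (hu : ∀ k ∈ s, FS (u k)) :
    FS (fun n => ∑ k ∈ s, u k n) := by
  classical
  induction s using Finset.induction_on with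
  | empty => simp only [Finset.sum_empty]; exact Set.Finite.subset Set.finite_empty (by simp)
  | insert a s ha ih =>
    simp only [Finset.sum_insert ha]
    exact (hu a (Finset.mem_insert_self _ _)).add
      (ih fun k hk => hu k (Finset.mem_insert_of_mem hk))

lemma FS.an {u : (ι → ℕ) → ℂ} (hu : FS u) (j : ι) : FS (an j u) := by
  refine (hu.preimage (add_single_injective j).injOn).subset fun n hn => ?_
  simp only [Function.mem_support, ne_eq, LiebLoss.an, mul_eq_zero, not_or] at hn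
  exact hn.2

lemma FS.cr {u : (ι → ℕ) → ℂ} (hu : FS u) (j : ι) : FS (cr j u) := by
  refine (hu.image (fun n => n + Pi.single j 1)).subset fun n hn => ?_
  have h0 : n j ≠ 0 := fun h => hn (cr_zero_of h)
  refine ⟨n - Pi.single j 1, ?_, sub_add_single h0⟩
  simp only [Function.mem_support, ne_eq, LiebLoss.cr, mul_eq_zero, not_or] at hn
  exact hn.2

lemma FS.exists_finset {u : (ι → ℕ) → ℂ} (h : FS u) : ∃ S : Finset (ι → ℕ), ∀ n ∉ S, u n = 0 :=
  ⟨Set.Finite.toFinset (s := Function.support u) h, fun n hn => by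
    by_contra hc
    exact hn ((Set.Finite.mem_toFinset _).2 hc)⟩

lemma fs_of {S : Finset (ι → ℕ)} {u : (ι → ℕ) → ℂ} (h : ∀ n ∉ S, u n = 0) : FS u :=
  S.finite_toSet.subset fun n hn => by
    by_contra hc
    exact hn (h n hc)

lemma bt_add {u v : (ι → ℕ) → ℂ} (hu : FS u) (hv : FS v) (w : ι → ℂ) :
    bt (fun n => u n + v n) w = bt u w + bt v w := by
  unfold bt
  simp_rw [add_mul]
  exact (hu.summable _).tsum_add (hv.summable _)

lemma bt_mul_left (u : (ι → ℕ) → ℂ) (c : ℂ) (w : ι → ℂ) :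
    bt (fun n => c * u n) w = c * bt u w := by
  unfold bt
  simp_rw [mul_assoc]
  exact tsum_mul_left

lemma bt_sum {κ : Type*} (s : Finset κ) {u : κ → (ι → ℕ) → ℂ} (hu : ∀ k ∈ s, FS (u k))
    (w : ι → ℂ) : bt (fun n => ∑ k ∈ s, u k n) w = ∑ k ∈ s, bt (u k) w := by
  unfold bt
  simp_rw [Finset.sum_mul]
  exact Summable.tsum_finsetSum fun k hk => (hu k hk).summable _

end Pool.Agent.LiebLoss
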