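import Pool.Agent.LiebLoss.Box

/-!
# The Bessel inequality for the translated flux amplitudes
-/

open MeasureTheory Complex Real
open scoped ENNReal

set_option linter.unusedSectionVars false

namespace Pool.Agent.LiebLoss

variable {α L Λ : ℝ} {ε : (Fin 3 → ℤ) → Fin 2 → E3}

/-- The grid points. -/
noncomputable def pos (L : ℝ) (M : ℕ) (l : Fin 3 → ℕ) : E3 :=
  WithLp.toLp 2 fun i => L / M * (l i : ℝ)

lemma pos_apply (L : ℝ) (M : ℕ) (l : Fin 3 → ℕ) (i : Fin 3) : pos L M l i = L / M * (l i : ℝ) := rfl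

lemma pos_injective (hL : 0 < L) {M : ℕ} (hM : 0 < M) : Function.Injective (pos L M) := by
  intro l l' h
  funext i
  have h2 := congrArg (fun v : E3 => v i) h
  simp only [pos_apply] at h2
  have hM' : (0:ℝ) < M := by exact_mod_cast hM
  have h3 : (l i : ℝ) = l' i := mul_left_cancel₀ (by positivity) h2
  exact_mod_cast h3

/-- The set of translations. -/
noncomputable def CN (L : ℝ) (M N : ℕ) : Finset E3 :=
  (Fintype.piFinset (fun _ : Fin 3 => Finset.range N)).image (pos L M)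

lemma card_CN (hL : 0 < L) {M : ℕ} (hM : 0 < M) (N : ℕ) : (CN L M N).card = N ^ 3 := by
  unfold CN
  rw [Finset.card_image_of_injective _ (pos_injective hL hM), Fintype.card_piFinset_const,
    Finset.card_range]

lemma exp_pos_eq (hL : 0 < L) {M : ℕ} (m : Fin 3 → ℤ) (l : Fin 3 → ℕ) :
    Complex.exp (I * (inner ℝ (wave L m) (pos L M l) : ℝ)) = chi M m l := by
  unfold chi
  congr 1
  have h1 : inner ℝ (wave L m) (pos L M l) = ∑ i, wave L m i * pos L M l i := by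
    rw [PiLp.inner_apply]
    refine Finset.sum_congr rfl fun i _ => ?_
    simp [mul_comm]
  rw [h1]
  simp only [wave_apply, pos_apply]
  push_cast
  rw [Finset.mul_sum, Finset.mul_sum]
  refine Finset.sum_congr rfl fun i _ => ?_
  have : (L : ℂ) ≠ 0 := by exact_mod_cast hL.ne'
  field_simp

lemma box_diff (hL : 0 < L) (hΛ : 0 < Λ) {M : ℕ} (hM : L * Λ ≤ M) {m m' : Fin 3 → ℤ}
    (hm : m ∈ box L Λ) (hm' : m' ∈ box L Λ) (hne : m ≠ m') : ∃ i, ¬ (M : ℤ) ∣ (m i - m' i) := by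
  have hpi := Real.pi_pos
  have h0 : ∃ i, m i ≠ m' i := by
    by_contra hc
    push Not at hc
    exact hne (funext hc)
  obtain ⟨i, hi⟩ := h0
  refine ⟨i, fun hdvd => ?_⟩
  have h1 := Int.le_of_dvd (abs_pos.2 (sub_ne_zero.2 hi)) ((dvd_abs _ _).2 hdvd)
  have hb := (Finset.mem_filter.1 hm).2 i
  have hb' := (Finset.mem_filter.1 hm').2 i
  rw [wave_apply] at hb hb'
  have h2 : ∀ y : ℝ, Λ / 8 ≤ 2 * Real.pi / L * y ∧ 2 * Real.pi / L * y ≤ Λ / 4 →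
      L * Λ / (16 * Real.pi) ≤ y ∧ y ≤ L * Λ / (8 * Real.pi) := by
    rintro y ⟨ha, hb⟩
    constructor
    · rw [div_le_iff₀ (by positivity)]
      rw [div_mul_eq_mul_div, le_div_iff₀ hL] at ha
      nlinarith
    · rw [le_div_iff₀ (by positivity)]
      rw [div_mul_eq_mul_div, div_le_iff₀ hL] at hb
      nlinarith
  have h3 := h2 _ hb
  have h4 := h2 _ hb'
  have h5 : |(m i : ℝ) - m' i| ≤ L * Λ / (8 * Real.pi) - L * Λ / (16 * Real.pi) := by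
    rw [abs_le]
    constructor <;> linarith [h3.1, h3.2, h4.1, h4.2]
  have h6 : ((M : ℤ) : ℝ) ≤ |(m i : ℝ) - m' i| := by exact_mod_cast h1
  have h7 : L * Λ / (8 * Real.pi) - L * Λ / (16 * Real.pi) = L * Λ * (1 / (16 * Real.pi)) := by
    field_simp; ring
  have h8 : 1 / (16 * Real.pi) < 1 := by
    rw [div_lt_one (by positivity)]
    linarith [Real.pi_gt_three]
  have h9 : 0 < L * Λ := by positivity
  push_cast at h6
  nlinarith

/-- The Bessel inequality. -/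
lemma bessel_box (hα : 0 < α) (hL : 0 < L) (hΛ : 0 < Λ) (hε : IsPolarisation L Λ ε) {M : ℕ}
    (hM : L * Λ ≤ M) (hM2 : (M : ℝ) ≤ 2 * (L * Λ)) {N : ℕ} (hN : N ≤ M) :
    Bessel (kvec L Λ) (gvec α L Λ ε) (SB L Λ) (sa Λ) (sb Λ) (CN L M N) (4 * α) := by
  have hM0 : 0 < M := by
    have : (0:ℝ) < M := lt_of_lt_of_le (by positivity) hM
    exact_mod_cast this
  intro v
  set z := lam (kvec L Λ) (gvec α L Λ ε) (sa Λ) (sb Λ) 0 with hz
  set G : (Fin 3 → ℤ) → ℂ := fun m => ∑ l, ext (fun j => starRingEnd ℂ (z j) * v j) m l with hG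
  unfold CN
  rw [Finset.sum_image (fun _ _ _ _ h => pos_injective hL hM0 h)]
  have h1 : ∀ l : Fin 3 → ℕ, ∑ j ∈ SB L Λ, Complex.exp (I * (inner ℝ (kvec L Λ j) (pos L M l) : ℝ)) *
      (starRingEnd ℂ (z j) * v j) = ∑ m ∈ box L Λ, chi M m l * G m := by
    intro l
    rw [sum_SB]
    refine Finset.sum_congr rfl fun m hm => ?_
    have hm' := box_subset hm
    simp only [hG, ext_of _ hm']
    rw [Finset.mul_sum]
    refine Finset.sum_congr rfl fun i _ => ?_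
    have e1 : kvec L Λ (⟨m, hm'⟩, i) = wave L m := rfl
    rw [e1, exp_pos_eq hL]
  simp_rw [h1]
  have h2 : ∑ l ∈ Fintype.piFinset (fun _ : Fin 3 => Finset.range N),
      ‖∑ m ∈ box L Λ, chi M m l * G m‖ ^ 2
      ≤ ∑ l ∈ Fintype.piFinset (fun _ : Fin 3 => Finset.range M),
      ‖∑ m ∈ box L Λ, chi M m l * G m‖ ^ 2 := by
    refine Finset.sum_le_sum_of_subset_of_nonneg ?_ fun _ _ _ => by positivity
    exact Fintype.piFinset_subset _ _ fun _ => Finset.range_mono hN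
  refine h2.trans ?_
  rw [parseval M hM0 (box L Λ) (fun m hm m' hm' hne => box_diff hL hΛ hM hm hm' hne)]
  have h3 : ∀ m ∈ box L Λ, ‖G m‖ ^ 2 ≤ α / (2 * (L * Λ) ^ 3) * ∑ l, ext (fun j => ‖v j‖ ^ 2) m l := by
    intro m hm
    have hm' := box_subset hm
    have h4 := lam_upper (ε := ε) hα hL hΛ hε hm
    rw [← hz] at h4
    simp only [hG, ext_of _ hm'] at h4 ⊢
    have h5 : ‖∑ l, starRingEnd ℂ (z (⟨m, hm'⟩, l)) * v (⟨m, hm'⟩, l)‖ ^ 2
        ≤ (∑ l, ‖z (⟨m, hm'⟩, l)‖ ^ 2) * ∑ l, ‖v (⟨m, hm'⟩, l)‖ ^ 2 := by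
      have h6 : ‖∑ l, starRingEnd ℂ (z (⟨m, hm'⟩, l)) * v (⟨m, hm'⟩, l)‖
          ≤ ∑ l, ‖z (⟨m, hm'⟩, l)‖ * ‖v (⟨m, hm'⟩, l)‖ := by
        refine (norm_sum_le _ _).trans (Finset.sum_le_sum fun l _ => ?_)
        rw [norm_mul, RCLike.norm_conj]
      calc _ ≤ (∑ l, ‖z (⟨m, hm'⟩, l)‖ * ‖v (⟨m, hm'⟩, l)‖) ^ 2 := by gcongr
        _ ≤ _ := Finset.sum_mul_sq_le_sq_mul_sq _ _ _
    refine h5.trans ?_
    gcongr
  have h7 : ∑ m ∈ box L Λ, ‖G m‖ ^ 2 ≤ α / (2 * (L * Λ) ^ 3) * ∑ j ∈ SB L Λ, ‖v j‖ ^ 2 := by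
    rw [sum_SB, Finset.mul_sum]
    exact Finset.sum_le_sum h3
  have hS0 : 0 ≤ ∑ j ∈ SB L Λ, ‖v j‖ ^ 2 := Finset.sum_nonneg fun _ _ => by positivity
  calc (M:ℝ) ^ 3 * ∑ m ∈ box L Λ, ‖G m‖ ^ 2
      ≤ (2 * (L * Λ)) ^ 3 * (α / (2 * (L * Λ) ^ 3) * ∑ j ∈ SB L Λ, ‖v j‖ ^ 2) := by gcongr
    _ = 4 * α * ∑ j ∈ SB L Λ, ‖v j‖ ^ 2 := by field_simp; ring

end Pool.Agent.LiebLoss
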