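import Pool.Agent.LiebLoss.Deriv

/-!
# The `L²` bound for gauge translations
-/

open MeasureTheory Complex Real
open scoped ENNReal

set_option linter.unusedSectionVars false

namespace Pool.Agent.LiebLoss

variable {ι : Type*} [Fintype ι] [DecidableEq ι]

/-- A finite set of occupation numbers closed under one shift. -/
noncomputable def shiftSet (S : Finset (ι → ℕ)) : Finset (ι → ℕ) :=
  S ∪ Finset.univ.biUnion fun j => (S.image fun n => n - Pi.single j 1) ∪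
    (S.image fun n => n + Pi.single j 1)

lemma an_eq_zero_of {S : Finset (ι → ℕ)} {u : (ι → ℕ) → ℂ} (h : ∀ n ∉ S, u n = 0) (j : ι)
    {n : ι → ℕ} (hn : n ∉ shiftSet S) : an j u n = 0 := by
  unfold an
  rw [h _ ?_, mul_zero]
  intro hc
  apply hn
  unfold shiftSet
  refine Finset.mem_union_right _ (Finset.mem_biUnion.2 ⟨j, Finset.mem_univ j,
    Finset.mem_union_left _ (Finset.mem_image.2 ⟨_, hc, add_sub_single⟩)⟩)

lemma cr_eq_zero_of {S : Finset (ι → ℕ)} {u : (ι → ℕ) → ℂ} (h : ∀ n ∉ S, u n = 0) (j : ι)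
    {n : ι → ℕ} (hn : n ∉ shiftSet S) : cr j u n = 0 := by
  by_cases h0 : n j = 0
  · exact cr_zero_of h0
  unfold cr
  rw [h _ ?_, mul_zero]
  intro hc
  apply hn
  unfold shiftSet
  refine Finset.mem_union_right _ (Finset.mem_biUnion.2 ⟨j, Finset.mem_univ j,
    Finset.mem_union_right _ (Finset.mem_image.2 ⟨_, hc, sub_add_single h0⟩)⟩)

lemma Dop_fin {ψ : (ι → ℕ) → E3 → ℂ} {S : Finset (ι → ℕ)} (hS : ∀ n ∉ S, ψ n = 0) (b : E3)
    (g : E3 → ι → ℂ) {n : ι → ℕ} (hn : n ∉ shiftSet S) : Dop b g ψ n = 0 := by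
  funext x
  have hnS : n ∉ S := fun hc => hn (Finset.mem_union_left _ hc)
  unfold Dop
  rw [hS n hnS]
  have h1 : ∀ j, an j (fun m => ψ m x) n = 0 := fun j =>
    an_eq_zero_of (fun n hn => by rw [hS n hn]; rfl) j hn
  have h2 : ∀ j, cr j (fun m => ψ m x) n = 0 := fun j =>
    cr_eq_zero_of (fun n hn => by rw [hS n hn]; rfl) j hn
  simp [h1, h2]

/-- Finitely many occupation numbers, continuous components. -/
structure NiceC (ψ : (ι → ℕ) → E3 → ℂ) : Prop where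
  fin : ∃ S : Finset (ι → ℕ), ∀ n ∉ S, ψ n = 0
  cont : ∀ n, Continuous (ψ n)

lemma Nice.toC {ψ : (ι → ℕ) → E3 → ℂ} (h : Nice ψ) : NiceC ψ := ⟨h.fin, fun n => (h.smooth n).continuous⟩

lemma NiceC.continuous_BT {ψ : (ι → ℕ) → E3 → ℂ} (h : NiceC ψ) : Continuous (BT ψ) := by
  obtain ⟨S, hS⟩ := h.fin
  have e1 : BT ψ = fun p => ∑ n ∈ S, ψ n p.1 * mono n p.2 := by
    funext p
    exact bt_eq_sum (fun n hn => by simp [hS n hn]) _
  rw [e1]
  have h1 := h.cont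
  have h2 := fun n : ι → ℕ => continuous_mono n
  fun_prop

lemma Dop_niceC {ψ : (ι → ℕ) → E3 → ℂ} (h : Nice ψ) (b : E3) {g : E3 → ι → ℂ}
    (hg : Continuous g) : NiceC (Dop b g ψ) := by
  obtain ⟨S, hS⟩ := h.fin
  refine ⟨⟨shiftSet S, fun n hn => Dop_fin hS b g hn⟩, fun n => ?_⟩
  unfold Dop an cr
  have h1 := fun n => (h.smooth n).continuous
  have h2 : ∀ n, Continuous fun x => fderiv ℝ (ψ n) x b := fun n =>
    ((h.smooth n).continuous_fderiv (by norm_num)).clm_apply continuous_const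
  have h3 : ∀ j, Continuous fun x => g x j := fun j => (continuous_apply j).comp hg
  have h4 : ∀ j, Continuous fun x => starRingEnd ℂ (g x j) := fun j =>
    Complex.continuous_conj.comp (h3 j)
  fun_prop

lemma enorm_integral_sq_le (f : ℝ → ℂ) (hf : Continuous f) :
    ‖∫ t in (0:ℝ)..1, f t‖ₑ ^ 2 ≤ ∫⁻ t in Set.Ioc (0:ℝ) 1, ‖f t‖ₑ ^ 2 := by
  rw [intervalIntegral.integral_of_le zero_le_one]
  have : IsProbabilityMeasure (volume.restrict (Set.Ioc (0:ℝ) 1)) :=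
    ⟨by simp⟩
  have h1 : ‖∫ t in Set.Ioc (0:ℝ) 1, f t‖ₑ ≤ eLpNorm f 2 (volume.restrict (Set.Ioc (0:ℝ) 1)) := by
    calc ‖∫ t in Set.Ioc (0:ℝ) 1, f t‖ₑ ≤ ∫⁻ t in Set.Ioc (0:ℝ) 1, ‖f t‖ₑ :=
          enorm_integral_le_lintegral_enorm f
      _ = eLpNorm f 1 (volume.restrict (Set.Ioc (0:ℝ) 1)) := by
          rw [eLpNorm_one_eq_lintegral_enorm]
      _ ≤ _ := eLpNorm_le_eLpNorm_of_exponent_le (by norm_num) hf.aestronglyMeasurable
  calc ‖∫ t in Set.Ioc (0:ℝ) 1, f t‖ₑ ^ 2 ≤ eLpNorm f 2 (volume.restrict (Set.Ioc (0:ℝ) 1)) ^ 2 := by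
        gcongr
    _ = _ := by
      rw [eLpNorm_eq_lintegral_rpow_enorm_toReal (by norm_num) (by norm_num),
        ← ENNReal.rpow_natCast, ← ENNReal.rpow_mul]
      norm_num

/-- The `L²` bound: a gauge translation moves a state by at most the norm of its generator. -/
theorem nrm_gt_sub_le {ψ : (ι → ℕ) → E3 → ℂ} (h : Nice ψ) (b : E3) {g : E3 → ι → ℂ}
    (hg : Continuous g) {ζ : ℝ → E3 → ι → ℂ} (hζc : Continuous fun q : ℝ × E3 => ζ q.1 q.2)
    (hζ0 : ∀ x, ζ 0 x = 0)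
    (hζ : ∀ t x j, HasDerivAt (fun s => ζ s x j) (g (x + t • b) j) t)
    (hσ : ∀ t x, sig (ζ t x) (g (x + t • b)) = 0) :
    nrm (fun p => gt b (ζ 1) (BT ψ) p - BT ψ p) ≤ nrm (BT (Dop b g ψ)) := by
  have hD := (Dop_niceC h b hg).continuous_BT
  have hB := h.toC.continuous_BT
  obtain ⟨D, hDdef⟩ : ∃ D, D = BT (Dop b g ψ) := ⟨_, rfl⟩
  rw [← hDdef] at hD ⊢
  have hjoint : Continuous fun q : ℝ × (E3 × (ι → ℂ)) => gt (q.1 • b) (ζ q.1) D q.2 := by
    unfold gt wph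
    have h1 : ∀ j, Continuous fun q : ℝ × (E3 × (ι → ℂ)) => ζ q.1 q.2.1 j := fun j =>
      (continuous_apply j).comp (hζc.comp (by fun_prop : Continuous
        fun q : ℝ × (E3 × (ι → ℂ)) => (q.1, q.2.1)))
    have h2 : ∀ j, Continuous fun q : ℝ × (E3 × (ι → ℂ)) => starRingEnd ℂ (ζ q.1 q.2.1 j) :=
      fun j => Complex.continuous_conj.comp (h1 j)
    refine Continuous.mul ?_ (hD.comp ?_)
    · fun_prop
    · fun_prop
  have hpt : ∀ p, ‖gt b (ζ 1) (BT ψ) p - BT ψ p‖ₑ ^ 2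
      ≤ ∫⁻ t in Set.Ioc (0:ℝ) 1, ‖gt (t • b) (ζ t) D p‖ₑ ^ 2 := by
    intro p
    have hc0 : Continuous fun t : ℝ => (t, p) := by fun_prop
    have hc : Continuous fun t : ℝ => gt (t • b) (ζ t) D p :=
      Continuous.comp (g := fun q : ℝ × (E3 × (ι → ℂ)) => gt (q.1 • b) (ζ q.1) D q.2)
        (f := fun t : ℝ => (t, p)) hjoint hc0
    have hd : ∀ t ∈ Set.uIcc (0:ℝ) 1, HasDerivAt (fun s => gt (s • b) (ζ s) (BT ψ) p)
        (gt (t • b) (ζ t) D p) t := by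
      intro t _
      have := hasDerivAt_gt h b g p.1 p.2 t (fun j => hζ t p.1 j) (hσ t p.1)
      rw [← hDdef] at this
      exact this
    have h1 := intervalIntegral.integral_eq_sub_of_hasDerivAt hd (hc.intervalIntegrable _ _)
    have h2 : gt ((0:ℝ) • b) (ζ 0) (BT ψ) p = BT ψ p := by
      have : ζ 0 = fun _ _ => 0 := funext fun x => hζ0 x
      rw [zero_smul, this, gt_zero]
    rw [one_smul, h2] at h1
    rw [← h1]
    exact enorm_integral_sq_le _ hc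
  have hmeas : Measurable fun q : ℝ × (E3 × (ι → ℂ)) => ‖gt (q.1 • b) (ζ q.1) D q.2‖ₑ ^ 2 := by
    have := hjoint.measurable
    fun_prop
  have hsq : nrm (fun p => gt b (ζ 1) (BT ψ) p - BT ψ p) ^ 2 ≤ nrm D ^ 2 := by
    rw [nrm_sq, nrm_sq]
    calc ∫⁻ p, ‖gt b (ζ 1) (BT ψ) p - BT ψ p‖ₑ ^ 2 ∂(mu ι)
        ≤ ∫⁻ p, (∫⁻ t in Set.Ioc (0:ℝ) 1, ‖gt (t • b) (ζ t) D p‖ₑ ^ 2) ∂(mu ι) :=
          lintegral_mono hpt
      _ = ∫⁻ t in Set.Ioc (0:ℝ) 1, (∫⁻ p, ‖gt (t • b) (ζ t) D p‖ₑ ^ 2 ∂(mu ι)) := by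
          rw [lintegral_lintegral_swap]
          exact (hmeas.comp measurable_swap).aemeasurable
      _ = ∫⁻ t in Set.Ioc (0:ℝ) 1, (∫⁻ p, ‖D p‖ₑ ^ 2 ∂(mu ι)) := by
          refine lintegral_congr fun t => ?_
          refine lintegral_gt _ ?_ hD.measurable
          exact (hζc.comp (by fun_prop : Continuous fun x : E3 => (t, x))).measurable
      _ = _ := by simp
  exact (ENNReal.pow_le_pow_left_iff (by norm_num)).1 hsq

end Pool.Agent.LiebLoss
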