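import Pool.Agent.LiebLoss.Modes

/-!
# The box of modes used in the uncertainty argument
-/

open MeasureTheory Complex Real
open scoped ENNReal

set_option linter.unusedSectionVars false

namespace Pool.Agent.LiebLoss

variable {α L Λ : ℝ} {ε : (Fin 3 → ℤ) → Fin 2 → E3}

/-- Extension by zero of a function on modes. -/
noncomputable def ext {β : Type*} [Zero β] (f : Mode L Λ → β) (m : Fin 3 → ℤ) (l : Fin 2) : β :=
  if h : m ∈ modeSet L Λ then f (⟨m, h⟩, l) else 0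

lemma ext_of {β : Type*} [Zero β] (f : Mode L Λ → β) {m : Fin 3 → ℤ} (h : m ∈ modeSet L Λ)
    (l : Fin 2) : ext f m l = f (⟨m, h⟩, l) := dif_pos h

variable (L Λ) in
/-- The box `Λ/8 ≤ k_i ≤ Λ/4`. -/
noncomputable def box : Finset (Fin 3 → ℤ) :=
  (modeSet L Λ).filter fun m => ∀ i, Λ / 8 ≤ wave L m i ∧ wave L m i ≤ Λ / 4

variable (L Λ) in
/-- The modes with wave vector in the box. -/
noncomputable def SB : Finset (Mode L Λ) :=
  Finset.univ.filter fun j => (j.1 : Fin 3 → ℤ) ∈ box L Λ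

lemma box_subset : box L Λ ⊆ modeSet L Λ := Finset.filter_subset _ _

lemma sum_SB {β : Type*} [AddCommMonoid β] (f : Mode L Λ → β) :
    ∑ j ∈ SB L Λ, f j = ∑ m ∈ box L Λ, ∑ l, ext f m l := by
  unfold SB
  rw [Finset.sum_filter, Fintype.sum_prod_type]
  have h1 : ∀ x : {m : Fin 3 → ℤ // m ∈ modeSet L Λ},
      ∑ y : Fin 2, (if ((x, y).1 : Fin 3 → ℤ) ∈ box L Λ then f (x, y) else 0)
      = (fun m : Fin 3 → ℤ => if m ∈ box L Λ then ∑ l, ext f m l else 0) x := by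
    intro x
    by_cases hx : (x : Fin 3 → ℤ) ∈ box L Λ
    · simp only [hx, if_true]
      refine Finset.sum_congr rfl fun l _ => ?_
      rw [ext_of f x.2]
    · simp [hx]
  simp_rw [h1]
  rw [Finset.sum_coe_sort (modeSet L Λ)
    (fun m : Fin 3 → ℤ => if m ∈ box L Λ then ∑ l, ext f m l else 0), ← Finset.sum_filter]
  refine Finset.sum_congr ?_ fun _ _ => rfl
  ext m
  rw [Finset.mem_filter]
  exact ⟨fun h => h.2, fun h => ⟨box_subset h, h⟩⟩

lemma norm_sq_wave (m : Fin 3 → ℤ) :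
    ‖wave L m‖ ^ 2 = wave L m 0 ^ 2 + wave L m 1 ^ 2 + wave L m 2 ^ 2 := by
  rw [EuclideanSpace.norm_sq_eq, Fin.sum_univ_three]
  simp only [Real.norm_eq_abs, sq_abs]

lemma box_bounds (hΛ : 0 < Λ) {m : Fin 3 → ℤ} (hm : m ∈ box L Λ) :
    Λ / 8 ≤ ‖wave L m‖ ∧ ‖wave L m‖ ≤ Λ / 2 := by
  have h := (Finset.mem_filter.1 hm).2
  have h0 := h 0
  have h1 := h 1
  have h2 := h 2
  have hn := norm_sq_wave (L := L) m
  constructor
  · refine le_of_sq_le_sq ?_ (norm_nonneg _)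
    rw [hn]
    nlinarith
  · refine le_of_sq_le_sq ?_ (by positivity)
    rw [hn]
    nlinarith

lemma mem_box_of (hL : 0 < L) (hΛ : 0 < Λ) {m : Fin 3 → ℤ}
    (h : ∀ i, Λ / 8 ≤ wave L m i ∧ wave L m i ≤ Λ / 4) : m ∈ box L Λ := by
  refine Finset.mem_filter.2 ⟨(mem_modeSet hL Λ m).2 ⟨?_, ?_⟩, h⟩
  · rintro rfl
    have := (h 0).1
    simp [wave_apply] at this
    linarith
  · refine lt_of_pow_lt_pow_left₀ 2 hΛ.le ?_
    rw [norm_sq_wave]
    have h0 := h 0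
    have h1 := h 1
    have h2 := h 2
    nlinarith

lemma card_box (hL : 0 < L) (hΛ : 0 < Λ) (hX : 2 ≤ L * Λ / (16 * Real.pi)) :
    (L * Λ / (32 * Real.pi)) ^ 3 ≤ (box L Λ).card := by
  have hpi := Real.pi_pos
  set X : ℝ := L * Λ / (16 * Real.pi) with hXdef
  have hsub : Fintype.piFinset (fun _ : Fin 3 => Finset.Icc ⌈X⌉ ⌊2 * X⌋) ⊆ box L Λ := by
    intro m hm
    rw [Fintype.mem_piFinset] at hm
    refine mem_box_of hL hΛ fun i => ?_
    have hi := Finset.mem_Icc.1 (hm i)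
    have h1 : X ≤ m i := (Int.le_ceil X).trans (by exact_mod_cast hi.1)
    have h2 : (m i : ℝ) ≤ 2 * X := le_trans (by exact_mod_cast hi.2) (Int.floor_le (2 * X))
    rw [wave_apply]
    constructor
    · calc Λ / 8 = 2 * Real.pi / L * X := by rw [hXdef]; field_simp; ring
        _ ≤ _ := by gcongr
    · calc 2 * Real.pi / L * (m i : ℝ) ≤ 2 * Real.pi / L * (2 * X) := by gcongr
        _ = Λ / 4 := by rw [hXdef]; field_simp; ring
  have hcard := Finset.card_le_card hsub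
  rw [Fintype.card_piFinset_const, Int.card_Icc] at hcard
  have h3 : X / 2 ≤ ((⌊2 * X⌋ + 1 - ⌈X⌉).toNat : ℝ) := by
    have h4 : (2 * X - 1 : ℝ) ≤ ⌊2 * X⌋ := (Int.sub_one_lt_floor _).le
    have h5 : (⌈X⌉ : ℝ) ≤ X + 1 := (Int.ceil_lt_add_one X).le
    have h6 : ((⌊2 * X⌋ + 1 - ⌈X⌉ : ℤ) : ℝ) ≤ ((⌊2 * X⌋ + 1 - ⌈X⌉).toNat : ℝ) := by
      exact_mod_cast Int.self_le_toNat _
    push_cast at h6
    linarith
  have h7 : L * Λ / (32 * Real.pi) = X / 2 := by rw [hXdef]; field_simp; ring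
  rw [h7]
  calc (X / 2) ^ 3 ≤ ((⌊2 * X⌋ + 1 - ⌈X⌉).toNat : ℝ) ^ 3 := by
        gcongr
    _ ≤ _ := by exact_mod_cast hcard

variable (Λ) in
/-- First side of the elementary square. -/
noncomputable def sa : E3 := EuclideanSpace.single 0 (1 / Λ)

variable (Λ) in
/-- Second side of the elementary square. -/
noncomputable def sb : E3 := EuclideanSpace.single 1 (1 / Λ)

lemma inner_sa (v : E3) : inner ℝ v (sa Λ) = v 0 / Λ := by
  unfold sa
  rw [EuclideanSpace.inner_single_right]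
  simp; ring

lemma inner_sb (v : E3) : inner ℝ v (sb Λ) = v 1 / Λ := by
  unfold sb
  rw [EuclideanSpace.inner_single_right]
  simp; ring

lemma sum_norm_lam (hL : 0 < L) (hΛ : 0 < Λ) (hε : IsPolarisation L Λ ε) {m : Fin 3 → ℤ}
    (hm : m ∈ modeSet L Λ) :
    ∑ l, ‖lam (kvec L Λ) (gvec α L Λ ε) (sa Λ) (sb Λ) 0 (⟨m, hm⟩, l)‖ ^ 2
      = ‖EE 1 (wave L m 0 / Λ)‖ ^ 2 * ‖EE 1 (wave L m 1 / Λ)‖ ^ 2 *
        (cpl α L m ^ 2 * ((wave L m 0 ^ 2 + wave L m 1 ^ 2) / Λ ^ 4)) := by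
  set w : E3 := (wave L m 1 / Λ) • sa Λ - (wave L m 0 / Λ) • sb Λ with hw
  have h1 : ∀ l, ‖lam (kvec L Λ) (gvec α L Λ ε) (sa Λ) (sb Λ) 0 (⟨m, hm⟩, l)‖ ^ 2
      = ‖EE 1 (wave L m 0 / Λ)‖ ^ 2 * ‖EE 1 (wave L m 1 / Λ)‖ ^ 2 *
        (inner ℝ (cpl α L m • ε m l) w * inner ℝ (cpl α L m • ε m l) w) := by
    intro l
    rw [norm_lam_eq]
    have e1 : kvec L Λ (⟨m, hm⟩, l) = wave L m := rfl
    have e2 : gvec α L Λ ε (⟨m, hm⟩, l) = cpl α L m • ε m l := rfl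
    rw [e1, e2, inner_sa (wave L m), inner_sb (wave L m), mul_pow, mul_pow, sq_abs]
    have e3 : inner ℝ (cpl α L m • ε m l) w = inner ℝ (cpl α L m • ε m l) (sa Λ) *
        (wave L m 1 / Λ) - inner ℝ (cpl α L m • ε m l) (sb Λ) * (wave L m 0 / Λ) := by
      rw [hw, inner_sub_right, real_inner_smul_right, real_inner_smul_right]
      ring
    rw [e3]
    ring
  simp_rw [h1]
  rw [← Finset.mul_sum, sum_pol hL hε hm]
  have h2 : inner ℝ (wave L m) w = 0 := by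
    rw [hw, inner_sub_right, real_inner_smul_right, real_inner_smul_right, inner_sa, inner_sb]
    ring
  have h3 : inner ℝ w w = (wave L m 0 ^ 2 + wave L m 1 ^ 2) / Λ ^ 4 := by
    rw [hw]
    rw [inner_sub_right, real_inner_smul_right, real_inner_smul_right, inner_sa, inner_sb]
    simp only [PiLp.sub_apply, PiLp.smul_apply, sa, sb, PiLp.single_apply, smul_eq_mul]
    simp
    field_simp
    ring
  rw [h2, h3]
  ring

lemma lam_lower (hα : 0 < α) (hL : 0 < L) (hΛ : 0 < Λ) (hε : IsPolarisation L Λ ε)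
    {m : Fin 3 → ℤ} (hm : m ∈ box L Λ) :
    81 * α / (8192 * (L * Λ) ^ 3) ≤
      ∑ l, ext (fun j => ‖lam (kvec L Λ) (gvec α L Λ ε) (sa Λ) (sb Λ) 0 j‖ ^ 2) m l := by
  have hm' := box_subset hm
  simp_rw [ext_of _ hm']
  rw [sum_norm_lam hL hΛ hε hm', cpl_sq hα.le hL]
  have hb := (Finset.mem_filter.1 hm).2
  have hn := box_bounds hΛ hm
  have hE : ∀ i : Fin 3, (3 / 4 : ℝ) ≤ ‖EE 1 (wave L m i / Λ)‖ := by
    intro i
    have h1 := norm_EE_sub_one_le (wave L m i / Λ)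
    have h2 : |wave L m i / Λ| ≤ 1 / 4 := by
      rw [abs_of_nonneg (div_nonneg (by linarith [(hb i).1]) hΛ.le), div_le_iff₀ hΛ]
      linarith [(hb i).2]
    have h3 : 1 - ‖EE 1 (wave L m i / Λ)‖ ≤ ‖EE 1 (wave L m i / Λ) - 1‖ := by
      have := norm_sub_norm_le (1 : ℂ) (EE 1 (wave L m i / Λ))
      rw [norm_one, norm_sub_rev] at this
      exact this
    linarith
  have h5 : α / (2 * L ^ 3 * (Λ / 2)) ≤ α / (2 * L ^ 3 * ‖wave L m‖) := by
    have : 0 < ‖wave L m‖ := by linarith [hn.1]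
    gcongr
    exact hn.2
  have h6 : Λ ^ 2 / 32 ≤ wave L m 0 ^ 2 + wave L m 1 ^ 2 := by
    have h0 := (hb 0).1
    have h1 := (hb 1).1
    nlinarith
  calc 81 * α / (8192 * (L * Λ) ^ 3)
      = (3 / 4) ^ 2 * (3 / 4) ^ 2 * (α / (2 * L ^ 3 * (Λ / 2)) * (Λ ^ 2 / 32 / Λ ^ 4)) := by
        field_simp; ring
    _ ≤ _ := by
        gcongr
        · exact hE 0
        · exact hE 1

lemma lam_upper (hα : 0 < α) (hL : 0 < L) (hΛ : 0 < Λ) (hε : IsPolarisation L Λ ε)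
    {m : Fin 3 → ℤ} (hm : m ∈ box L Λ) :
    ∑ l, ext (fun j => ‖lam (kvec L Λ) (gvec α L Λ ε) (sa Λ) (sb Λ) 0 j‖ ^ 2) m l ≤
      α / (2 * (L * Λ) ^ 3) := by
  have hm' := box_subset hm
  simp_rw [ext_of _ hm']
  rw [sum_norm_lam hL hΛ hε hm', cpl_sq hα.le hL]
  have hb := (Finset.mem_filter.1 hm).2
  have hn := box_bounds hΛ hm
  have hE : ∀ i : Fin 3, ‖EE 1 (wave L m i / Λ)‖ ^ 2 ≤ 1 := fun i =>
    pow_le_one₀ (norm_nonneg _) (norm_EE_le_one _)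
  have h5 : α / (2 * L ^ 3 * ‖wave L m‖) ≤ α / (2 * L ^ 3 * (Λ / 8)) := by
    gcongr
    exact hn.1
  have h6 : wave L m 0 ^ 2 + wave L m 1 ^ 2 ≤ Λ ^ 2 / 8 := by
    have h0 := hb 0
    have h1 := hb 1
    nlinarith
  have h7 : 0 ≤ wave L m 0 ^ 2 + wave L m 1 ^ 2 := by positivity
  calc _ ≤ 1 * 1 * (α / (2 * L ^ 3 * (Λ / 8)) * (Λ ^ 2 / 8 / Λ ^ 4)) := by
        gcongr
        · exact hE 0
        · exact hE 1
    _ = _ := by field_simp

/-- Lower bound for the flux weight. -/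
lemma HS_lower (hα : 0 < α) (hL : 0 < L) (hΛ : 0 < Λ) (hε : IsPolarisation L Λ ε)
    (hX : 2 ≤ L * Λ / (16 * Real.pi)) :
    81 * α / (8192 * (32 * Real.pi) ^ 3) ≤
      HS (kvec L Λ) (gvec α L Λ ε) (SB L Λ) (sa Λ) (sb Λ) := by
  have hpi := Real.pi_pos
  unfold HS
  rw [sum_SB]
  have h1 := Finset.card_nsmul_le_sum (box L Λ) _ _ (fun m hm => lam_lower hα hL hΛ hε hm)
  rw [nsmul_eq_mul] at h1
  refine le_trans ?_ h1
  calc 81 * α / (8192 * (32 * Real.pi) ^ 3)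
      = (L * Λ / (32 * Real.pi)) ^ 3 * (81 * α / (8192 * (L * Λ) ^ 3)) := by field_simp
    _ ≤ _ := by
      gcongr
      exact card_box hL hΛ hX

end Pool.Agent.LiebLoss
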