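import Mathlib

/-!
# The Pauli–Fierz Hamiltonian of one electron (statement level definitions)

Units and conventions of the problem: `ℏ = c = 1`, bare mass `1`, box `V = L³`, coupling `α`,
ultraviolet cutoff `Λ`.  States are written in the occupation number basis of the photon Fock
space: `ψ n x ∈ ℂ` is the amplitude of the electron at `x ∈ ℝ³` together with `n j` photons in
mode `j`.
-/

open scoped ContDiff

namespace Pool.Agent.LiebLoss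

/-- Position space `ℝ³`. -/
abbrev E3 := EuclideanSpace ℝ (Fin 3)

/-- The wave vector `k = (2π/L) m`, `m ∈ ℤ³`. -/
noncomputable def wave (L : ℝ) (m : Fin 3 → ℤ) : E3 :=
  WithLp.toLp 2 fun i => 2 * Real.pi / L * (m i : ℝ)

open Classical in
/-- The finite set of all `m ∈ ℤ³`, `m ≠ 0`, whose wave vector satisfies `|k| < Λ`. -/
noncomputable def modeSet (L Λ : ℝ) : Finset (Fin 3 → ℤ) :=
  if h : {m : Fin 3 → ℤ | m ≠ 0 ∧ ‖wave L m‖ < Λ}.Finite then h.toFinset else ∅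

/-- The photon modes `(k, λ)`, `λ ∈ {0, 1}`. -/
abbrev Mode (L Λ : ℝ) := {m : Fin 3 → ℤ // m ∈ modeSet L Λ} × Fin 2

/-- The polarisation vectors `ε m 0, ε m 1` are orthonormal and orthogonal to `k`. -/
def IsPolarisation (L Λ : ℝ) (ε : (Fin 3 → ℤ) → Fin 2 → E3) : Prop :=
  ∀ m ∈ modeSet L Λ, Orthonormal ℝ (ε m) ∧ ∀ l, inner ℝ (wave L m) (ε m l) = 0

section Fock

variable {ι : Type*} [DecidableEq ι]

/-- The annihilation operator of mode `j`: `a_j |n⟩ = √(n_j) |n - e_j⟩`. -/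
noncomputable def ann (j : ι) (ψ : (ι → ℕ) → E3 → ℂ) : (ι → ℕ) → E3 → ℂ :=
  fun n x => (√((n j : ℝ) + 1) : ℝ) * ψ (n + Pi.single j 1) x

/-- The creation operator of mode `j`: `a_j^* |n⟩ = √(n_j + 1) |n + e_j⟩`. -/
noncomputable def cre (j : ι) (ψ : (ι → ℕ) → E3 → ℂ) : (ι → ℕ) → E3 → ℂ :=
  fun n x => (√(n j : ℝ) : ℝ) * ψ (n - Pi.single j 1) x

/-- The inner product of `L²(ℝ³) ⊗ Fock space`. -/
noncomputable def innerProd (ψ φ : (ι → ℕ) → E3 → ℂ) : ℂ :=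
  ∑' n, ∫ x, starRingEnd ℂ (ψ n x) * φ n x

/-- The core: finitely many photon configurations, smooth compactly supported components. -/
def IsState (ψ : (ι → ℕ) → E3 → ℂ) : Prop :=
  {n | ψ n ≠ 0}.Finite ∧ ∀ n, ContDiff ℝ ∞ (ψ n) ∧ HasCompactSupport (ψ n)

end Fock

variable (α L Λ : ℝ) (ε : (Fin 3 → ℤ) → Fin 2 → E3)

/-- The `i`-th component of the vector potential,
`A_i(x) = (2V)^{-1/2} ∑ |k|^{-1/2} ε_{λ,i}(k) (e^{ikx} a_λ(k) + e^{-ikx} a_λ(k)^*)`. -/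
noncomputable def vecPot (i : Fin 3) (ψ : (Mode L Λ → ℕ) → E3 → ℂ) : (Mode L Λ → ℕ) → E3 → ℂ :=
  fun n x => ((2 * L ^ 3 : ℝ) ^ (-1 / 2 : ℝ) : ℝ) * ∑ j : Mode L Λ,
    ((‖wave L j.1‖ ^ (-1 / 2 : ℝ) * ε j.1 j.2 i : ℝ) : ℂ) *
      (Complex.exp (Complex.I * (inner ℝ (wave L j.1) x : ℝ)) * ann j ψ n x +
        Complex.exp (-Complex.I * (inner ℝ (wave L j.1) x : ℝ)) * cre j ψ n x)

/-- The `i`-th component of `p + √α A(x)`, `p = -i∇`. -/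
noncomputable def vel (i : Fin 3) (ψ : (Mode L Λ → ℕ) → E3 → ℂ) : (Mode L Λ → ℕ) → E3 → ℂ :=
  fun n x => -Complex.I * fderiv ℝ (ψ n) x (EuclideanSpace.single i 1) +
    (√α : ℝ) * vecPot L Λ ε i ψ n x

/-- The Hamiltonian `H = ½ (p + √α A(x))² + ∑ |k| a_λ(k)^* a_λ(k)`. -/
noncomputable def ham (ψ : (Mode L Λ → ℕ) → E3 → ℂ) : (Mode L Λ → ℕ) → E3 → ℂ :=
  fun n x => 1 / 2 * ∑ i, vel α L Λ ε i (vel α L Λ ε i ψ) n x +
    ∑ j : Mode L Λ, ((‖wave L j.1‖ : ℝ) : ℂ) * cre j (ann j ψ) n x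

/-- The self-energy `E₀ = inf ⟨ψ, Hψ⟩ / ‖ψ‖²`. -/
noncomputable def selfEnergy : ℝ :=
  sInf {e : ℝ | ∃ ψ : (Mode L Λ → ℕ) → E3 → ℂ, IsState ψ ∧ ψ ≠ 0 ∧
    e = (innerProd ψ (ham α L Λ ε ψ)).re / (innerProd ψ ψ).re}

end Pool.Agent.LiebLoss
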