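import Pool.Agent.LiebLoss.Weyl

/-!
# The derivative of gauge translations
-/

open MeasureTheory Complex Real
open scoped ENNReal

set_option linter.unusedSectionVars false

namespace Pool.Agent.LiebLoss

variable {ι : Type*} [Fintype ι] [DecidableEq ι]

/-- The Bargmann transform in the field variables of a state. -/
noncomputable def BT (ψ : (ι → ℕ) → E3 → ℂ) (p : E3 × (ι → ℂ)) : ℂ := bt (fun n => ψ n p.1) p.2

/-- The generator `∂_b + i Φ(g(x))` of a gauge translation. -/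
noncomputable def Dop (b : E3) (g : E3 → ι → ℂ) (ψ : (ι → ℕ) → E3 → ℂ) : (ι → ℕ) → E3 → ℂ :=
  fun n x => fderiv ℝ (ψ n) x b + I * ∑ j, (starRingEnd ℂ (g x j) * an j (fun m => ψ m x) n +
    g x j * cr j (fun m => ψ m x) n)

/-- States: finitely many occupation numbers, continuously differentiable components. -/
structure Nice (ψ : (ι → ℕ) → E3 → ℂ) : Prop where
  fin : ∃ S : Finset (ι → ℕ), ∀ n ∉ S, ψ n = 0
  smooth : ∀ n, ContDiff ℝ 1 (ψ n)

lemma Nice.fs {ψ : (ι → ℕ) → E3 → ℂ} (h : Nice ψ) (x : E3) : FS (fun n => ψ n x) := by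
  obtain ⟨S, hS⟩ := h.fin
  exact fs_of (S := S) fun n hn => by rw [hS n hn]; rfl

lemma Nice.fs_fderiv {ψ : (ι → ℕ) → E3 → ℂ} (h : Nice ψ) (x b : E3) :
    FS (fun n => fderiv ℝ (ψ n) x b) := by
  obtain ⟨S, hS⟩ := h.fin
  exact fs_of (S := S) fun n hn => by rw [hS n hn]; simp

lemma hasDerivAt_BT {ψ : (ι → ℕ) → E3 → ℂ} (h : Nice ψ) (x b : E3) {w : ℝ → ι → ℂ}
    {w' : ι → ℂ} {t : ℝ} (hw : ∀ j, HasDerivAt (fun s => w s j) (w' j) t) :
    HasDerivAt (fun s => BT ψ (x + s • b, w s))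
      (bt (fun n => fderiv ℝ (ψ n) (x + t • b) b) (w t) +
        ∑ j, w' j * bt (an j (fun m => ψ m (x + t • b))) (w t)) t := by
  obtain ⟨S, hS⟩ := h.fin
  have e1 : (fun s => BT ψ (x + s • b, w s))
      = fun s => ∑ n ∈ S, ψ n (x + s • b) * mono n (w s) := by
    funext s
    exact bt_eq_sum (fun n hn => by simp [hS n hn]) _
  rw [e1, bt_eq_sum (S := S) (fun n hn => by simp [hS n hn])]
  have e2 : ∀ j, bt (an j (fun m => ψ m (x + t • b))) (w t)
      = ∑ n ∈ S, ψ n (x + t • b) * dmono j n (w t) := fun j =>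
    bt_an_eq_sum (S := S) (fun n hn => by simp [hS n hn]) j _
  simp_rw [e2]
  have h1 : ∀ n ∈ S, HasDerivAt (fun s => ψ n (x + s • b) * mono n (w s))
      (fderiv ℝ (ψ n) (x + t • b) b * mono n (w t) +
        ψ n (x + t • b) * ∑ j, w' j * dmono j n (w t)) t := by
    intro n _
    have hd : DifferentiableAt ℝ (ψ n) (x + t • b) :=
      ((h.smooth n).differentiable (by norm_num)).differentiableAt
    have hl : HasDerivAt (fun s : ℝ => x + s • b) b t := by
      have := ((hasDerivAt_id t).smul_const b).const_add x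
      simpa using this
    exact (hd.hasFDerivAt.comp_hasDerivAt t hl).mul (hasDerivAt_mono n hw)
  refine (HasDerivAt.fun_sum h1).congr_deriv ?_
  rw [Finset.sum_add_distrib]
  congr 1
  simp_rw [Finset.mul_sum]
  rw [Finset.sum_comm]
  refine Finset.sum_congr rfl fun j _ => ?_
  refine Finset.sum_congr rfl fun n _ => ?_
  ring

lemma BT_Dop {ψ : (ι → ℕ) → E3 → ℂ} (h : Nice ψ) (b : E3) (g : E3 → ι → ℂ) (x : E3) (w : ι → ℂ) :
    BT (Dop b g ψ) (x, w) = bt (fun n => fderiv ℝ (ψ n) x b) w +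
      I * ∑ j, (starRingEnd ℂ (g x j) * bt (an j (fun m => ψ m x)) w +
        g x j * (w j * bt (fun m => ψ m x) w)) := by
  unfold BT Dop
  simp only
  have hfs := h.fs x
  rw [bt_add (h.fs_fderiv x b) ((FS.sum _ fun j _ => ((hfs.an j).mul_left _).add
    ((hfs.cr j).mul_left _)).mul_left I), bt_mul_left, bt_sum _ fun j _ =>
      ((hfs.an j).mul_left _).add ((hfs.cr j).mul_left _)]
  congr 2
  refine Finset.sum_congr rfl fun j _ => ?_
  rw [bt_add ((hfs.an j).mul_left _) ((hfs.cr j).mul_left _), bt_mul_left, bt_mul_left, bt_cr]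

lemma wph_eq (z w : ι → ℂ) :
    wph z w = Complex.exp (-(∑ j, starRingEnd ℂ (z j) * z j) / 2 + I * ∑ j, z j * w j) := by
  unfold wph
  simp_rw [Complex.conj_mul']
  push_cast
  rfl

/-- The key differentiation formula. -/
lemma hasDerivAt_gt {ψ : (ι → ℕ) → E3 → ℂ} (h : Nice ψ) (b : E3) (g : E3 → ι → ℂ)
    {ζ : ℝ → E3 → ι → ℂ} (x : E3) (w : ι → ℂ) (t : ℝ)
    (hζ : ∀ j, HasDerivAt (fun s => ζ s x j) (g (x + t • b) j) t)
    (hσ : sig (ζ t x) (g (x + t • b)) = 0) :
    HasDerivAt (fun s => gt (s • b) (ζ s) (BT ψ) (x, w))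
      (gt (t • b) (ζ t) (BT (Dop b g ψ)) (x, w)) t := by
  have hcj : ∀ j, HasDerivAt (fun s => starRingEnd ℂ (ζ s x j))
      (starRingEnd ℂ (g (x + t • b) j)) t := fun j =>
    Complex.conjCLE.toContinuousLinearMap.hasFDerivAt.comp_hasDerivAt t (hζ j)
  have hw : ∀ j, HasDerivAt (fun s => w j + I * starRingEnd ℂ (ζ s x j))
      (I * starRingEnd ℂ (g (x + t • b) j)) t := fun j => ((hcj j).const_mul I).const_add (w j)
  have h1 := hasDerivAt_BT h x b (w := fun s j => w j + I * starRingEnd ℂ (ζ s x j)) hw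
  have h2 : HasDerivAt (fun s => wph (ζ s x) w)
      (wph (ζ t x) w * (I * ∑ j, g (x + t • b) j * (w j + I * starRingEnd ℂ (ζ t x j)))) t := by
    simp_rw [wph_eq]
    have h3 : HasDerivAt (fun s => -(∑ j, starRingEnd ℂ (ζ s x j) * ζ s x j) / 2
        + I * ∑ j, ζ s x j * w j)
        (-(∑ j, (starRingEnd ℂ (g (x + t • b) j) * ζ t x j +
          starRingEnd ℂ (ζ t x j) * g (x + t • b) j)) / 2
        + I * ∑ j, g (x + t • b) j * w j) t := by
      refine HasDerivAt.add ?_ ?_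
      · exact (HasDerivAt.fun_sum fun j _ => (hcj j).mul (hζ j)).neg.div_const 2
      · exact (HasDerivAt.fun_sum fun j _ => (hζ j).mul_const (w j)).const_mul I
    refine h3.cexp.congr_deriv ?_
    congr 1
    have hs : ∑ j, starRingEnd ℂ (g (x + t • b) j) * ζ t x j
        = ∑ j, starRingEnd ℂ (ζ t x j) * g (x + t • b) j := by
      have e1 : (∑ j, starRingEnd ℂ (ζ t x j) * g (x + t • b) j).im = 0 := by
        rw [Complex.im_sum]; exact hσ
      have e2 : starRingEnd ℂ (∑ j, starRingEnd ℂ (ζ t x j) * g (x + t • b) j)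
          = ∑ j, starRingEnd ℂ (ζ t x j) * g (x + t • b) j := Complex.conj_eq_iff_im.2 e1
      rw [← e2, map_sum]
      refine Finset.sum_congr rfl fun j _ => ?_
      rw [map_mul, Complex.conj_conj, mul_comm]
    rw [Finset.sum_add_distrib, hs]
    have h4 : ∑ j, g (x + t • b) j * (w j + I * starRingEnd ℂ (ζ t x j))
        = ∑ j, g (x + t • b) j * w j + I * ∑ j, starRingEnd ℂ (ζ t x j) * g (x + t • b) j := by
      rw [Finset.mul_sum, ← Finset.sum_add_distrib]
      refine Finset.sum_congr rfl fun j _ => by ring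
    rw [h4]
    linear_combination (- (∑ j, starRingEnd ℂ (ζ t x j) * g (x + t • b) j)) * Complex.I_sq
  have h5 := h2.mul h1
  unfold gt
  refine h5.congr_deriv ?_
  rw [BT_Dop h]
  simp only [BT]
  have h6 : ∀ j, I * starRingEnd ℂ (g (x + t • b) j) *
      bt (an j fun m => ψ m (x + t • b)) (fun j => w j + I * starRingEnd ℂ (ζ t x j))
      = I * (starRingEnd ℂ (g (x + t • b) j) *
      bt (an j fun m => ψ m (x + t • b)) (fun j => w j + I * starRingEnd ℂ (ζ t x j))) :=
    fun j => by ring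
  simp_rw [h6]
  rw [← Finset.mul_sum, Finset.sum_add_distrib]
  have h7 : ∑ j, g (x + t • b) j * ((w j + I * starRingEnd ℂ (ζ t x j)) *
      bt (fun m => ψ m (x + t • b)) (fun j => w j + I * starRingEnd ℂ (ζ t x j)))
      = (∑ j, g (x + t • b) j * (w j + I * starRingEnd ℂ (ζ t x j))) *
      bt (fun m => ψ m (x + t • b)) (fun j => w j + I * starRingEnd ℂ (ζ t x j)) := by
    rw [Finset.sum_mul]
    refine Finset.sum_congr rfl fun j _ => by ring
  rw [h7]
  ring

end Pool.Agent.LiebLoss
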