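import Pool.Agent.LiebLoss.Lower

/-!
# The final lower bound
-/

open MeasureTheory Complex Real
open scoped ENNReal ContDiff

set_option linter.unusedSectionVars false

namespace Pool.Agent.LiebLoss

variable {α L Λ : ℝ} {ε : (Fin 3 → ℤ) → Fin 2 → E3}

section Generic

variable {ι : Type*} [Fintype ι] [DecidableEq ι]

lemma nsq_pos {ψ : (ι → ℕ) → E3 → ℂ} (h : CS ψ) (h0 : ψ ≠ 0) : 0 < (nsq ψ).toReal := by
  rw [ENNReal.toReal_pos_iff]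
  refine ⟨?_, lt_top_iff_ne_top.2 h.inner_self.1⟩
  rw [pos_iff_ne_zero]
  intro hz
  apply h0
  funext n
  have h1 : ∫⁻ x, ‖ψ n x‖ₑ ^ 2 ≤ nsq ψ := by
    unfold nsq
    exact lintegral_mono fun x => ENNReal.le_tsum n
  rw [hz] at h1
  have hc := h.cont n
  have h2 : ∫⁻ x, ‖ψ n x‖ₑ ^ 2 = 0 := le_antisymm h1 bot_le
  rw [lintegral_eq_zero_iff (by fun_prop)] at h2
  have h3 : ψ n =ᵐ[volume] (0 : E3 → ℂ) := by
    filter_upwards [h2] with x hx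
    simpa using hx
  exact (hc.ae_eq_iff_eq volume continuous_const).1 h3

lemma exists_state : ∃ ψ : (ι → ℕ) → E3 → ℂ, IsState ψ ∧ ψ ≠ 0 := by
  classical
  let f : ContDiffBump (0 : E3) := ⟨1, 2, by norm_num, by norm_num⟩
  let φ : E3 → ℂ := fun x => (f x : ℂ)
  have hφ : ContDiff ℝ ∞ φ := Complex.ofRealCLM.contDiff.comp f.contDiff
  have hφs : HasCompactSupport φ := f.hasCompactSupport.comp_left (g := fun r : ℝ => (r : ℂ)) rfl
  have hφ0 : φ 0 = 1 := by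
    have : f 0 = 1 := f.one_of_mem_closedBall (by simp [f])
    simp [φ, this]
  refine ⟨fun n => if n = 0 then φ else 0, ⟨?_, fun n => ?_⟩, ?_⟩
  · refine (Set.finite_singleton (0 : ι → ℕ)).subset fun n hn => ?_
    by_contra hc
    exact hn (if_neg hc)
  · by_cases hn : n = 0
    · simp only [hn, if_true]
      exact ⟨hφ, hφs⟩
    · simp only [hn, if_false]
      exact ⟨contDiff_const, HasCompactSupport.zero⟩
  · intro hc
    have := congrFun (congrFun hc 0) 0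
    simp [hφ0] at this

end Generic

lemma le_selfEnergy {c : ℝ} (hc : ∀ ψ : (Mode L Λ → ℕ) → E3 → ℂ, St ψ → c * (nsq ψ).toReal ≤
    1 / 2 * ∑ i, (nsq (vel α L Λ ε i ψ)).toReal +
      ∑ j : Mode L Λ, ‖wave L j.1‖ * (nsq (ann j ψ)).toReal) :
    c ≤ selfEnergy α L Λ ε := by
  unfold selfEnergy
  refine le_csInf ?_ ?_
  · obtain ⟨ψ, h1, h2⟩ := exists_state (ι := Mode L Λ)
    exact ⟨_, ψ, h1, h2, rfl⟩
  · rintro e ⟨ψ, h1, h2, rfl⟩
    have hst := h1.st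
    have hpos := nsq_pos hst.cs h2
    rw [form_eq hst, hst.cs.inner_self.2, Complex.ofReal_re, le_div_iff₀ hpos]
    exact hc ψ hst

/-- **Lower bound of order `α^{2/7} Λ^{12/7}` for the self-energy**, uniformly in the volume. -/
theorem lower_bound : ∃ c : ℝ, 0 < c ∧ ∀ α : ℝ, 0 < α → ∃ K : ℝ, 0 < K ∧
    ∀ L Λ : ℝ, 0 < L → K ≤ Λ → K ≤ L * Λ ^ (6 / 7 : ℝ) →
      ∀ ε : (Fin 3 → ℤ) → Fin 2 → E3, IsPolarisation L Λ ε →
        c * α ^ (2 / 7 : ℝ) * Λ ^ (12 / 7 : ℝ) ≤ selfEnergy α L Λ ε := by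
  have hpi := Real.pi_pos
  set cH : ℝ := 81 / (8192 * (32 * Real.pi) ^ 3) with hcH
  have hcH0 : 0 < cH := by positivity
  set c2 : ℝ := cH ^ 2 / (256 * Real.pi ^ 2) with hc2
  have hc20 : 0 < c2 := by positivity
  refine ⟨min (1 / 3200) c2, by positivity, fun α hα => ?_⟩
  set K1 : ℝ := α * (4 * Real.pi ^ 2 / (cH * α)) ^ (7 / 2 : ℝ) with hK1
  set K2 : ℝ := 2 * (1 / α) ^ (1 / 7 : ℝ) with hK2
  refine ⟨1 + α + K1 + 32 * Real.pi + K2, by positivity, ?_⟩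
  intro L Λ hL hKΛ hKL ε hε
  have hK10 : 0 < K1 := by positivity
  have hK20 : 0 < K2 := by positivity
  have hΛ1 : 1 ≤ Λ := by linarith
  have hΛ : 0 < Λ := by linarith
  have hΛα : α ≤ Λ := by linarith
  have hΛK1 : K1 ≤ Λ := by linarith
  have hLpi : 32 * Real.pi ≤ L * Λ ^ (6 / 7 : ℝ) := by linarith
  have hLK2 : K2 ≤ L * Λ ^ (6 / 7 : ℝ) := by linarith
  have hΛ67 : Λ ^ (6 / 7 : ℝ) * Λ ^ (1 / 7 : ℝ) = Λ := by
    rw [← Real.rpow_add hΛ]; norm_num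
  have hΛ17 : 1 ≤ Λ ^ (1 / 7 : ℝ) := Real.one_le_rpow hΛ1 (by norm_num)
  have hLΛ : L * Λ = L * Λ ^ (6 / 7 : ℝ) * Λ ^ (1 / 7 : ℝ) := by rw [mul_assoc, hΛ67]
  -- the parameter
  set θ : ℝ := (Λ / α) ^ (1 / 7 : ℝ) with hθ
  have hθ0 : 0 < θ := by positivity
  have hθ1 : 1 ≤ θ := Real.one_le_rpow (by rw [le_div_iff₀ hα]; linarith) (by norm_num)
  set N : ℕ := ⌈θ⌉₊ with hN
  have hNθ : θ ≤ N := Nat.le_ceil _
  have hN2 : (N : ℝ) ≤ 2 * θ := by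
    have := (Nat.ceil_lt_add_one hθ0.le).le
    linarith
  have hN1 : 1 ≤ N := Nat.one_le_ceil_iff.2 hθ0
  have hNr : (0:ℝ) < N := by linarith
  -- the conditions
  have hX : 2 ≤ L * Λ / (16 * Real.pi) := by
    rw [le_div_iff₀ (by positivity), hLΛ]
    have : 0 < L * Λ ^ (6 / 7 : ℝ) := by positivity
    nlinarith
  have hNL : (N : ℝ) ≤ L * Λ := by
    refine hN2.trans ?_
    have h1 : 2 * θ = K2 * Λ ^ (1 / 7 : ℝ) := by
      rw [hθ, hK2, div_eq_mul_inv, Real.mul_rpow hΛ.le (by positivity), one_div α]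
      ring
    rw [h1, hLΛ]
    gcongr
  have hθ2 : 4 * Real.pi ^ 2 / (cH * α) ≤ θ ^ 2 := by
    have h1 : θ ^ 2 = (Λ / α) ^ (2 / 7 : ℝ) := by
      rw [hθ, ← Real.rpow_natCast, ← Real.rpow_mul (by positivity)]
      norm_num
    rw [h1]
    have h2 : (4 * Real.pi ^ 2 / (cH * α)) ^ (7 / 2 : ℝ) ≤ Λ / α := by
      rw [le_div_iff₀ hα, mul_comm]
      exact hΛK1
    calc 4 * Real.pi ^ 2 / (cH * α)
        = ((4 * Real.pi ^ 2 / (cH * α)) ^ (7 / 2 : ℝ)) ^ (2 / 7 : ℝ) := by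
          rw [← Real.rpow_mul (by positivity)]; norm_num
      _ ≤ _ := Real.rpow_le_rpow (by positivity) h2 (by norm_num)
  have hbig : 4 * Real.pi ^ 2 ≤ N ^ 2 * (81 * α / (8192 * (32 * Real.pi) ^ 3)) := by
    have h1 : 81 * α / (8192 * (32 * Real.pi) ^ 3) = cH * α := by rw [hcH]; ring
    rw [h1]
    rw [div_le_iff₀ (by positivity)] at hθ2
    refine hθ2.trans ?_
    gcongr
  -- the exponents
  have e1 : Λ ^ 2 / θ ^ 2 = α ^ (2 / 7 : ℝ) * Λ ^ (12 / 7 : ℝ) := by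
    have h1 : θ ^ 2 = Λ ^ (2 / 7 : ℝ) / α ^ (2 / 7 : ℝ) := by
      rw [hθ, ← Real.rpow_natCast, ← Real.rpow_mul (by positivity),
        ← Real.div_rpow hΛ.le hα.le]
      norm_num
    have h2 : Λ ^ 2 = Λ ^ (12 / 7 : ℝ) * Λ ^ (2 / 7 : ℝ) := by
      rw [← Real.rpow_add hΛ, ← Real.rpow_natCast]; norm_num
    rw [h1, h2]
    have h3 : 0 < Λ ^ (2 / 7 : ℝ) := by positivity
    have h4 : 0 < α ^ (2 / 7 : ℝ) := by positivity
    field_simp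
  have e2 : α * Λ * θ ^ 5 = α ^ (2 / 7 : ℝ) * Λ ^ (12 / 7 : ℝ) := by
    have h1 : θ ^ 5 = Λ ^ (5 / 7 : ℝ) / α ^ (5 / 7 : ℝ) := by
      rw [hθ, ← Real.rpow_natCast, ← Real.rpow_mul (by positivity),
        ← Real.div_rpow hΛ.le hα.le]
      norm_num
    have h2 : Λ * Λ ^ (5 / 7 : ℝ) = Λ ^ (12 / 7 : ℝ) := by
      nth_rewrite 1 [← Real.rpow_one Λ]
      rw [← Real.rpow_add hΛ]; norm_num
    have h3 : α = α ^ (2 / 7 : ℝ) * α ^ (5 / 7 : ℝ) := by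
      rw [← Real.rpow_add hα]; norm_num
    have h4 : 0 < α ^ (5 / 7 : ℝ) := by positivity
    rw [h1, ← h2]
    field_simp
    rw [mul_comm (α ^ (5 / 7 : ℝ)), ← h3]
  refine le_selfEnergy fun ψ hψ => ?_
  refine le_trans ?_ (dichotomy hα hL hΛ hε hψ hN1 hX hNL hbig)
  refine mul_le_mul_of_nonneg_right ?_ ENNReal.toReal_nonneg
  rw [mul_assoc]
  refine le_min ?_ ?_
  · calc min (1 / 3200) c2 * (α ^ (2 / 7 : ℝ) * Λ ^ (12 / 7 : ℝ))
        ≤ 1 / 3200 * (Λ ^ 2 / θ ^ 2) := by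
          rw [e1]; gcongr; exact min_le_left _ _
      _ = Λ ^ 2 / (800 * (2 * θ) ^ 2) := by field_simp; ring
      _ ≤ _ := by gcongr
  · calc min (1 / 3200) c2 * (α ^ (2 / 7 : ℝ) * Λ ^ (12 / 7 : ℝ))
        ≤ c2 * (α * Λ * θ ^ 5) := by
          rw [e2]; gcongr; exact min_le_right _ _
      _ = α * Λ * θ ^ 5 * c2 := by ring
      _ ≤ _ := by gcongr

end Pool.Agent.LiebLoss
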