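import Pool.Agent.LiebLoss.Gauss

/-!
# Occupation number vectors and the Bargmann transform
-/

open MeasureTheory Complex Real
open scoped ENNReal

set_option linter.unusedSectionVars false

namespace Pool.Agent.LiebLoss

variable {ι : Type*} [Fintype ι] [DecidableEq ι]

/-- Annihilation operator in the occupation number representation. -/
noncomputable def an (j : ι) (u : (ι → ℕ) → ℂ) : (ι → ℕ) → ℂ :=
  fun n => (√((n j : ℝ) + 1) : ℝ) * u (n + Pi.single j 1)

/-- Creation operator in the occupation number representation. -/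
noncomputable def cr (j : ι) (u : (ι → ℕ) → ℂ) : (ι → ℕ) → ℂ :=
  fun n => (√(n j : ℝ) : ℝ) * u (n - Pi.single j 1)

lemma add_single_injective (j : ι) : Function.Injective (fun n : ι → ℕ => n + Pi.single j 1) :=
  fun a b h => by simpa using h

lemma sub_add_single {j : ι} {n : ι → ℕ} (h : n j ≠ 0) :
    n - Pi.single j 1 + Pi.single j 1 = n := by
  funext i
  by_cases hi : i = j
  · subst hi; simp; omega
  · simp [Pi.single_eq_of_ne hi]

lemma add_sub_single {j : ι} {n : ι → ℕ} :
    n + Pi.single j 1 - Pi.single j 1 = n := by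
  funext i
  simp

lemma cr_zero_of {j : ι} {u : (ι → ℕ) → ℂ} {n : ι → ℕ} (h : n j = 0) : cr j u n = 0 := by
  simp [cr, h]

/-- Adjointness of annihilation and creation operators. -/
lemma tsum_an_mul (j : ι) (u v : (ι → ℕ) → ℂ) :
    ∑' n, starRingEnd ℂ (an j u n) * v n = ∑' n, starRingEnd ℂ (u n) * cr j v n := by
  rw [← (add_single_injective j).tsum_eq (f := fun n => starRingEnd ℂ (u n) * cr j v n)]
  · refine tsum_congr fun n => ?_
    simp only [an, cr, map_mul, Complex.conj_ofReal, Pi.add_apply, Pi.single_eq_same,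
      add_sub_single]
    push_cast
    ring
  · intro n hn
    simp only [Function.mem_support, ne_eq, mul_eq_zero, not_or] at hn
    have : n j ≠ 0 := fun h => hn.2 (cr_zero_of h)
    exact ⟨n - Pi.single j 1, sub_add_single this⟩

/-- Canonical commutation relations. -/
lemma an_cr (j l : ι) (u : (ι → ℕ) → ℂ) (n : ι → ℕ) :
    an j (cr l u) n = cr l (an j u) n + if j = l then u n else 0 := by
  unfold an cr
  by_cases h : j = l
  · subst h
    simp only [Pi.add_apply, Pi.single_eq_same, add_sub_single, if_true]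
    by_cases h0 : n j = 0
    · simp [h0]
    · rw [sub_add_single h0]
      have h1 : ((n - Pi.single j 1 : ι → ℕ) j : ℝ) + 1 = n j := by
        have h2 : (n - Pi.single j 1 : ι → ℕ) j + 1 = n j := by
          simp; omega
        exact_mod_cast h2
      rw [h1]
      have e1 : ((√((n j:ℝ) + 1) : ℝ) : ℂ) * ((√((n j:ℝ) + 1) : ℝ) : ℂ) = (n j : ℂ) + 1 := by
        rw [← Complex.ofReal_mul, Real.mul_self_sqrt (by positivity)]; push_cast; ring
      have e2 : ((√((n j:ℝ)) : ℝ) : ℂ) * ((√((n j:ℝ)) : ℝ) : ℂ) = (n j : ℂ) := by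
        rw [← Complex.ofReal_mul, Real.mul_self_sqrt (by positivity)]; push_cast; ring
      push_cast
      linear_combination (u n) * e1 - (u n) * e2
  · simp only [Pi.add_apply, h, if_false, add_zero]
    rw [Pi.single_eq_of_ne (Ne.symm h), add_zero]
    by_cases h0 : n l = 0
    · simp [h0]
    · have h1 : (n - Pi.single l 1 : ι → ℕ) j = n j := by
        simp [Pi.single_eq_of_ne h]
      have h2 : n + Pi.single j 1 - Pi.single l 1 = n - Pi.single l 1 + Pi.single j 1 := by
        funext i
        by_cases hi : i = l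
        · subst hi
          simp [Pi.single_eq_of_ne (Ne.symm h)]
        · simp [Pi.single_eq_of_ne hi]
      rw [h1, h2]; ring

/-- Normalised monomials, the image of the occupation number basis. -/
noncomputable def mono (n : ι → ℕ) (w : ι → ℂ) : ℂ := ∏ j, (w j ^ n j / (√((n j).factorial : ℝ) : ℝ))

/-- The product Gaussian weight. -/
noncomputable def wt (w : ι → ℂ) : ℝ := ∏ j, wt1 (w j)

lemma wt_pos (w : ι → ℂ) : 0 < wt w := Finset.prod_pos fun _ _ => wt1_pos _

lemma continuous_wt : Continuous (wt : (ι → ℂ) → ℝ) := by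
  unfold wt
  have := continuous_wt1
  fun_prop

lemma continuous_mono (n : ι → ℕ) : Continuous (mono n) := by
  unfold mono
  fun_prop

lemma mono_prod (n m : ι → ℕ) (w : ι → ℂ) :
    starRingEnd ℂ (mono n w) * mono m w * (wt w : ℂ)
      = ∏ j, ((starRingEnd ℂ (w j)) ^ n j * (w j) ^ m j * (wt1 (w j) : ℂ)) *
        (1 / ((√((n j).factorial : ℝ) : ℝ) * (√((m j).factorial : ℝ) : ℝ))) := by
  unfold mono wt
  rw [map_prod]
  push_cast
  rw [← Finset.prod_mul_distrib, ← Finset.prod_mul_distrib]
  refine Finset.prod_congr rfl fun j _ => ?_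
  simp only [map_div₀, map_pow, Complex.conj_ofReal]
  field_simp

lemma integrable_mono_mul (n m : ι → ℕ) :
    Integrable (fun w : ι → ℂ => starRingEnd ℂ (mono n w) * mono m w * (wt w : ℂ)) := by
  simp_rw [mono_prod]
  refine Integrable.fintype_prod (f := fun j (z : ℂ) =>
    ((starRingEnd ℂ z) ^ n j * z ^ m j * (wt1 z : ℂ)) *
        (1 / ((√((n j).factorial : ℝ) : ℝ) * (√((m j).factorial : ℝ) : ℝ) : ℂ))) ?_
  intro j
  exact (integrable_mono1 (n j) (m j)).mul_const _

lemma integral_mono (n m : ι → ℕ) :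
    ∫ w : ι → ℂ, starRingEnd ℂ (mono n w) * mono m w * (wt w : ℂ) = if n = m then 1 else 0 := by
  simp_rw [mono_prod]
  rw [integral_fintype_prod_volume_eq_prod (fun j (z : ℂ) =>
    ((starRingEnd ℂ z) ^ n j * z ^ m j * (wt1 z : ℂ)) *
        (1 / ((√((n j).factorial : ℝ) : ℝ) * (√((m j).factorial : ℝ) : ℝ) : ℂ)))]
  simp_rw [integral_mul_const, integral_mono1]
  split_ifs with h
  · subst h
    refine Finset.prod_eq_one fun j _ => ?_
    simp only [if_true]
    have : ((√((n j).factorial : ℝ) : ℝ) : ℂ) * ((√((n j).factorial : ℝ) : ℝ) : ℂ)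
        = ((n j).factorial : ℂ) := by
      rw [← Complex.ofReal_mul, Real.mul_self_sqrt (by positivity)]; push_cast; ring
    rw [this]
    have h0 : ((n j).factorial : ℂ) ≠ 0 := by exact_mod_cast (Nat.factorial_pos _).ne'
    field_simp
  · have : ∃ j, n j ≠ m j := by
      by_contra hc
      push Not at hc
      exact h (funext hc)
    obtain ⟨j, hj⟩ := this
    exact Finset.prod_eq_zero (Finset.mem_univ j) (by simp [hj])

end Pool.Agent.LiebLoss
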