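import Mathlib

/-!
# The Gaussian weight on `ℂ` and orthogonality of monomials
-/

open MeasureTheory Complex Real

namespace Pool.Agent.LiebLoss

/-- The Gaussian density on `ℂ`. -/
noncomputable def wt1 (z : ℂ) : ℝ := Real.exp (-‖z‖ ^ 2) / Real.pi

lemma wt1_nonneg (z : ℂ) : 0 ≤ wt1 z := by
  unfold wt1; positivity

lemma wt1_pos (z : ℂ) : 0 < wt1 z := by
  unfold wt1; positivity

lemma continuous_wt1 : Continuous wt1 := by
  unfold wt1; fun_prop

lemma integral_norm_pow_wt (n : ℕ) : ∫ z : ℂ, ‖z‖ ^ (2 * n) * wt1 z = n.factorial := by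
  have h := Complex.integral_rpow_mul_exp_neg_rpow (p := 2) (q := 2 * n) (by norm_num)
    (by have : (0:ℝ) ≤ n := Nat.cast_nonneg n
        linarith)
  have h2 : ∀ z : ℂ, ‖z‖ ^ (2 * n) * wt1 z
      = (‖z‖ ^ (2 * (n:ℝ)) * Real.exp (-‖z‖ ^ (2:ℝ))) * (1 / Real.pi) := by
    intro z
    unfold wt1
    have e1 : ‖z‖ ^ (2 * (n:ℝ)) = ‖z‖ ^ (2 * n) := by
      rw [← Real.rpow_natCast]; push_cast; rfl
    have e2 : ‖z‖ ^ (2:ℝ) = ‖z‖ ^ 2 := by
      rw [← Real.rpow_natCast]; norm_num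
    rw [e1, e2]; ring
  simp_rw [h2]
  rw [integral_mul_const, h]
  have : ((2:ℝ) * n + 2) / 2 = n + 1 := by ring
  rw [this, Real.Gamma_nat_eq_factorial]
  have := Real.pi_ne_zero
  field_simp

lemma integrable_norm_pow_even (n : ℕ) : Integrable (fun z : ℂ => ‖z‖ ^ (2 * n) * wt1 z) := by
  by_contra h
  have h1 := integral_undef h
  rw [integral_norm_pow_wt] at h1
  have : (0:ℝ) < n.factorial := by exact_mod_cast Nat.factorial_pos n
  linarith

lemma integrable_norm_pow (n : ℕ) : Integrable (fun z : ℂ => ‖z‖ ^ n * wt1 z) := by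
  have h0 := integrable_norm_pow_even 0
  have h1 := integrable_norm_pow_even n
  refine (h0.add h1).mono' ?_ ?_
  · have := continuous_wt1
    exact Continuous.aestronglyMeasurable (by fun_prop)
  · refine Filter.Eventually.of_forall fun z => ?_
    have hw := wt1_nonneg z
    rw [norm_mul, norm_pow, norm_norm, Real.norm_of_nonneg hw]
    have : ‖z‖ ^ n ≤ ‖z‖ ^ (2 * 0) + ‖z‖ ^ (2 * n) := by
      rcases le_total ‖z‖ 1 with h | h
      · have h3 : ‖z‖ ^ n ≤ 1 := pow_le_one₀ (norm_nonneg _) h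
        have h4 : 0 ≤ ‖z‖ ^ (2 * n) := by positivity
        simp; linarith
      · have h3 : ‖z‖ ^ n ≤ ‖z‖ ^ (2 * n) := pow_le_pow_right₀ h (by omega)
        simp; linarith
    calc ‖z‖ ^ n * wt1 z ≤ (‖z‖ ^ (2 * 0) + ‖z‖ ^ (2 * n)) * wt1 z := by gcongr
      _ = _ := by simp [add_mul]

lemma integrable_mono1 (n m : ℕ) :
    Integrable (fun z : ℂ => (starRingEnd ℂ z) ^ n * z ^ m * (wt1 z : ℂ)) := by
  refine (integrable_norm_pow (n + m)).mono' ?_ ?_
  · have := continuous_wt1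
    refine Continuous.aestronglyMeasurable ?_
    have : Continuous (starRingEnd ℂ) := Complex.continuous_conj
    fun_prop
  · refine Filter.Eventually.of_forall fun z => ?_
    have hw := wt1_nonneg z
    rw [norm_mul, norm_mul, norm_pow, norm_pow, RCLike.norm_conj, Complex.norm_real,
      Real.norm_of_nonneg hw, pow_add]

lemma integral_mono1_ne {n m : ℕ} (h : n ≠ m) :
    ∫ z : ℂ, (starRingEnd ℂ z) ^ n * z ^ m * (wt1 z : ℂ) = 0 := by
  set φ : ℝ := Real.pi / ((m:ℝ) - n) with hφ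
  set c : Circle := Circle.exp φ with hc
  have hmp := (rotation c).measurePreserving
  have h1 := hmp.integral_comp (rotation c).toHomeomorph.measurableEmbedding
    (fun z : ℂ => (starRingEnd ℂ z) ^ n * z ^ m * (wt1 z : ℂ))
  have hne : ((m:ℝ) - n) ≠ 0 := by
    rw [sub_ne_zero]; exact_mod_cast h.symm
  have hcv : (c : ℂ) = Complex.exp (φ * I) := by rw [hc, Circle.coe_exp]
  have hcc : (starRingEnd ℂ (c:ℂ)) ^ n * (c:ℂ) ^ m = -1 := by
    rw [hcv, ← Complex.exp_conj, ← Complex.exp_nat_mul, ← Complex.exp_nat_mul, ← Complex.exp_add]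
    have : (n:ℂ) * (starRingEnd ℂ) (φ * I) + m * (φ * I) = Real.pi * I := by
      simp only [map_mul, Complex.conj_ofReal, Complex.conj_I]
      have h2 : ((m:ℝ) - n) * φ = Real.pi := by rw [hφ]; field_simp
      have h3 : ((m:ℂ) - n) * φ = Real.pi := by exact_mod_cast h2
      linear_combination I * h3
    rw [this, Complex.exp_pi_mul_I]
  have h2 : ∀ z : ℂ, (fun z : ℂ => (starRingEnd ℂ z) ^ n * z ^ m * (wt1 z : ℂ)) (rotation c z)
      = - ((starRingEnd ℂ z) ^ n * z ^ m * (wt1 z : ℂ)) := by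
    intro z
    have hw : wt1 ((c:ℂ) * z) = wt1 z := by
      unfold wt1; rw [norm_mul, Circle.norm_coe, one_mul]
    simp only [rotation_apply, map_mul, mul_pow, hw]
    linear_combination ((starRingEnd ℂ z) ^ n * z ^ m * (wt1 z : ℂ)) * hcc
  simp_rw [h2] at h1
  rw [integral_neg] at h1
  have h3 : (2:ℂ) * ∫ z : ℂ, (starRingEnd ℂ z) ^ n * z ^ m * (wt1 z : ℂ) = 0 := by
    linear_combination - h1
  simpa using h3

lemma integral_mono1 (n m : ℕ) :
    ∫ z : ℂ, (starRingEnd ℂ z) ^ n * z ^ m * (wt1 z : ℂ) = if n = m then (n.factorial : ℂ) else 0 := by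
  split_ifs with h
  · subst h
    rw [← Complex.ofReal_natCast, ← integral_norm_pow_wt n, ← integral_complex_ofReal]
    congr 1
    funext z
    rw [← mul_pow, Complex.conj_mul', ← pow_mul]
    push_cast
    rfl
  · exact integral_mono1_ne h

end Pool.Agent.LiebLoss
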