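import Pool.Agent.LiebLoss.StateAlg

/-!
# The quadratic form of the Hamiltonian
-/

open MeasureTheory Complex Real
open scoped ENNReal ContDiff

set_option linter.unusedSectionVars false

namespace Pool.Agent.LiebLoss

section Generic

variable {ι : Type*} [Fintype ι] [DecidableEq ι]

/-- The momentum part `-i ∂_i`. -/
noncomputable def mom (i : Fin 3) (ψ : (ι → ℕ) → E3 → ℂ) : (ι → ℕ) → E3 → ℂ :=
  fun n x => -I * fderiv ℝ (ψ n) x (EuclideanSpace.single i 1)

/-- The field part `Φ(z(x))`. -/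
noncomputable def fld (z : E3 → ι → ℂ) (ψ : (ι → ℕ) → E3 → ℂ) : (ι → ℕ) → E3 → ℂ :=
  fun n x => az (z x) (fun m => ψ m x) n + adz (z x) (fun m => ψ m x) n

lemma St.mom_cs {ψ : (ι → ℕ) → E3 → ℂ} (h : St ψ) (i : Fin 3) : CS (mom i ψ) := by
  obtain ⟨S, hS⟩ := h.fin
  refine ⟨⟨S, fun n hn => ?_⟩, fun n => ?_, fun n => ?_⟩
  · funext x
    simp [mom, hS n hn]
  · unfold mom
    have h2 : Continuous fun x => fderiv ℝ (ψ n) x (EuclideanSpace.single i 1) :=
      ((h.smooth n).continuous_fderiv (by norm_num)).clm_apply continuous_const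
    fun_prop
  · unfold mom
    have h3 : HasCompactSupport fun x => fderiv ℝ (ψ n) x (EuclideanSpace.single i 1) :=
      (h.supp n).fderiv_apply ℝ _
    exact h3.mul_left

lemma CS.fld {ψ : (ι → ℕ) → E3 → ℂ} (h : CS ψ) {z : E3 → ι → ℂ} (hz : Continuous z) :
    CS (fld z ψ) := by
  have hz' : ∀ j, Continuous fun x => z x j := fun j => (continuous_apply j).comp hz
  have e : LiebLoss.fld z ψ = fun n x => (∑ j, starRingEnd ℂ (z x j) * LiebLoss.ann j ψ n x) +
      ∑ j, z x j * LiebLoss.cre j ψ n x := rfl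
  rw [e]
  refine (CS.sum _ fun j _ => ?_).add (CS.sum _ fun j _ => ?_)
  · exact (h.ann j).mul (Complex.continuous_conj.comp (hz' j))
  · exact (h.cre j).mul (hz' j)

lemma fderiv_conj (f : E3 → ℂ) (x v : E3) :
    fderiv ℝ (fun y => starRingEnd ℂ (f y)) x v = starRingEnd ℂ (fderiv ℝ f x v) := by
  have h : (fun y => starRingEnd ℂ (f y)) = Complex.conjCLE ∘ f := rfl
  rw [h, ContinuousLinearEquiv.comp_fderiv]
  rfl

/-- The momentum operator is symmetric. -/
lemma mom_symm {ψ φ : (ι → ℕ) → E3 → ℂ} (h : St ψ) (h' : St φ) (i : Fin 3) :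
    innerProd ψ (mom i φ) = innerProd (mom i ψ) φ := by
  unfold innerProd
  refine tsum_congr fun n => ?_
  unfold mom
  set v : E3 := EuclideanSpace.single i 1
  have c1 := (h.smooth n).continuous
  have c2 := (h'.smooth n).continuous
  have c3 : Continuous fun x => starRingEnd ℂ (ψ n x) := Complex.continuous_conj.comp c1
  have d1 : Continuous fun x => fderiv ℝ (ψ n) x v :=
    ((h.smooth n).continuous_fderiv (by norm_num)).clm_apply continuous_const
  have d2 : Continuous fun x => fderiv ℝ (φ n) x v :=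
    ((h'.smooth n).continuous_fderiv (by norm_num)).clm_apply continuous_const
  have d3 : Continuous fun x => starRingEnd ℂ (fderiv ℝ (ψ n) x v) :=
    Complex.continuous_conj.comp d1
  have s2 : HasCompactSupport fun x => fderiv ℝ (φ n) x v := (h'.supp n).fderiv_apply ℝ _
  have key := integral_mul_fderiv_eq_neg_fderiv_mul_of_integrable (μ := (volume : Measure E3))
    (f := fun x => starRingEnd ℂ (ψ n x)) (g := φ n) (v := v) ?_ ?_ ?_ ?_ ?_
  · simp_rw [fderiv_conj] at key
    have e1 : ∀ x, starRingEnd ℂ (ψ n x) * (-I * fderiv ℝ (φ n) x v)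
        = -I * (starRingEnd ℂ (ψ n x) * fderiv ℝ (φ n) x v) := fun x => by ring
    have e2 : ∀ x, starRingEnd ℂ (-I * fderiv ℝ (ψ n) x v) * φ n x
        = I * (starRingEnd ℂ (fderiv ℝ (ψ n) x v) * φ n x) := fun x => by
      simp only [map_mul, map_neg, Complex.conj_I]; ring
    simp_rw [e1, e2]
    rw [integral_const_mul, integral_const_mul, key]
    ring
  · simp_rw [fderiv_conj]
    exact Continuous.integrable_of_hasCompactSupport (by fun_prop) ((h'.supp n).mul_left)
  · exact Continuous.integrable_of_hasCompactSupport (by fun_prop) (s2.mul_left)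
  · exact Continuous.integrable_of_hasCompactSupport (by fun_prop) ((h'.supp n).mul_left)
  · intro x _
    exact (Complex.conjCLE.differentiableAt.comp x
      (((h.smooth n).differentiable (by norm_num)).differentiableAt))
  · intro x _
    exact ((h'.smooth n).differentiable (by norm_num)).differentiableAt

lemma ip_az_right (z : ι → ℂ) {u v : (ι → ℕ) → ℂ} (hv : FS v) (hu : FS u) :
    ip u (az z v) = ip (adz z u) v := by
  unfold az adz
  rw [ip_sum_mul_right _ _ _ _ fun j _ => hv.an j, ip_sum_mul_left _ _ _ _ fun j _ => hu.cr j]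
  refine Finset.sum_congr rfl fun j _ => ?_
  rw [ip_cr_left]

lemma ip_adz_right (z : ι → ℂ) {u v : (ι → ℕ) → ℂ} (hv : FS v) (hu : FS u) :
    ip u (adz z v) = ip (az z u) v := by
  rw [← conj_ip, ← conj_ip v]
  congr 1
  exact (ip_az_right z hu hv).symm

lemma ip_add_left {u w v : (ι → ℕ) → ℂ} (hu : FS u) (hw : FS w) :
    ip (fun n => u n + w n) v = ip u v + ip w v := by
  rw [← conj_ip, ip_add_right v hu hw, map_add, conj_ip, conj_ip]

/-- The field operator is symmetric. -/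
lemma fld_symm {ψ φ : (ι → ℕ) → E3 → ℂ} (h : CS ψ) (h' : CS φ) {z : E3 → ι → ℂ}
    (hz : Continuous z) : innerProd ψ (fld z φ) = innerProd (fld z ψ) φ := by
  rw [h.inner_eq (h'.fld hz), (h.fld hz).inner_eq h']
  refine integral_congr_ae (Filter.Eventually.of_forall fun x => ?_)
  have f1 := h.fs x
  have f2 := h'.fs x
  change ip (fun n => ψ n x) (fun n => az (z x) (fun m => φ m x) n + adz (z x) (fun m => φ m x) n)
    = ip (fun n => az (z x) (fun m => ψ m x) n + adz (z x) (fun m => ψ m x) n) (fun n => φ n x)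
  rw [ip_add_right _ (f2.az _) (f2.adz _), ip_add_left (f1.az _) (f1.adz _), ip_az_right _ f2 f1,
    ip_adz_right _ f2 f1]
  ring

lemma inner_cre_ann {ψ : (ι → ℕ) → E3 → ℂ} (h : CS ψ) (j : ι) :
    innerProd ψ (cre j (ann j ψ)) = innerProd (ann j ψ) (ann j ψ) := by
  rw [h.inner_eq ((h.ann j).cre j), (h.ann j).inner_eq (h.ann j)]
  refine integral_congr_ae (Filter.Eventually.of_forall fun x => ?_)
  exact (ip_an_left j (fun n => ψ n x) (an j (fun n => ψ n x))).symm

end Generic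

variable {α L Λ : ℝ} {ε : (Fin 3 → ℤ) → Fin 2 → E3}

/-- The velocity operator in terms of momentum and field. -/
lemma vel_eq (i : Fin 3) (ψ : (Mode L Λ → ℕ) → E3 → ℂ) :
    vel α L Λ ε i ψ = fun n x => mom i ψ n x +
      fld (fa (kvec L Λ) (gvec α L Λ ε) (EuclideanSpace.single i 1)) ψ n x := by
  funext n x
  unfold vel mom fld az adz vecPot
  congr 1
  rw [← Finset.sum_add_distrib, Finset.mul_sum, Finset.mul_sum]
  refine Finset.sum_congr rfl fun j _ => ?_
  have e1 : (inner ℝ (gvec α L Λ ε j) (EuclideanSpace.single i 1) : ℝ)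
      = cpl α L j.1 * ε j.1 j.2 i := by
    rw [EuclideanSpace.inner_single_right]
    simp [gvec]
  unfold fa
  rw [e1, map_mul, Complex.conj_ofReal, ← Complex.exp_conj]
  have e2 : starRingEnd ℂ (-I * (inner ℝ (kvec L Λ j) x : ℝ)) = I * (inner ℝ (kvec L Λ j) x : ℝ) := by
    simp only [map_mul, map_neg, Complex.conj_I, Complex.conj_ofReal]
    ring
  rw [e2]
  have e3 : an j (fun m => ψ m x) n = ann j ψ n x := rfl
  have e4 : cr j (fun m => ψ m x) n = cre j ψ n x := rfl
  have e5 : kvec L Λ j = wave L j.1 := rfl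
  rw [e3, e4, e5]
  unfold cpl
  push_cast
  ring

/-- The covariant derivative along a unit vector. -/
lemma Dop_single (i : Fin 3) (ψ : (Mode L Λ → ℕ) → E3 → ℂ) (n : Mode L Λ → ℕ) (x : E3) :
    Dop (EuclideanSpace.single i 1) (fa (kvec L Λ) (gvec α L Λ ε) (EuclideanSpace.single i 1)) ψ n x
      = I * vel α L Λ ε i ψ n x := by
  rw [vel_eq]
  unfold Dop mom fld az adz
  simp only
  rw [← Finset.sum_add_distrib]
  linear_combination (fderiv ℝ (ψ n) x (EuclideanSpace.single i 1)) * Complex.I_sq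

lemma contDiff_exp_inner (k : E3) (c : ℂ) :
    ContDiff ℝ ∞ fun x : E3 => Complex.exp (c * (inner ℝ k x : ℝ)) := by
  have h1 : ContDiff ℝ ∞ fun x : E3 => (inner ℝ k x : ℝ) := contDiff_const.inner ℝ contDiff_id
  have h2 : ContDiff ℝ ∞ fun x : E3 => ((inner ℝ k x : ℝ) : ℂ) :=
    Complex.ofRealCLM.contDiff.comp h1
  exact (contDiff_const.mul h2).cexp

lemma St.vel {ψ : (Mode L Λ → ℕ) → E3 → ℂ} (h : St ψ) (i : Fin 3) : St (vel α L Λ ε i ψ) := by
  have hc : CS (LiebLoss.vel α L Λ ε i ψ) := by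
    rw [vel_eq]
    exact (h.mom_cs i).add (h.cs.fld (continuous_fa _))
  refine ⟨hc.fin, fun n => ?_, hc.supp⟩
  unfold LiebLoss.vel vecPot LiebLoss.ann LiebLoss.cre
  have h1 : ContDiff ℝ ∞ fun x => fderiv ℝ (ψ n) x (EuclideanSpace.single i 1) :=
    ((h.smooth n).fderiv_right (m := ∞) (by norm_num)).clm_apply contDiff_const
  have h2 := h.smooth
  have h3 : ∀ j : Mode L Λ, ContDiff ℝ ∞ fun x : E3 =>
      Complex.exp (I * (inner ℝ (wave L j.1) x : ℝ)) := fun j => contDiff_exp_inner _ _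
  have h4 : ∀ j : Mode L Λ, ContDiff ℝ ∞ fun x : E3 =>
      Complex.exp (-I * (inner ℝ (wave L j.1) x : ℝ)) := fun j => contDiff_exp_inner _ _
  fun_prop

lemma vel_symm {ψ φ : (Mode L Λ → ℕ) → E3 → ℂ} (h : St ψ) (h' : St φ) (i : Fin 3) :
    innerProd ψ (vel α L Λ ε i φ) = innerProd (vel α L Λ ε i ψ) φ := by
  have hz := continuous_fa (k := kvec L Λ) (g := gvec α L Λ ε) (EuclideanSpace.single i 1)
  rw [vel_eq, vel_eq, inner_add_right' h.cs (h'.mom_cs i) (h'.cs.fld hz), mom_symm h h',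
    fld_symm h.cs h'.cs hz]
  have h1 := inner_add_right' h'.cs (h.mom_cs i) (h.cs.fld hz)
  have h2 := congrArg (starRingEnd ℂ) h1
  rw [map_add, CS.conj_inner h'.cs ((h.mom_cs i).add (h.cs.fld hz)),
    CS.conj_inner h'.cs (h.mom_cs i), CS.conj_inner h'.cs (h.cs.fld hz)] at h2
  rw [h2]

/-- The quadratic form. -/
lemma form_eq {ψ : (Mode L Λ → ℕ) → E3 → ℂ} (h : St ψ) :
    (innerProd ψ (ham α L Λ ε ψ)).re = 1 / 2 * ∑ i, (nsq (vel α L Λ ε i ψ)).toReal +
      ∑ j : Mode L Λ, ‖wave L j.1‖ * (nsq (ann j ψ)).toReal := by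
  unfold ham
  have c1 : ∀ i ∈ (Finset.univ : Finset (Fin 3)), CS (vel α L Λ ε i (vel α L Λ ε i ψ)) :=
    fun i _ => ((h.vel i).vel i).cs
  have c2 : ∀ j ∈ (Finset.univ : Finset (Mode L Λ)), CS (fun n x =>
      ((‖wave L j.1‖ : ℝ) : ℂ) * cre j (ann j ψ) n x) :=
    fun j _ => ((h.cs.ann j).cre j).mul continuous_const
  rw [inner_add_right' h.cs ((CS.sum _ c1).mul continuous_const) (CS.sum _ c2),
    inner_mul_right' h.cs (CS.sum _ c1), inner_sum_right' _ h.cs c1, inner_sum_right' _ h.cs c2]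
  have e1 : ∀ i, innerProd ψ (vel α L Λ ε i (vel α L Λ ε i ψ))
      = (((nsq (vel α L Λ ε i ψ)).toReal : ℝ) : ℂ) := by
    intro i
    rw [vel_symm h (h.vel i), (h.vel i).cs.inner_self.2]
  have e2 : ∀ j : Mode L Λ, innerProd ψ (fun n x =>
      ((‖wave L j.1‖ : ℝ) : ℂ) * cre j (ann j ψ) n x)
      = ((‖wave L j.1‖ * (nsq (ann j ψ)).toReal : ℝ) : ℂ) := by
    intro j
    rw [inner_mul_right' h.cs ((h.cs.ann j).cre j), inner_cre_ann h.cs, (h.cs.ann j).inner_self.2]
    push_cast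
    rfl
  simp_rw [e1, e2]
  rw [← Complex.ofReal_sum, ← Complex.ofReal_sum, Complex.add_re, Complex.ofReal_re]
  congr 1
  have : (1 / 2 : ℂ) * ((∑ i, (nsq (vel α L Λ ε i ψ)).toReal : ℝ) : ℂ)
      = ((1 / 2 * ∑ i, (nsq (vel α L Λ ε i ψ)).toReal : ℝ) : ℂ) := by push_cast; ring
  rw [this, Complex.ofReal_re]

end Pool.Agent.LiebLoss
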