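import Pool.Agent.LiebLoss.Loop

/-!
# The key inequality
-/

open MeasureTheory Complex Real
open scoped ENNReal

set_option linter.unusedSectionVars false

namespace Pool.Agent.LiebLoss

variable {ι : Type*} [Fintype ι] [DecidableEq ι] {k g : ι → E3}

lemma lam_eq (a b x : E3) (j : ι) :
    lam k g a b x j = Complex.exp (-I * (inner ℝ (k j) x : ℝ)) *
      (I * (EE 1 (inner ℝ (k j) a) * EE 1 (inner ℝ (k j) b) *
      ((inner ℝ (g j) a * inner ℝ (k j) b - inner ℝ (g j) b * inner ℝ (k j) a : ℝ) : ℂ))) := by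
  unfold lam seg
  have h1 := theta_mul_EE (inner ℝ (k j) a)
  have h2 := theta_mul_EE (inner ℝ (k j) b)
  have e1 : Complex.exp (-I * (inner ℝ (k j) (x + b) : ℝ))
      = Complex.exp (-I * (inner ℝ (k j) x : ℝ)) * Complex.exp (-I * (inner ℝ (k j) b : ℝ)) := by
    rw [← Complex.exp_add, inner_add_right]; congr 1; push_cast; ring
  have e2 : Complex.exp (-I * (inner ℝ (k j) (x + a) : ℝ))
      = Complex.exp (-I * (inner ℝ (k j) x : ℝ)) * Complex.exp (-I * (inner ℝ (k j) a : ℝ)) := by
    rw [← Complex.exp_add, inner_add_right]; congr 1; push_cast; ring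
  rw [e1, e2]
  push_cast
  linear_combination (- ((inner ℝ (g j) a : ℝ) : ℂ) * Complex.exp (-I * (inner ℝ (k j) x : ℝ)) *
    EE 1 (inner ℝ (k j) a)) * h2 + (((inner ℝ (g j) b : ℝ) : ℂ) *
    Complex.exp (-I * (inner ℝ (k j) x : ℝ)) * EE 1 (inner ℝ (k j) b)) * h1

lemma lam_shift (a b x : E3) (j : ι) :
    lam k g a b x j = Complex.exp (-I * (inner ℝ (k j) x : ℝ)) * lam k g a b 0 j := by
  rw [lam_eq, lam_eq a b 0]
  simp

lemma norm_lam (a b x : E3) (j : ι) : ‖lam k g a b x j‖ = ‖lam k g a b 0 j‖ := by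
  rw [lam_shift, norm_mul, Complex.norm_exp]
  simp

lemma norm_lam_eq (a b : E3) (j : ι) :
    ‖lam k g a b 0 j‖ = ‖EE 1 (inner ℝ (k j) a)‖ * ‖EE 1 (inner ℝ (k j) b)‖ *
      |inner ℝ (g j) a * inner ℝ (k j) b - inner ℝ (g j) b * inner ℝ (k j) a| := by
  rw [lam_eq, norm_mul, norm_mul, norm_mul, norm_mul, Complex.norm_exp, Complex.norm_real]
  simp

lemma continuous_lam (a b : E3) : Continuous (lam k g a b) := by
  have : lam k g a b = fun x j => Complex.exp (-I * (inner ℝ (k j) x : ℝ)) * lam k g a b 0 j :=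
    funext fun x => funext fun j => lam_shift a b x j
  rw [this]
  refine continuous_pi fun j => ?_
  fun_prop

/-- `‖U G - G‖` for one segment. -/
noncomputable def DD (k g : ι → E3) (ψ : (ι → ℕ) → E3 → ℂ) (v : E3) : ℝ≥0∞ :=
  nrm (BT (Dop v (fa k g v) ψ))

lemma nrm_loop_le (hp : Parity k g) {ψ : (ι → ℕ) → E3 → ℂ} (h : Nice ψ) (a b : E3) :
    nrm (fun p => gt 0 (lam k g a b) (BT ψ) p - BT ψ p) ≤
      DD k g ψ a + DD k g ψ b + DD k g ψ (-a) + DD k g ψ (-b) := by
  rw [← loop_eq hp]
  have hG : Measurable (BT ψ) := h.toC.continuous_BT.measurable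
  have m := fun v => measurable_seg (k := k) (g := g) v 1
  have hG1 := measurable_gt (-b) (m (-b)) hG
  have hG2 := measurable_gt (-a) (m (-a)) hG1
  have hG3 := measurable_gt b (m b) hG2
  have h1 := nrm_comp_sub a (m a) hG hG3
  have h2 := nrm_comp_sub b (m b) hG hG2
  have h3 := nrm_comp_sub (-a) (m (-a)) hG hG1
  have s := fun v => nrm_seg_le hp h v
  unfold DD
  calc _ ≤ _ := h1
    _ ≤ ((nrm (BT (Dop (-b) (fa k g (-b)) ψ)) + nrm (BT (Dop (-a) (fa k g (-a)) ψ))) +
        nrm (BT (Dop b (fa k g b) ψ))) + nrm (BT (Dop a (fa k g a) ψ)) := by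
        refine add_le_add (h2.trans (add_le_add (h3.trans (add_le_add (s _) (s _))) (s _))) (s _)
    _ = _ := by ring

/-- `N` times the flux amplitude. -/
noncomputable def lamN (k g : ι → E3) (a b c : E3) (N : ℕ) (x : E3) (j : ι) : ℂ :=
  (N : ℂ) * lam k g a b (x + c) j

lemma lamN_mem (a b c x : E3) (N : ℕ) : lamN k g a b c N x ∈ Kr k g := by
  have : lamN k g a b c N x = (N : ℝ) • lam k g a b (x + c) := by
    funext j
    simp [lamN]
  rw [this]
  exact Submodule.smul_mem _ _ (lam_mem _ _ _)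

lemma measurable_lamN (a b c : E3) (N : ℕ) : Measurable (lamN k g a b c N) := by
  have h := continuous_lam (k := k) (g := g) a b
  unfold lamN
  refine Continuous.measurable (continuous_pi fun j => ?_)
  have h2 : Continuous fun x => lam k g a b x j := (continuous_apply j).comp h
  exact continuous_const.mul (h2.comp (by fun_prop))

lemma nrm_loopN_le (hp : Parity k g) {ψ : (ι → ℕ) → E3 → ℂ} (h : Nice ψ) (a b : E3) (N : ℕ) :
    nrm (fun p => gt 0 (lamN k g a b 0 N) (BT ψ) p - BT ψ p) ≤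
      N * (DD k g ψ a + DD k g ψ b + DD k g ψ (-a) + DD k g ψ (-b)) := by
  have hG : Measurable (BT ψ) := h.toC.continuous_BT.measurable
  induction N with
  | zero =>
    have : lamN k g a b 0 0 = fun _ _ => 0 := by funext x j; simp [lamN]
    rw [this, gt_zero]
    simp [nrm]
  | succ N ih =>
    have e1 : gt 0 (lamN k g a b 0 (N + 1)) (BT ψ) =
        gt 0 (lam k g a b) (gt 0 (lamN k g a b 0 N) (BT ψ)) := by
      rw [gt_gt_K hp (fun x => lam_mem _ _ _) (fun x => lamN_mem _ _ _ _ _)]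
      rw [add_zero (0 : E3)]
      congr 1
      funext x j
      simp only [lamN, add_zero]
      push_cast
      ring
    rw [e1]
    have h1 := nrm_comp_sub 0 (measurable_lam (k := k) (g := g) a b) hG
      (measurable_gt 0 (measurable_lamN (k := k) (g := g) a b 0 N) hG)
    refine h1.trans ?_
    have h2 := nrm_loop_le hp h a b
    calc _ ≤ N * (DD k g ψ a + DD k g ψ b + DD k g ψ (-a) + DD k g ψ (-b)) +
          (DD k g ψ a + DD k g ψ b + DD k g ψ (-a) + DD k g ψ (-b)) := add_le_add ih h2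
      _ = _ := by push_cast; ring

lemma transport_eq (hp : Parity k g) (a b c : E3) (N : ℕ) (G : E3 × (ι → ℂ) → ℂ) :
    gt c (seg k g c 1) (gt 0 (lamN k g a b 0 N) (gt (-c) (seg k g (-c) 1) G))
      = gt 0 (lamN k g a b c N) G := by
  have h1 : ∀ x, (fun j => lamN k g a b 0 N x j + seg k g (-c) 1 (x + 0) j) ∈ Kr k g :=
    fun x => Submodule.add_mem _ (lamN_mem _ _ _ _ _) (seg_mem _ _ _)
  rw [gt_gt_K hp (b := 0) (b' := -c) (ζ := lamN k g a b 0 N) (ζ' := seg k g (-c) 1)
      (fun x => lamN_mem _ _ _ _ _) (fun x => seg_mem _ _ _),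
    gt_gt_K hp (b := c) (b' := 0 + -c) (ζ := seg k g c 1) (fun x => seg_mem _ _ _) h1]
  have e1 : c + (0 + -c) = 0 := by abel
  rw [e1]
  congr 1
  funext x j
  simp only [add_zero]
  rw [seg_neg (k := k) (g := g) c x j]
  unfold lamN
  simp

/-- Transported `N`-fold loops almost fix the state. -/
lemma nrm_transport_le (hp : Parity k g) {ψ : (ι → ℕ) → E3 → ℂ} (h : Nice ψ) (a b c : E3)
    (N : ℕ) :
    nrm (fun p => gt 0 (lamN k g a b c N) (BT ψ) p - BT ψ p) ≤
      DD k g ψ c + DD k g ψ (-c) +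
      N * (DD k g ψ a + DD k g ψ b + DD k g ψ (-a) + DD k g ψ (-b)) := by
  have hG : Measurable (BT ψ) := h.toC.continuous_BT.measurable
  have m := fun v => measurable_seg (k := k) (g := g) v 1
  have mN := measurable_lamN (k := k) (g := g) a b 0 N
  rw [← transport_eq hp]
  have hG1 := measurable_gt (-c) (m (-c)) hG
  have hG2 := measurable_gt 0 mN hG1
  have h1 := nrm_comp_sub c (m c) hG hG2
  have h2 : nrm (fun p => gt 0 (lamN k g a b 0 N) (gt (-c) (seg k g (-c) 1) (BT ψ)) p - BT ψ p) ≤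
      nrm (fun p => gt (-c) (seg k g (-c) 1) (BT ψ) p - BT ψ p) +
        nrm (fun p => gt 0 (lamN k g a b 0 N) (BT ψ) p - BT ψ p) := nrm_comp_sub 0 mN hG hG1
  have s := fun v => nrm_seg_le hp h v
  have h3 := nrm_loopN_le hp h a b N
  calc _ ≤ _ := h1
    _ ≤ (DD k g ψ (-c) + N * (DD k g ψ a + DD k g ψ b + DD k g ψ (-a) + DD k g ψ (-b))) +
        DD k g ψ c := add_le_add (h2.trans (add_le_add (s _) h3)) (s _)
    _ = _ := by ring

/-- The restricted flux amplitude. -/
noncomputable def fS (k g : ι → E3) (S : Finset ι) (a b c : E3) (x : E3) (j : ι) : ℂ :=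
  if j ∈ S then lam k g a b (x + c) j else 0

/-- The weight of the restricted flux amplitude. -/
noncomputable def HS (k g : ι → E3) (S : Finset ι) (a b : E3) : ℝ :=
  ∑ j ∈ S, ‖lam k g a b 0 j‖ ^ 2

lemma continuous_fS (S : Finset ι) (a b c : E3) : Continuous (fS k g S a b c) := by
  have h := continuous_lam (k := k) (g := g) a b
  unfold fS
  refine continuous_pi fun j => ?_
  have h2 : Continuous fun x => lam k g a b x j := (continuous_apply j).comp h
  by_cases hj : j ∈ S
  · simp only [hj, if_true]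
    exact h2.comp (by fun_prop)
  · simp only [hj, if_false]
    exact continuous_const

lemma sig_fS (S : Finset ι) (a b c x : E3) (N : ℕ) (s : ℝ) :
    sig (fun j => (s : ℂ) * (I * fS k g S a b c x j)) (lamN k g a b c N x)
      = - (s * N * HS k g S a b) := by
  unfold sig HS
  rw [Finset.mul_sum, ← Finset.sum_neg_distrib, ← Finset.sum_filter_add_sum_filter_not
    Finset.univ (fun j => j ∈ S)]
  have h1 : ∑ j ∈ Finset.univ.filter (fun j => j ∉ S),
      (starRingEnd ℂ ((s : ℂ) * (I * fS k g S a b c x j)) * lamN k g a b c N x j).im = 0 := by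
    refine Finset.sum_eq_zero fun j hj => ?_
    rw [Finset.mem_filter] at hj
    simp [fS, hj.2]
  rw [h1, add_zero]
  have h2 : Finset.univ.filter (fun j => j ∈ S) = S := by ext; simp
  rw [h2]
  refine Finset.sum_congr rfl fun j hj => ?_
  simp only [fS, hj, if_true, lamN]
  have h3 : starRingEnd ℂ ((s : ℂ) * (I * lam k g a b (x + c) j)) * (N * lam k g a b (x + c) j)
      = ((- (s * N) : ℝ) : ℂ) * I * (starRingEnd ℂ (lam k g a b (x + c) j) *
        lam k g a b (x + c) j) := by
    simp only [map_mul, Complex.conj_ofReal, Complex.conj_I]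
    push_cast
    ring
  rw [h3, Complex.conj_mul', norm_lam]
  have h4 : ((- (s * N) : ℝ) : ℂ) * I * (‖lam k g a b 0 j‖ : ℂ) ^ 2
      = ((-(s * N * ‖lam k g a b 0 j‖ ^ 2) : ℝ) : ℂ) * I := by push_cast; ring
  rw [h4, Complex.im_ofReal_mul, Complex.I_im, mul_one]

/-- The **key inequality**. -/
theorem key (hp : Parity k g) {ψ : (ι → ℕ) → E3 → ℂ} (h : Nice ψ) (S : Finset ι) (a b c : E3)
    (N : ℕ) (s : ℝ) (hs : 2 * (s * N * HS k g S a b) = Real.pi) :
    nrm (BT ψ) ≤ DD k g ψ c + DD k g ψ (-c) +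
      N * (DD k g ψ a + DD k g ψ b + DD k g ψ (-a) + DD k g ψ (-b)) +
      nrm (BT (Dop 0 (fun x j => - ((s : ℂ) * (I * fS k g S a b c x j))) ψ)) := by
  have hG : Measurable (BT ψ) := h.toC.continuous_BT.measurable
  have hf := continuous_fS (k := k) (g := g) S a b c
  have hν : Continuous (fun (x : E3) (j : ι) => (s : ℂ) * (I * fS k g S a b c x j)) := by
    refine continuous_pi fun j => ?_
    have : Continuous fun x => fS k g S a b c x j := (continuous_apply j).comp hf
    fun_prop
  have h1 := uncertainty (measurable_lamN (k := k) (g := g) a b c N) hν.measurable (by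
    intro x
    rw [sig_fS]
    have : -I * ((2 * -(s * N * HS k g S a b) : ℝ) : ℂ) = Real.pi * I := by
      rw [← hs]; push_cast; ring
    rw [this, Complex.exp_pi_mul_I]) hG
  refine h1.trans (add_le_add (nrm_transport_le hp h a b c N) ?_)
  have h2 := nrm_gt_sub_le h 0 (g := fun x j => - ((s : ℂ) * (I * fS k g S a b c x j)))
    (ζ := fun t x j => (t : ℂ) * (- ((s : ℂ) * (I * fS k g S a b c x j)))) ?_ ?_ ?_ ?_ ?_
  · simpa using h2
  · exact hν.neg
  · refine continuous_pi fun j => ?_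
    have : Continuous fun x => fS k g S a b c x j := (continuous_apply j).comp hf
    fun_prop
  · intro x
    funext j
    simp
  · intro t x j
    have := ((hasDerivAt_id t).ofReal_comp).mul_const (- ((s : ℂ) * (I * fS k g S a b c x j)))
    simpa using this
  · intro t x
    unfold sig
    refine Finset.sum_eq_zero fun j _ => ?_
    rw [smul_zero, add_zero, map_mul, Complex.conj_ofReal, mul_assoc, Complex.conj_mul',
      ← Complex.ofReal_pow, ← Complex.ofReal_mul, Complex.ofReal_im]

end Pool.Agent.LiebLoss
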