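import Pool.Agent.LiebLoss.Path

/-!
# Straight segments and loops
-/

open MeasureTheory Complex Real
open scoped ENNReal

set_option linter.unusedSectionVars false

namespace Pool.Agent.LiebLoss

variable {ι : Type*} [Fintype ι] [DecidableEq ι]

/-- `E t θ = ∫_0^t exp(-i s θ) ds`. -/
noncomputable def EE (t θ : ℝ) : ℂ := ∫ s in (0:ℝ)..t, Complex.exp (-I * (s * θ : ℝ))

lemma continuous_EEint (θ : ℝ) : Continuous fun s : ℝ => Complex.exp (-I * (s * θ : ℝ)) := by
  fun_prop

lemma hasDerivAt_EE (t θ : ℝ) :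
    HasDerivAt (fun t => EE t θ) (Complex.exp (-I * (t * θ : ℝ))) t :=
  ((continuous_EEint θ).integral_hasStrictDerivAt 0 t).hasDerivAt

lemma EE_zero (θ : ℝ) : EE 0 θ = 0 := by simp [EE]

lemma conj_EE (t θ : ℝ) : starRingEnd ℂ (EE t θ) = EE t (-θ) := by
  unfold EE
  simp only [intervalIntegral, map_sub, ← integral_conj]
  have h : ∀ s : ℝ, starRingEnd ℂ (Complex.exp (-I * (s * θ : ℝ)))
      = Complex.exp (-I * (s * (-θ) : ℝ)) := by
    intro s
    rw [← Complex.exp_conj]
    congr 1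
    simp
  simp_rw [h]

lemma EE_one_neg (θ : ℝ) : Complex.exp (-I * θ) * EE 1 (-θ) = EE 1 θ := by
  unfold EE
  rw [← intervalIntegral.integral_const_mul]
  have h := intervalIntegral.integral_comp_sub_left
    (fun s : ℝ => Complex.exp (-I * (s * θ : ℝ))) (a := 0) (b := 1) 1
  simp only [sub_self, sub_zero] at h
  rw [← h]
  congr 1
  funext s
  rw [← Complex.exp_add]
  congr 1
  push_cast
  ring

/-- `θ E(1,θ) = i (exp(-iθ) - 1)`. -/
lemma theta_mul_EE (θ : ℝ) : I * θ * EE 1 θ = 1 - Complex.exp (-I * θ) := by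
  have h : ∀ t ∈ Set.uIcc (0:ℝ) 1, HasDerivAt (fun s : ℝ => - Complex.exp (-I * (s * θ : ℝ)))
      (I * θ * Complex.exp (-I * (t * θ : ℝ))) t := by
    intro t _
    have h1 : HasDerivAt (fun s : ℝ => -I * ((s * θ : ℝ) : ℂ)) (-I * θ) t := by
      have := (((hasDerivAt_id t).mul_const θ).ofReal_comp).const_mul (-I)
      simpa using this
    have h2 := h1.cexp.neg
    refine h2.congr_deriv ?_
    ring
  have h2 := intervalIntegral.integral_eq_sub_of_hasDerivAt h
    ((by fun_prop : Continuous fun t : ℝ =>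
      I * θ * Complex.exp (-I * (t * θ : ℝ))).intervalIntegrable _ _)
  rw [intervalIntegral.integral_const_mul] at h2
  unfold EE
  rw [h2]
  simp
  ring

lemma norm_EE_sub_one_le (θ : ℝ) : ‖EE 1 θ - 1‖ ≤ |θ| := by
  have h1 : EE 1 θ - 1 = ∫ s in (0:ℝ)..1, (Complex.exp (-I * (s * θ : ℝ)) - 1) := by
    rw [intervalIntegral.integral_sub ((continuous_EEint θ).intervalIntegrable _ _)
      (by simp)]
    simp [EE]
  rw [h1]
  have h2 : ∀ s ∈ Set.uIoc (0:ℝ) 1, ‖Complex.exp (-I * (s * θ : ℝ)) - 1‖ ≤ |θ| := by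
    intro s hs
    rw [Set.uIoc_of_le zero_le_one] at hs
    have h3 : -I * ((s * θ : ℝ) : ℂ) = I * ((-(s * θ) : ℝ) : ℂ) := by push_cast; ring
    rw [h3]
    refine (Real.norm_exp_I_mul_ofReal_sub_one_le).trans ?_
    rw [Real.norm_eq_abs, abs_neg, abs_mul, abs_of_pos hs.1]
    nlinarith [abs_nonneg θ, hs.2]
  have := intervalIntegral.norm_integral_le_of_norm_le_const h2
  simpa using this

lemma norm_EE_le_one (θ : ℝ) : ‖EE 1 θ‖ ≤ 1 := by
  unfold EE
  have h2 : ∀ s ∈ Set.uIoc (0:ℝ) 1, ‖Complex.exp (-I * (s * θ : ℝ))‖ ≤ 1 := by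
    intro s _
    rw [Complex.norm_exp]
    simp
  have := intervalIntegral.norm_integral_le_of_norm_le_const h2
  simpa using this

variable (k g : ι → E3)

/-- Field amplitude of `a · A(y)`. -/
noncomputable def fa (a : E3) (y : E3) (j : ι) : ℂ :=
  ((inner ℝ (g j) a : ℝ) : ℂ) * Complex.exp (-I * (inner ℝ (k j) y : ℝ))

/-- Field amplitude of the line integral from `x` to `x + t a`. -/
noncomputable def seg (a : E3) (t : ℝ) (x : E3) (j : ι) : ℂ :=
  ((inner ℝ (g j) a : ℝ) : ℂ) * (Complex.exp (-I * (inner ℝ (k j) x : ℝ)) *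
    EE t (inner ℝ (k j) a))

/-- The real subspace of amplitudes of commuting fields. -/
noncomputable def Kr : Submodule ℝ (ι → ℂ) := Submodule.span ℝ
  {z | ∃ (p : E3) (F : E3 → ℂ), (∀ y, F (-y) = starRingEnd ℂ (F y)) ∧
    z = fun j => ((inner ℝ (g j) p : ℝ) : ℂ) * F (k j)}

/-- The parity hypothesis on the modes. -/
def Parity : Prop := ∀ (p q : E3) (F : E3 → ℝ), (∀ y, F (-y) = - F y) →
  ∑ j, inner ℝ (g j) p * inner ℝ (g j) q * F (k j) = 0

lemma sig_add_left (z z' w : ι → ℂ) : sig (z + z') w = sig z w + sig z' w := by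
  unfold sig
  rw [← Finset.sum_add_distrib]
  refine Finset.sum_congr rfl fun j _ => ?_
  simp only [Pi.add_apply, map_add, add_mul, Complex.add_im]

lemma sig_add_right (z w w' : ι → ℂ) : sig z (w + w') = sig z w + sig z w' := by
  unfold sig
  rw [← Finset.sum_add_distrib]
  refine Finset.sum_congr rfl fun j _ => ?_
  simp only [Pi.add_apply, mul_add, Complex.add_im]

lemma sig_smul_left (r : ℝ) (z w : ι → ℂ) : sig (r • z) w = r * sig z w := by
  unfold sig
  rw [Finset.mul_sum]
  refine Finset.sum_congr rfl fun j _ => ?_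
  simp; ring

lemma sig_smul_right (r : ℝ) (z w : ι → ℂ) : sig z (r • w) = r * sig z w := by
  unfold sig
  rw [Finset.mul_sum]
  refine Finset.sum_congr rfl fun j _ => ?_
  simp; ring

lemma sig_zero_left (w : ι → ℂ) : sig 0 w = 0 := by simp [sig]
lemma sig_zero_right (w : ι → ℂ) : sig w 0 = 0 := by simp [sig]

variable {k g}

lemma sig_eq_zero (hp : Parity k g) {z z' : ι → ℂ} (hz : z ∈ Kr k g) (hz' : z' ∈ Kr k g) :
    sig z z' = 0 := by
  refine Submodule.span_induction ?_ ?_ ?_ ?_ hz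
  · rintro z ⟨p, F, hF, rfl⟩
    refine Submodule.span_induction ?_ ?_ ?_ ?_ hz'
    · rintro z' ⟨q, F', hF', rfl⟩
      have := hp p q (fun y => (starRingEnd ℂ (F y) * F' y).im) (by
        intro y
        simp only [hF, hF', Complex.conj_conj, Complex.mul_im, Complex.conj_re, Complex.conj_im]
        ring)
      rw [← this]
      unfold sig
      refine Finset.sum_congr rfl fun j _ => ?_
      simp only [map_mul, Complex.conj_ofReal]
      rw [show ((inner ℝ (g j) p : ℝ) : ℂ) * starRingEnd ℂ (F (k j)) *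
        (((inner ℝ (g j) q : ℝ) : ℂ) * F' (k j)) = ((inner ℝ (g j) p * inner ℝ (g j) q : ℝ) : ℂ) *
          (starRingEnd ℂ (F (k j)) * F' (k j)) by push_cast; ring, Complex.im_ofReal_mul]
    · exact sig_zero_right _
    · intro x y _ _ hx hy
      rw [sig_add_right, hx, hy, add_zero]
    · intro r x _ hx
      rw [sig_smul_right, hx, mul_zero]
  · exact sig_zero_left _
  · intro x y _ _ hx hy
    rw [sig_add_left, hx, hy, add_zero]
  · intro r x _ hx
    rw [sig_smul_left, hx, mul_zero]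

lemma fa_mem (a y : E3) : fa k g a y ∈ Kr k g := by
  refine Submodule.subset_span ⟨a, fun q => Complex.exp (-I * (inner ℝ q y : ℝ)), ?_, rfl⟩
  intro q
  rw [← Complex.exp_conj]
  simp

lemma seg_mem (a : E3) (t : ℝ) (x : E3) : seg k g a t x ∈ Kr k g := by
  refine Submodule.subset_span ⟨a, fun q => Complex.exp (-I * (inner ℝ q x : ℝ)) *
    EE t (inner ℝ q a), ?_, rfl⟩
  intro q
  rw [map_mul, ← Complex.exp_conj, conj_EE]
  simp

lemma continuous_fa (a : E3) : Continuous (fa k g a) := by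
  unfold fa
  refine continuous_pi fun j => ?_
  fun_prop

lemma continuous_EE (θ : ℝ) : Continuous fun t => EE t θ :=
  continuous_iff_continuousAt.2 fun t => (hasDerivAt_EE t θ).continuousAt

lemma continuous_seg (a : E3) : Continuous fun q : ℝ × E3 => seg k g a q.1 q.2 := by
  unfold seg
  refine continuous_pi fun j => ?_
  have := continuous_EE (inner ℝ (k j) a)
  fun_prop

lemma measurable_seg (a : E3) (t : ℝ) : Measurable (seg k g a t) :=
  ((continuous_seg a).comp (by fun_prop : Continuous fun x : E3 => (t, x))).measurable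

/-- One segment moves a state by at most the covariant derivative. -/
lemma nrm_seg_le (hp : Parity k g) {ψ : (ι → ℕ) → E3 → ℂ} (h : Nice ψ) (a : E3) :
    nrm (fun p => gt a (seg k g a 1) (BT ψ) p - BT ψ p) ≤ nrm (BT (Dop a (fa k g a) ψ)) := by
  refine nrm_gt_sub_le h a (continuous_fa a) (ζ := seg k g a) (continuous_seg a) ?_ ?_ ?_
  · intro x
    funext j
    simp [seg, EE_zero]
  · intro t x j
    unfold seg fa
    have h1 := ((hasDerivAt_EE t (inner ℝ (k j) a)).const_mul
      (Complex.exp (-I * (inner ℝ (k j) x : ℝ)))).const_mul ((inner ℝ (g j) a : ℝ) : ℂ)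
    refine h1.congr_deriv ?_
    rw [← Complex.exp_add]
    congr 2
    rw [inner_add_right, inner_smul_right]
    push_cast
    ring
  · intro t x
    exact sig_eq_zero hp (seg_mem a t x) (fa_mem a _)

lemma gt_gt_K (hp : Parity k g) {b b' : E3} {ζ ζ' : E3 → ι → ℂ} (h : ∀ x, ζ x ∈ Kr k g)
    (h' : ∀ x, ζ' x ∈ Kr k g) (G : E3 × (ι → ℂ) → ℂ) :
    gt b ζ (gt b' ζ' G) = gt (b + b') (fun x j => ζ x j + ζ' (x + b) j) G := by
  funext p
  rw [gt_gt, sig_eq_zero hp (h _) (h' _)]
  simp

lemma seg_neg (a x : E3) (j : ι) : seg k g (-a) 1 (x + a) j = - seg k g a 1 x j := by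
  unfold seg
  rw [inner_neg_right, inner_neg_right, inner_add_right]
  have h := EE_one_neg (inner ℝ (k j) a)
  rw [← h]
  have h2 : Complex.exp (-I * ((inner ℝ (k j) x + inner ℝ (k j) a : ℝ) : ℂ))
      = Complex.exp (-I * (inner ℝ (k j) x : ℝ)) * Complex.exp (-I * (inner ℝ (k j) a : ℝ)) := by
    rw [← Complex.exp_add]
    congr 1
    push_cast
    ring
  rw [h2]
  push_cast
  ring

/-- Amplitude of the flux through the parallelogram at `x`. -/
noncomputable def lam (k g : ι → E3) (a b : E3) (x : E3) (j : ι) : ℂ :=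
  seg k g a 1 x j - seg k g a 1 (x + b) j + (seg k g b 1 (x + a) j - seg k g b 1 x j)

lemma lam_mem (a b x : E3) : lam k g a b x ∈ Kr k g := by
  have h : lam k g a b x = (seg k g a 1 x - seg k g a 1 (x + b)) +
    (seg k g b 1 (x + a) - seg k g b 1 x) := rfl
  rw [h]
  exact Submodule.add_mem _ (Submodule.sub_mem _ (seg_mem _ _ _) (seg_mem _ _ _))
    (Submodule.sub_mem _ (seg_mem _ _ _) (seg_mem _ _ _))

lemma measurable_lam (a b : E3) : Measurable (lam k g a b) := by
  unfold lam
  refine measurable_pi_lambda _ fun j => ?_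
  have h : ∀ c : E3, Measurable fun x => seg k g c 1 x j := fun c =>
    (measurable_pi_apply j).comp (measurable_seg c 1)
  have h1 := h a
  have h2 := h b
  have h3 : Measurable fun x => seg k g a 1 (x + b) j := h1.comp (measurable_id.add_const b)
  have h4 : Measurable fun x => seg k g b 1 (x + a) j := h2.comp (measurable_id.add_const a)
  exact (h1.sub h3).add (h4.sub h2)

/-- The loop operator is multiplication by the holonomy. -/
lemma loop_eq (hp : Parity k g) (a b : E3) (G : E3 × (ι → ℂ) → ℂ) :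
    gt a (seg k g a 1) (gt b (seg k g b 1) (gt (-a) (seg k g (-a) 1)
      (gt (-b) (seg k g (-b) 1) G))) = gt 0 (lam k g a b) G := by
  have h1 : ∀ x, (fun j => seg k g (-a) 1 x j + seg k g (-b) 1 (x + -a) j) ∈ Kr k g :=
    fun x => Submodule.add_mem _ (seg_mem _ _ _) (seg_mem _ _ _)
  have h2 : ∀ x, (fun j => seg k g b 1 x j + (seg k g (-a) 1 (x + b) j +
      seg k g (-b) 1 (x + b + -a) j)) ∈ Kr k g :=
    fun x => Submodule.add_mem _ (seg_mem _ _ _) (h1 (x + b))
  rw [gt_gt_K hp (b := -a) (b' := -b) (ζ := seg k g (-a) 1) (ζ' := seg k g (-b) 1)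
      (fun x => seg_mem _ _ _) (fun x => seg_mem _ _ _),
    gt_gt_K hp (b := b) (b' := -a + -b) (ζ := seg k g b 1) (fun x => seg_mem _ _ _) h1,
    gt_gt_K hp (b := a) (b' := b + (-a + -b)) (ζ := seg k g a 1) (fun x => seg_mem _ _ _) h2]
  have e1 : a + (b + (-a + -b)) = 0 := by abel
  rw [e1]
  congr 1
  funext x j
  have e2 : x + a + b + -a = x + b := by abel
  have e3 : x + a + b = (x + b) + a := by abel
  rw [e2, seg_neg (k := k) (g := g) b x j, e3, seg_neg (k := k) (g := g) a (x + b) j]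
  unfold lam
  ring

end Pool.Agent.LiebLoss
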