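import Pool.Agent.LiebLoss.Ham

/-!
# The lower bound for the quadratic form
-/

open MeasureTheory Complex Real
open scoped ENNReal ContDiff

set_option linter.unusedSectionVars false

namespace Pool.Agent.LiebLoss

section Generic

variable {ι : Type*} [Fintype ι] [DecidableEq ι] {k g : ι → E3}

lemma vec_eq_sum (v : E3) : v = ∑ i, v i • (EuclideanSpace.single i (1:ℝ) : E3) := by
  ext l
  simp [Pi.single_apply]

lemma fa_linear (v x : E3) (j : ι) :
    fa k g v x j = ∑ i, (v i : ℂ) * fa k g (EuclideanSpace.single i 1) x j := by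
  unfold fa
  have h2 : (inner ℝ (g j) v : ℝ) = ∑ i, v i * inner ℝ (g j) (EuclideanSpace.single i (1:ℝ)) := by
    conv_lhs => rw [vec_eq_sum v, inner_sum]
    refine Finset.sum_congr rfl fun i _ => ?_
    rw [real_inner_smul_right]
  rw [h2]
  push_cast
  rw [Finset.sum_mul]
  refine Finset.sum_congr rfl fun i _ => by ring

lemma Dop_linear (ψ : (ι → ℕ) → E3 → ℂ) (v : E3) (n : ι → ℕ) (x : E3) :
    Dop v (fa k g v) ψ n x = ∑ i, (v i : ℂ) * Dop (EuclideanSpace.single i 1)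
      (fa k g (EuclideanSpace.single i 1)) ψ n x := by
  have hA : fderiv ℝ (ψ n) x v = ∑ i, (v i : ℂ) * fderiv ℝ (ψ n) x (EuclideanSpace.single i 1) := by
    conv_lhs => rw [vec_eq_sum v, map_sum]
    refine Finset.sum_congr rfl fun i _ => ?_
    rw [map_smul]
    simp
  have hB : ∑ j, (starRingEnd ℂ (fa k g v x j) * an j (fun m => ψ m x) n +
      fa k g v x j * cr j (fun m => ψ m x) n) = ∑ i, (v i : ℂ) * ∑ j, (starRingEnd ℂ
        (fa k g (EuclideanSpace.single i 1) x j) * an j (fun m => ψ m x) n +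
        fa k g (EuclideanSpace.single i 1) x j * cr j (fun m => ψ m x) n) := by
    simp_rw [Finset.mul_sum]
    rw [Finset.sum_comm]
    refine Finset.sum_congr rfl fun j _ => ?_
    rw [fa_linear v x j, map_sum, Finset.sum_mul, Finset.sum_mul, ← Finset.sum_add_distrib]
    refine Finset.sum_congr rfl fun i _ => ?_
    rw [map_mul, Complex.conj_ofReal]
    ring
  unfold Dop
  rw [hA, hB, Finset.mul_sum, ← Finset.sum_add_distrib]
  refine Finset.sum_congr rfl fun i _ => by ring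

lemma BT_linear {ψ : (ι → ℕ) → E3 → ℂ} (h : Nice ψ) (v : E3) (p : E3 × (ι → ℂ)) :
    BT (Dop v (fa k g v) ψ) p = ∑ i, (v i : ℂ) * BT (Dop (EuclideanSpace.single i 1)
      (fa k g (EuclideanSpace.single i 1)) ψ) p := by
  unfold BT
  have e1 : (fun n => Dop v (fa k g v) ψ n p.1) = fun n => ∑ i, (v i : ℂ) *
      Dop (EuclideanSpace.single i 1) (fa k g (EuclideanSpace.single i 1)) ψ n p.1 :=
    funext fun n => Dop_linear ψ v n p.1
  have hfs : ∀ i, FS (fun n => Dop (EuclideanSpace.single i 1)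
      (fa k g (EuclideanSpace.single i 1)) ψ n p.1) := by
    intro i
    obtain ⟨S, hS⟩ := (Dop_niceC h (EuclideanSpace.single i 1)
      (continuous_fa (k := k) (g := g) (EuclideanSpace.single i 1))).fin
    exact fs_of (S := S) fun n hn => by rw [hS n hn]; rfl
  rw [e1, bt_sum _ fun i _ => (hfs i).mul_left _]
  refine Finset.sum_congr rfl fun i _ => ?_
  rw [bt_mul_left]

lemma DD_le {ψ : (ι → ℕ) → E3 → ℂ} (h : Nice ψ) (v : E3) :
    DD k g ψ v ≤ ∑ i, ENNReal.ofReal |v i| * DD k g ψ (EuclideanSpace.single i 1) := by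
  unfold DD nrm
  have e1 : BT (Dop v (fa k g v) ψ) = fun p => ∑ i, (v i : ℂ) * BT (Dop (EuclideanSpace.single i 1)
      (fa k g (EuclideanSpace.single i 1)) ψ) p := funext fun p => BT_linear h v p
  have hm : ∀ i, Measurable (BT (Dop (EuclideanSpace.single i 1)
      (fa k g (EuclideanSpace.single i 1)) ψ)) := fun i =>
    (Dop_niceC h _ (continuous_fa _)).continuous_BT.measurable
  rw [e1]
  have e2 : (fun p => ∑ i, (v i : ℂ) * BT (Dop (EuclideanSpace.single i 1)
      (fa k g (EuclideanSpace.single i 1)) ψ) p) = ∑ i, (v i : ℂ) •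
        BT (Dop (EuclideanSpace.single i 1) (fa k g (EuclideanSpace.single i 1)) ψ) := by
    funext p
    simp
  rw [e2]
  refine (eLpNorm_sum_le (fun i _ => ((hm i).aestronglyMeasurable.const_smul _))
    (by norm_num)).trans (le_of_eq ?_)
  refine Finset.sum_congr rfl fun i _ => ?_
  rw [eLpNorm_const_smul]
  congr 1
  rw [← ofReal_norm, Complex.norm_real, Real.norm_eq_abs]

end Generic

variable {α L Λ : ℝ} {ε : (Fin 3 → ℤ) → Fin 2 → E3}

lemma nsq_Dop_single {ψ : (Mode L Λ → ℕ) → E3 → ℂ} (i : Fin 3) :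
    nsq (Dop (EuclideanSpace.single i 1) (fa (kvec L Λ) (gvec α L Λ ε)
      (EuclideanSpace.single i 1)) ψ) = nsq (vel α L Λ ε i ψ) := by
  unfold nsq
  refine lintegral_congr fun x => tsum_congr fun n => ?_
  rw [Dop_single, enorm_mul]
  have : ‖I‖ₑ = 1 := by rw [← ofReal_norm, Complex.norm_I]; simp
  rw [this, one_mul]

lemma DD_single_sq {ψ : (Mode L Λ → ℕ) → E3 → ℂ} (h : St ψ) (i : Fin 3) :
    DD (kvec L Λ) (gvec α L Λ ε) ψ (EuclideanSpace.single i 1) ^ 2 = nsq (vel α L Λ ε i ψ) := by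
  unfold DD
  rw [(Dop_niceC h.nice _ (continuous_fa _)).nrm_sq_eq, nsq_Dop_single]

lemma DD_single_le {ψ : (Mode L Λ → ℕ) → E3 → ℂ} (h : St ψ) {δ : ℝ} (hδ : 0 ≤ δ)
    (h2 : ∑ i, (nsq (vel α L Λ ε i ψ)).toReal ≤ δ ^ 2) (i : Fin 3) :
    DD (kvec L Λ) (gvec α L Λ ε) ψ (EuclideanSpace.single i 1) ≤ ENNReal.ofReal δ := by
  have h1 := DD_single_sq (α := α) (ε := ε) h i
  have hfin := (h.vel (α := α) (ε := ε) i).cs.inner_self.1
  have h3 : nsq (vel α L Λ ε i ψ) ≤ ENNReal.ofReal (δ ^ 2) := by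
    rw [← ENNReal.ofReal_toReal hfin]
    refine ENNReal.ofReal_le_ofReal (le_trans ?_ h2)
    exact Finset.single_le_sum (f := fun i => (nsq (vel α L Λ ε i ψ)).toReal)
      (fun _ _ => ENNReal.toReal_nonneg) (Finset.mem_univ i)
  rw [← h1, ENNReal.ofReal_pow hδ] at h3
  exact (ENNReal.pow_le_pow_left_iff (by norm_num)).1 h3

/-- The dichotomy: either the kinetic energy or the field energy is large. -/
theorem dichotomy (hα : 0 < α) (hL : 0 < L) (hΛ : 0 < Λ) (hε : IsPolarisation L Λ ε)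
    {ψ : (Mode L Λ → ℕ) → E3 → ℂ} (h : St ψ) {N : ℕ} (hN : 1 ≤ N)
    (hX : 2 ≤ L * Λ / (16 * Real.pi)) (hNL : (N : ℝ) ≤ L * Λ)
    (hbig : 4 * Real.pi ^ 2 ≤ N ^ 2 * (81 * α / (8192 * (32 * Real.pi) ^ 3))) :
    min (Λ ^ 2 / (800 * N ^ 2)) (α * Λ * N ^ 5 * ((81 / (8192 * (32 * Real.pi) ^ 3)) ^ 2 /
      (256 * Real.pi ^ 2))) * (nsq ψ).toReal ≤ 1 / 2 * ∑ i, (nsq (vel α L Λ ε i ψ)).toReal +
      ∑ j : Mode L Λ, ‖wave L j.1‖ * (nsq (ann j ψ)).toReal := by
  have hpi := Real.pi_pos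
  have hN0 : (0:ℝ) < N := by exact_mod_cast hN
  have hP0 : 0 ≤ (nsq ψ).toReal := ENNReal.toReal_nonneg
  have hK0 : 0 ≤ ∑ i, (nsq (vel α L Λ ε i ψ)).toReal :=
    Finset.sum_nonneg fun _ _ => ENNReal.toReal_nonneg
  have hF0 : 0 ≤ ∑ j : Mode L Λ, ‖wave L j.1‖ * (nsq (ann j ψ)).toReal :=
    Finset.sum_nonneg fun _ _ => mul_nonneg (norm_nonneg _) ENNReal.toReal_nonneg
  set P : ℝ := √((nsq ψ).toReal) with hP
  have hPsq : P ^ 2 = (nsq ψ).toReal := Real.sq_sqrt hP0
  have hPn : 0 ≤ P := Real.sqrt_nonneg _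
  have hfin := h.cs.inner_self.1
  set δ : ℝ := Λ * P / (20 * N) with hδ
  have hδ0 : 0 ≤ δ := by positivity
  by_cases hcase : ∑ i, (nsq (vel α L Λ ε i ψ)).toReal ≤ δ ^ 2
  · -- field energy is large
    have hLΛ : 0 < L * Λ := by positivity
    set M : ℕ := ⌈L * Λ⌉₊ with hM
    have hM1 : L * Λ ≤ M := Nat.le_ceil _
    have hLΛ1 : 1 ≤ L * Λ := by
      rw [le_div_iff₀ (by positivity)] at hX
      nlinarith [Real.pi_gt_three]
    have hM2 : (M : ℝ) ≤ 2 * (L * Λ) := by
      have := (Nat.ceil_lt_add_one hLΛ.le).le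
      linarith
    have hNM : N ≤ M := by
      have : (N : ℝ) ≤ M := hNL.trans hM1
      exact_mod_cast this
    have hM0 : 0 < M := lt_of_lt_of_le hN hNM
    have hMr : (0:ℝ) < M := by exact_mod_cast hM0
    have hHlow := HS_lower hα hL hΛ hε hX
    set H := HS (kvec L Λ) (gvec α L Λ ε) (SB L Λ) (sa Λ) (sb Λ) with hH
    have hH0 : 0 < H := lt_of_lt_of_le (by positivity) hHlow
    have hDs := DD_single_le (α := α) (ε := ε) h hδ0 hcase
    have hDv : ∀ (v : E3) (r : ℝ), 0 ≤ r → (∑ i, |v i| ≤ r) →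
        DD (kvec L Λ) (gvec α L Λ ε) ψ v ≤ ENNReal.ofReal (r * δ) := by
      intro v r hr hv
      refine (DD_le h.nice v).trans ?_
      calc ∑ i, ENNReal.ofReal |v i| * DD (kvec L Λ) (gvec α L Λ ε) ψ (EuclideanSpace.single i 1)
          ≤ ∑ i, ENNReal.ofReal |v i| * ENNReal.ofReal δ :=
            Finset.sum_le_sum fun i _ => mul_le_mul_right (hDs i) _
        _ = ENNReal.ofReal ((∑ i, |v i|) * δ) := by
            rw [← Finset.sum_mul, ENNReal.ofReal_mul (Finset.sum_nonneg fun _ _ => abs_nonneg _),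
              ENNReal.ofReal_sum_of_nonneg fun _ _ => abs_nonneg _]
        _ ≤ _ := by
            apply ENNReal.ofReal_le_ofReal
            gcongr
    have hsa : ∑ i, |(sa Λ) i| ≤ 1 / Λ := by
      rw [Fin.sum_univ_three]
      simp [sa, abs_of_pos hΛ]
    have hsb : ∑ i, |(sb Λ) i| ≤ 1 / Λ := by
      rw [Fin.sum_univ_three]
      simp [sb, abs_of_pos hΛ]
    have hneg : ∀ v : E3, ∑ i, |(-v) i| = ∑ i, |v i| := fun v =>
      Finset.sum_congr rfl fun i _ => by rw [PiLp.neg_apply, abs_neg]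
    have hc : ∀ c ∈ CN L M N, ∑ i, |c i| ≤ 3 * (N / Λ) := by
      intro c hc
      unfold CN at hc
      obtain ⟨l, hl, rfl⟩ := Finset.mem_image.1 hc
      rw [Fintype.mem_piFinset] at hl
      have h1 : ∀ i, |pos L M l i| ≤ N / Λ := by
        intro i
        have h2 : (l i : ℝ) ≤ N := by exact_mod_cast (Finset.mem_range.1 (hl i)).le
        rw [pos_apply, abs_of_nonneg (by positivity)]
        have h3 : L / M ≤ 1 / Λ := by
          rw [div_le_div_iff₀ hMr hΛ]
          linarith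
        calc L / M * (l i : ℝ) ≤ 1 / Λ * N := by gcongr
          _ = N / Λ := by ring
      calc ∑ i, |pos L M l i| ≤ ∑ _i : Fin 3, (N / Λ : ℝ) := Finset.sum_le_sum fun i _ => h1 i
        _ = _ := by simp
    have hPnrm : nrm (BT ψ) = ENNReal.ofReal P := by
      have h1 : nrm (BT ψ) ^ 2 = ENNReal.ofReal P ^ 2 := by
        rw [h.cs.niceC.nrm_sq_eq, ← ENNReal.ofReal_pow hPn, hPsq, ENNReal.ofReal_toReal hfin]
      exact le_antisymm ((ENNReal.pow_le_pow_left_iff two_ne_zero).1 h1.le)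
        ((ENNReal.pow_le_pow_left_iff two_ne_zero).1 h1.ge)
    have hLb : ∀ c ∈ CN L M N, DD (kvec L Λ) (gvec α L Λ ε) ψ c +
        DD (kvec L Λ) (gvec α L Λ ε) ψ (-c) +
        N * (DD (kvec L Λ) (gvec α L Λ ε) ψ (sa Λ) + DD (kvec L Λ) (gvec α L Λ ε) ψ (sb Λ) +
          DD (kvec L Λ) (gvec α L Λ ε) ψ (-sa Λ) + DD (kvec L Λ) (gvec α L Λ ε) ψ (-sb Λ))
        ≤ nrm (BT ψ) / 2 := by
      intro c hcc
      have d1 := hDv c (3 * (N / Λ)) (by positivity) (hc c hcc)
      have d2 := hDv (-c) (3 * (N / Λ)) (by positivity) (by rw [hneg]; exact hc c hcc)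
      have d3 := hDv (sa Λ) (1 / Λ) (by positivity) hsa
      have d4 := hDv (sb Λ) (1 / Λ) (by positivity) hsb
      have d5 := hDv (-sa Λ) (1 / Λ) (by positivity) (by rw [hneg]; exact hsa)
      have d6 := hDv (-sb Λ) (1 / Λ) (by positivity) (by rw [hneg]; exact hsb)
      calc _ ≤ ENNReal.ofReal (3 * (N / Λ) * δ) + ENNReal.ofReal (3 * (N / Λ) * δ) +
            N * (ENNReal.ofReal (1 / Λ * δ) + ENNReal.ofReal (1 / Λ * δ) +
            ENNReal.ofReal (1 / Λ * δ) + ENNReal.ofReal (1 / Λ * δ)) := by gcongr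
        _ = ENNReal.ofReal (10 * N / Λ * δ) := by
            have h0 : (0:ℝ) ≤ 1 / Λ * δ := by positivity
            have h00 : (0:ℝ) ≤ 3 * (N / Λ) * δ := by positivity
            rw [← ENNReal.ofReal_natCast, ← ENNReal.ofReal_add h00 h00, ← ENNReal.ofReal_add h0 h0,
              ← ENNReal.ofReal_add (by positivity) h0, ← ENNReal.ofReal_add (by positivity) h0,
              ← ENNReal.ofReal_mul (by positivity), ← ENNReal.ofReal_add (by positivity)
                (by positivity)]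
            congr 1
            ring
        _ = nrm (BT ψ) / 2 := by
            rw [hPnrm, hδ]
            have : ENNReal.ofReal P / 2 = ENNReal.ofReal (P / 2) := by
              rw [ENNReal.ofReal_div_of_pos (by norm_num)]; simp
            rw [this]
            congr 1
            field_simp
            ring
    have hfe := field_energy_ge (parity hL hε) h.nice hfin
      (fun j => (h.cs.ann j).inner_self.1) (SB L Λ) (sa Λ) (sb Λ) (CN L M N)
      (by positivity : (0:ℝ) < 4 * α) (bessel_box hα hL hΛ hε hM1 hM2 hNM) N hN hH0 hLb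
      (hbig.trans (by gcongr))
    rw [card_CN hL hM0] at hfe
    have hS : Λ / 8 * ∑ j ∈ SB L Λ, (nsq (anS j ψ)).toReal ≤
        ∑ j : Mode L Λ, ‖wave L j.1‖ * (nsq (ann j ψ)).toReal := by
      rw [Finset.mul_sum]
      refine (Finset.sum_le_sum fun j hj => ?_).trans (Finset.sum_le_sum_of_subset_of_nonneg
        (Finset.subset_univ (SB L Λ)) fun _ _ _ => mul_nonneg (norm_nonneg _)
          ENNReal.toReal_nonneg)
      have hj' : (j.1 : Fin 3 → ℤ) ∈ box L Λ := (Finset.mem_filter.1 hj).2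
      have : anS j ψ = ann j ψ := rfl
      rw [this]
      exact mul_le_mul_of_nonneg_right (box_bounds hΛ hj').1 ENNReal.toReal_nonneg
    have h1 : α * Λ * N ^ 5 * ((81 / (8192 * (32 * Real.pi) ^ 3)) ^ 2 / (256 * Real.pi ^ 2)) *
        (nsq ψ).toReal ≤ Λ / 8 * ∑ j ∈ SB L Λ, (nsq (anS j ψ)).toReal := by
      refine le_trans ?_ (mul_le_mul_of_nonneg_left hfe (by positivity))
      have h2 : α * Λ * N ^ 5 * ((81 / (8192 * (32 * Real.pi) ^ 3)) ^ 2 / (256 * Real.pi ^ 2)) *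
          (nsq ψ).toReal = Λ / 8 * (((N ^ 3 : ℕ) : ℝ) * (N ^ 2 *
          (81 * α / (8192 * (32 * Real.pi) ^ 3)) ^ 2 / (8 * Real.pi ^ 2 * (4 * α))) *
            (nsq ψ).toReal) := by
        push_cast
        field_simp
        ring
      rw [h2]
      gcongr
    calc _ ≤ α * Λ * N ^ 5 * ((81 / (8192 * (32 * Real.pi) ^ 3)) ^ 2 / (256 * Real.pi ^ 2)) *
        (nsq ψ).toReal := mul_le_mul_of_nonneg_right (min_le_right _ _) hP0
      _ ≤ _ := h1
      _ ≤ _ := hS
      _ ≤ _ := by linarith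
  · push Not at hcase
    calc _ ≤ Λ ^ 2 / (800 * N ^ 2) * (nsq ψ).toReal :=
          mul_le_mul_of_nonneg_right (min_le_left _ _) hP0
      _ = 1 / 2 * δ ^ 2 := by
          rw [hδ, ← hPsq]; field_simp; ring
      _ ≤ _ := by linarith

end Pool.Agent.LiebLoss
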