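import Mathlib

/-!
# A discrete Parseval identity on `(ℤ/M)³`
-/

open Complex

namespace Pool.Agent.LiebLoss

lemma geom_exp (M : ℕ) (hM : 0 < M) (d : ℤ) (hd : ¬ (M : ℤ) ∣ d) :
    ∑ t ∈ Finset.range M, Complex.exp (2 * Real.pi * I * (d * t / M)) = 0 := by
  set z : ℂ := Complex.exp (2 * Real.pi * I * (d / M)) with hz
  have hM0 : (M : ℂ) ≠ 0 := by exact_mod_cast hM.ne'
  have e1 : ∀ t : ℕ, Complex.exp (2 * Real.pi * I * (d * t / M)) = z ^ t := by
    intro t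
    rw [hz, ← Complex.exp_nat_mul]
    congr 1
    ring
  simp_rw [e1]
  have hz1 : z ≠ 1 := by
    intro h
    rw [hz, Complex.exp_eq_one_iff] at h
    obtain ⟨n, hn⟩ := h
    apply hd
    have hpi : (2 * Real.pi * I : ℂ) ≠ 0 := by simp [Real.pi_ne_zero]
    have h2 : (d : ℂ) / M = n := by
      apply mul_left_cancel₀ hpi
      rw [hn]; ring
    have h3 : (d : ℂ) = n * M := by
      field_simp at h2
      rw [h2, mul_comm]
    exact ⟨n, by
      have : d = n * M := by exact_mod_cast h3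
      rw [this, mul_comm]⟩
  have hzM : z ^ M = 1 := by
    rw [hz, ← Complex.exp_nat_mul, Complex.exp_eq_one_iff]
    exact ⟨d, by field_simp⟩
  have h := geom_sum_mul z M
  rw [hzM, sub_self] at h
  exact (mul_eq_zero.1 h).resolve_right (sub_ne_zero.2 hz1)

/-- The character of the integer vector `m` at the grid point `l / M`. -/
noncomputable def chi (M : ℕ) (m : Fin 3 → ℤ) (l : Fin 3 → ℕ) : ℂ :=
  Complex.exp (2 * Real.pi * I * (∑ i, (m i : ℂ) * l i / M))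

lemma chi_eq_prod (M : ℕ) (m : Fin 3 → ℤ) (l : Fin 3 → ℕ) :
    chi M m l = ∏ i, Complex.exp (2 * Real.pi * I * ((m i : ℂ) * l i / M)) := by
  unfold chi
  rw [Finset.mul_sum, Complex.exp_sum]

lemma conj_chi_mul (M : ℕ) (m m' : Fin 3 → ℤ) (l : Fin 3 → ℕ) :
    chi M m l * starRingEnd ℂ (chi M m' l) = chi M (m - m') l := by
  unfold chi
  rw [← Complex.exp_conj, ← Complex.exp_add]
  congr 1
  simp only [map_mul, map_sum, map_div₀, Complex.conj_ofReal, Complex.conj_I, map_ofNat,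
    map_intCast, map_natCast, Pi.sub_apply, Int.cast_sub]
  rw [Finset.mul_sum, Finset.mul_sum, Finset.mul_sum, ← Finset.sum_add_distrib]
  refine Finset.sum_congr rfl fun i _ => by ring

lemma sum_chi (M : ℕ) (hM : 0 < M) (d : Fin 3 → ℤ) (hd : d ≠ 0 → ∃ i, ¬ (M : ℤ) ∣ d i) :
    ∑ l ∈ Fintype.piFinset (fun _ : Fin 3 => Finset.range M), chi M d l
      = if d = 0 then (M : ℂ) ^ 3 else 0 := by
  simp_rw [chi_eq_prod]
  rw [← Finset.prod_univ_sum (fun _ : Fin 3 => Finset.range M)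
    (fun i t => Complex.exp (2 * Real.pi * I * ((d i : ℂ) * t / M)))]
  split_ifs with h
  · subst h
    simp
  · obtain ⟨i, hi⟩ := hd h
    exact Finset.prod_eq_zero (Finset.mem_univ i) (geom_exp M hM (d i) hi)

/-- Discrete Parseval identity. -/
lemma parseval (M : ℕ) (hM : 0 < M) (T : Finset (Fin 3 → ℤ))
    (hT : ∀ m ∈ T, ∀ m' ∈ T, m ≠ m' → ∃ i, ¬ (M : ℤ) ∣ (m i - m' i)) (G : (Fin 3 → ℤ) → ℂ) :
    ∑ l ∈ Fintype.piFinset (fun _ : Fin 3 => Finset.range M), ‖∑ m ∈ T, chi M m l * G m‖ ^ 2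
      = M ^ 3 * ∑ m ∈ T, ‖G m‖ ^ 2 := by
  have h1 : ∀ l : Fin 3 → ℕ, ((‖∑ m ∈ T, chi M m l * G m‖ ^ 2 : ℝ) : ℂ)
      = ∑ m ∈ T, ∑ m' ∈ T, chi M (m - m') l * (G m * starRingEnd ℂ (G m')) := by
    intro l
    have : ((‖∑ m ∈ T, chi M m l * G m‖ ^ 2 : ℝ) : ℂ) = (∑ m ∈ T, chi M m l * G m) *
        starRingEnd ℂ (∑ m ∈ T, chi M m l * G m) := by
      rw [Complex.mul_conj']; push_cast; rfl
    rw [this, map_sum, Finset.sum_mul_sum]
    refine Finset.sum_congr rfl fun m _ => Finset.sum_congr rfl fun m' _ => ?_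
    rw [← conj_chi_mul, map_mul]
    ring
  have h2 : ((∑ l ∈ Fintype.piFinset (fun _ : Fin 3 => Finset.range M),
      ‖∑ m ∈ T, chi M m l * G m‖ ^ 2 : ℝ) : ℂ) = ((M ^ 3 * ∑ m ∈ T, ‖G m‖ ^ 2 : ℝ) : ℂ) := by
    rw [Complex.ofReal_sum]
    simp_rw [h1]
    rw [Finset.sum_comm]
    have h3 : ∀ m ∈ T, ∑ l ∈ Fintype.piFinset (fun _ : Fin 3 => Finset.range M),
        ∑ m' ∈ T, chi M (m - m') l * (G m * starRingEnd ℂ (G m'))
        = (M : ℂ) ^ 3 * (G m * starRingEnd ℂ (G m)) := by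
      intro m hm
      rw [Finset.sum_comm]
      have h4 : ∀ m' ∈ T, ∑ l ∈ Fintype.piFinset (fun _ : Fin 3 => Finset.range M),
          chi M (m - m') l * (G m * starRingEnd ℂ (G m'))
          = if m = m' then (M : ℂ) ^ 3 * (G m * starRingEnd ℂ (G m')) else 0 := by
        intro m' hm'
        rw [← Finset.sum_mul, sum_chi M hM (m - m') (fun h => hT m hm m' hm' (sub_ne_zero.1 h))]
        by_cases h : m = m'
        · rw [if_pos h, if_pos (sub_eq_zero.2 h)]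
        · rw [if_neg h, if_neg (fun hc => h (sub_eq_zero.1 hc)), zero_mul]
      rw [Finset.sum_congr rfl h4, Finset.sum_ite_eq T m, if_pos hm]
    rw [Finset.sum_congr rfl h3, ← Finset.mul_sum]
    push_cast
    congr 1
    refine Finset.sum_congr rfl fun m _ => ?_
    rw [Complex.mul_conj']
  exact_mod_cast h2

end Pool.Agent.LiebLoss
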