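import Pool.Agent.LiebLoss.Sum
import Pool.Agent.LiebLoss.Parseval

/-!
# The photon modes
-/

open MeasureTheory Complex Real
open scoped ENNReal

set_option linter.unusedSectionVars false

namespace Pool.Agent.LiebLoss

lemma wave_neg (L : ℝ) (m : Fin 3 → ℤ) : wave L (-m) = - wave L m := by
  ext i
  simp [wave]

lemma wave_apply (L : ℝ) (m : Fin 3 → ℤ) (i : Fin 3) : wave L m i = 2 * Real.pi / L * m i := rfl

lemma finite_modes {L : ℝ} (hL : 0 < L) (Λ : ℝ) :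
    {m : Fin 3 → ℤ | m ≠ 0 ∧ ‖wave L m‖ < Λ}.Finite := by
  have hpi := Real.pi_pos
  set R : ℤ := ⌈L * Λ / (2 * Real.pi)⌉ with hR
  refine (Set.finite_Icc (fun _ : Fin 3 => -R) (fun _ => R)).subset ?_
  rintro m ⟨_, hm⟩
  have h1 : ∀ i, |(m i : ℝ)| ≤ R := by
    intro i
    have h2 : ‖wave L m i‖ ≤ ‖wave L m‖ := PiLp.norm_apply_le _ i
    rw [wave_apply, Real.norm_eq_abs, abs_mul, abs_of_pos (by positivity)] at h2
    have h3 : 2 * Real.pi / L * |(m i : ℝ)| < Λ := h2.trans_lt hm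
    have h4 : |(m i : ℝ)| < L * Λ / (2 * Real.pi) := by
      rw [lt_div_iff₀ (by positivity)]
      rw [div_mul_eq_mul_div, div_lt_iff₀ hL] at h3
      linarith
    exact h4.le.trans (Int.le_ceil _)
  constructor
  · intro i
    have := (abs_le.1 (h1 i)).1
    exact_mod_cast this
  · intro i
    have := (abs_le.1 (h1 i)).2
    exact_mod_cast this

lemma mem_modeSet {L : ℝ} (hL : 0 < L) (Λ : ℝ) (m : Fin 3 → ℤ) :
    m ∈ modeSet L Λ ↔ m ≠ 0 ∧ ‖wave L m‖ < Λ := by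
  unfold modeSet
  rw [dif_pos (finite_modes hL Λ), Set.Finite.mem_toFinset]
  rfl

lemma wave_ne_zero {L : ℝ} (hL : 0 < L) {m : Fin 3 → ℤ} (hm : m ≠ 0) : wave L m ≠ 0 := by
  intro h
  apply hm
  funext i
  have h2 := congrArg (fun v : E3 => v i) h
  simp only [wave_apply, PiLp.zero_apply, mul_eq_zero, div_eq_zero_iff] at h2
  have hpi := Real.pi_ne_zero
  rcases h2 with (h2 | h2) | h2
  · rcases h2 with h2 | h2
    · norm_num at h2
    · exact absurd h2 hpi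
  · exact absurd h2 hL.ne'
  · exact_mod_cast h2

/-- Completeness of the polarisation vectors. -/
lemma completeness {κ : E3} (hκ : κ ≠ 0) {e : Fin 2 → E3} (he : Orthonormal ℝ e)
    (hκe : ∀ l, inner ℝ κ (e l) = 0) (p q : E3) :
    ∑ l, inner ℝ (e l) p * inner ℝ (e l) q
      = inner ℝ p q - inner ℝ κ p * inner ℝ κ q / ‖κ‖ ^ 2 := by
  have hn : ‖κ‖ ≠ 0 := norm_ne_zero_iff.2 hκ
  set v : Fin 3 → E3 := ![e 0, e 1, (‖κ‖⁻¹ : ℝ) • κ] with hv
  have h00 : inner ℝ (e 0) (e 0) = (1:ℝ) := by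
    rw [real_inner_self_eq_norm_sq, he.1 0]; norm_num
  have h11 : inner ℝ (e 1) (e 1) = (1:ℝ) := by
    rw [real_inner_self_eq_norm_sq, he.1 1]; norm_num
  have h01 : inner ℝ (e 0) (e 1) = (0:ℝ) := he.2 (by decide)
  have h10 : inner ℝ (e 1) (e 0) = (0:ℝ) := he.2 (by decide)
  have hk0 := hκe 0
  have hk1 := hκe 1
  have h0k : inner ℝ (e 0) κ = (0:ℝ) := by rw [real_inner_comm]; exact hk0
  have h1k : inner ℝ (e 1) κ = (0:ℝ) := by rw [real_inner_comm]; exact hk1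
  have hkk : inner ℝ κ κ = ‖κ‖ ^ 2 := real_inner_self_eq_norm_sq κ
  have hnk : ‖(‖κ‖⁻¹ : ℝ) • κ‖ = 1 := by
    rw [norm_smul, norm_inv, norm_norm, inv_mul_cancel₀ hn]
  have v0 : v 0 = e 0 := rfl
  have v1 : v 1 = e 1 := rfl
  have v2 : v 2 = (‖κ‖⁻¹ : ℝ) • κ := rfl
  have hon : Orthonormal ℝ v := by
    rw [orthonormal_iff_ite]
    intro i j
    fin_cases i <;> fin_cases j <;>
      simp [hv, inner_smul_left, inner_smul_right, h01, h10, hk0, hk1, h0k, h1k,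
        he.1 0, he.1 1, hnk]
  have hcard : Fintype.card (Fin 3) = Module.finrank ℝ E3 := by simp
  let b := OrthonormalBasis.mk hon (by
    have := (basisOfOrthonormalOfCardEqFinrank hon hcard).span_eq
    rw [coe_basisOfOrthonormalOfCardEqFinrank] at this
    rw [this])
  have hb : ∀ i, b i = v i := fun i => by simp [b]
  have h := b.sum_inner_mul_inner p q
  rw [Fin.sum_univ_three, hb, hb, hb, v0, v1, v2, inner_smul_left, inner_smul_right] at h
  rw [Fin.sum_univ_two, ← h, real_inner_comm p (e 0), real_inner_comm p (e 1),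
    real_inner_comm p κ]
  simp only [conj_trivial]
  field_simp
  ring

variable (α L Λ : ℝ) (ε : (Fin 3 → ℤ) → Fin 2 → E3)

/-- The wave vectors as a family over the modes. -/
noncomputable def kvec (j : Mode L Λ) : E3 := wave L j.1

/-- The scalar coupling of a wave vector. -/
noncomputable def cpl (m : Fin 3 → ℤ) : ℝ :=
  √α * ((2 * L ^ 3 : ℝ) ^ (-1 / 2 : ℝ) * ‖wave L m‖ ^ (-1 / 2 : ℝ))

/-- The coupling vectors. -/
noncomputable def gvec (j : Mode L Λ) : E3 := cpl α L j.1 • ε j.1 j.2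

variable {α L Λ ε}

lemma cpl_neg (m : Fin 3 → ℤ) : cpl α L (-m) = cpl α L m := by
  unfold cpl
  rw [wave_neg, norm_neg]

lemma cpl_sq (hα : 0 ≤ α) (hL : 0 < L) (m : Fin 3 → ℤ) :
    cpl α L m ^ 2 = α / (2 * L ^ 3 * ‖wave L m‖) := by
  have h1 : ∀ y : ℝ, 0 ≤ y → (y ^ (-1 / 2 : ℝ)) ^ 2 = y⁻¹ := by
    intro y hy
    rw [← Real.rpow_natCast, ← Real.rpow_mul hy]
    norm_num
    rw [Real.rpow_neg_one]
  unfold cpl
  rw [mul_pow, mul_pow, Real.sq_sqrt hα, h1 _ (by positivity), h1 _ (norm_nonneg _)]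
  simp only [div_eq_mul_inv, mul_inv]

lemma sum_modes (f : (Fin 3 → ℤ) → Fin 2 → ℝ) :
    ∑ j : Mode L Λ, f j.1 j.2 = ∑ m ∈ modeSet L Λ, ∑ l, f m l := by
  rw [Fintype.sum_prod_type]
  exact Finset.sum_coe_sort (modeSet L Λ) (fun m => ∑ l, f m l)

lemma sum_pol (hL : 0 < L) (hε : IsPolarisation L Λ ε) {m : Fin 3 → ℤ} (hm : m ∈ modeSet L Λ)
    (p q : E3) : ∑ l, inner ℝ (cpl α L m • ε m l) p * inner ℝ (cpl α L m • ε m l) q
      = cpl α L m ^ 2 * (inner ℝ p q - inner ℝ (wave L m) p * inner ℝ (wave L m) q /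
        ‖wave L m‖ ^ 2) := by
  rw [← completeness (wave_ne_zero hL ((mem_modeSet hL Λ m).1 hm).1) (hε m hm).1 (hε m hm).2,
    Finset.mul_sum]
  refine Finset.sum_congr rfl fun l _ => ?_
  rw [real_inner_smul_left, real_inner_smul_left]
  ring

lemma parity (hL : 0 < L) (hε : IsPolarisation L Λ ε) : Parity (kvec L Λ) (gvec α L Λ ε) := by
  intro p q F hF
  set F' : (Fin 3 → ℤ) → ℝ := fun m => cpl α L m ^ 2 * (inner ℝ p q -
    inner ℝ (wave L m) p * inner ℝ (wave L m) q / ‖wave L m‖ ^ 2) * F (wave L m) with hF'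
  have h1 : ∑ j : Mode L Λ, inner ℝ (gvec α L Λ ε j) p * inner ℝ (gvec α L Λ ε j) q *
      F (kvec L Λ j) = ∑ m ∈ modeSet L Λ, F' m := by
    have := sum_modes (L := L) (Λ := Λ) (fun m l => inner ℝ (cpl α L m • ε m l) p *
      inner ℝ (cpl α L m • ε m l) q * F (wave L m))
    refine this.trans (Finset.sum_congr rfl fun m hm => ?_)
    rw [← Finset.sum_mul, sum_pol hL hε hm]
  have h2 : ∀ m, F' (-m) = - F' m := by
    intro m
    simp only [hF', cpl_neg, wave_neg, inner_neg_left, norm_neg, hF]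
    ring
  have h3 : ∑ m ∈ modeSet L Λ, F' m = ∑ m ∈ modeSet L Λ, F' (-m) := by
    refine Finset.sum_equiv (Equiv.neg _) (fun m => ?_) (fun m _ => ?_)
    · rw [mem_modeSet hL, mem_modeSet hL]
      simp [wave_neg]
    · simp
  rw [h1]
  have h4 : ∑ m ∈ modeSet L Λ, F' m = - ∑ m ∈ modeSet L Λ, F' m := by
    conv_lhs => rw [h3]
    simp_rw [h2]
    rw [Finset.sum_neg_distrib]
  linarith

end Pool.Agent.LiebLoss
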