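import Pool.Agent.LiebLoss.Key

/-!
# Norms in the occupation number representation
-/

open MeasureTheory Complex Real
open scoped ENNReal

set_option linter.unusedSectionVars false

namespace Pool.Agent.LiebLoss

variable {ι : Type*} [Fintype ι] [DecidableEq ι] {k g : ι → E3}

/-- Squared norm, as an extended nonnegative real. -/
noncomputable def nsq (φ : (ι → ℕ) → E3 → ℂ) : ℝ≥0∞ := ∫⁻ x, ∑' n, ‖φ n x‖ₑ ^ 2

lemma NiceC.nrm_sq_eq {φ : (ι → ℕ) → E3 → ℂ} (h : NiceC φ) : nrm (BT φ) ^ 2 = nsq φ := by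
  rw [nrm_sq]
  have hc := h.continuous_BT.measurable
  unfold mu nsq
  rw [lintegral_prod _ (by fun_prop)]
  refine lintegral_congr fun x => ?_
  obtain ⟨S, hS⟩ := h.fin
  have hS' : ∀ n ∉ S, (fun n => φ n x) n = 0 := fun n hn => by simp [hS n hn]
  unfold BT
  simp only
  rw [lintegral_bt hS', tsum_eq_sum]
  intro n hn
  simp [hS n hn]

/-- Inner product of occupation number vectors. -/
noncomputable def ip (u v : (ι → ℕ) → ℂ) : ℂ := ∑' n, starRingEnd ℂ (u n) * v n

lemma summable_ip_left {u : (ι → ℕ) → ℂ} (hu : FS u) (v : (ι → ℕ) → ℂ) :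
    Summable fun n => starRingEnd ℂ (u n) * v n :=
  summable_of_hasFiniteSupport (hu.subset fun n hn => by
    simp only [Function.mem_support, ne_eq, mul_eq_zero, not_or, map_eq_zero] at hn ⊢
    exact hn.1)

lemma summable_ip_right (u : (ι → ℕ) → ℂ) {v : (ι → ℕ) → ℂ} (hv : FS v) :
    Summable fun n => starRingEnd ℂ (u n) * v n :=
  summable_of_hasFiniteSupport (hv.subset fun n hn => by
    simp only [Function.mem_support, ne_eq, mul_eq_zero, not_or, map_eq_zero] at hn ⊢
    exact hn.2)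

lemma conj_ip (u v : (ι → ℕ) → ℂ) : starRingEnd ℂ (ip u v) = ip v u := by
  unfold ip
  rw [Complex.conj_tsum]
  refine tsum_congr fun n => ?_
  rw [map_mul, Complex.conj_conj, mul_comm]

lemma ip_an_left (j : ι) (u v : (ι → ℕ) → ℂ) : ip (an j u) v = ip u (cr j v) := tsum_an_mul j u v

lemma ip_cr_left (j : ι) (u v : (ι → ℕ) → ℂ) : ip (cr j u) v = ip u (an j v) := by
  rw [← conj_ip, ← ip_an_left, conj_ip]

/-- Annihilation operator of a one-photon vector. -/
noncomputable def az (z : ι → ℂ) (u : (ι → ℕ) → ℂ) : (ι → ℕ) → ℂ :=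
  fun n => ∑ j, starRingEnd ℂ (z j) * an j u n

/-- Creation operator of a one-photon vector. -/
noncomputable def adz (z : ι → ℂ) (u : (ι → ℕ) → ℂ) : (ι → ℕ) → ℂ :=
  fun n => ∑ j, z j * cr j u n

lemma FS.az {u : (ι → ℕ) → ℂ} (hu : FS u) (z : ι → ℂ) : FS (az z u) :=
  FS.sum _ fun j _ => (hu.an j).mul_left _

lemma FS.adz {u : (ι → ℕ) → ℂ} (hu : FS u) (z : ι → ℂ) : FS (adz z u) :=
  FS.sum _ fun j _ => (hu.cr j).mul_left _

lemma ip_sum_mul_right {κ : Type*} (s : Finset κ) (u : (ι → ℕ) → ℂ) (c : κ → ℂ)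
    (V : κ → (ι → ℕ) → ℂ) (hV : ∀ i ∈ s, FS (V i)) :
    ip u (fun n => ∑ i ∈ s, c i * V i n) = ∑ i ∈ s, c i * ip u (V i) := by
  unfold ip
  simp_rw [Finset.mul_sum]
  rw [Summable.tsum_finsetSum]
  · refine Finset.sum_congr rfl fun i _ => ?_
    rw [← tsum_mul_left]
    refine tsum_congr fun n => by ring
  · intro i hi
    have := (summable_ip_right u (hV i hi)).mul_left (c i)
    refine this.congr fun n => by ring

lemma ip_sum_mul_left {κ : Type*} (s : Finset κ) (v : (ι → ℕ) → ℂ) (c : κ → ℂ)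
    (V : κ → (ι → ℕ) → ℂ) (hV : ∀ i ∈ s, FS (V i)) :
    ip (fun n => ∑ i ∈ s, c i * V i n) v = ∑ i ∈ s, starRingEnd ℂ (c i) * ip (V i) v := by
  rw [← conj_ip, ip_sum_mul_right s v c V hV, map_sum]
  refine Finset.sum_congr rfl fun i _ => ?_
  rw [map_mul, conj_ip]

lemma ip_add_right (u : (ι → ℕ) → ℂ) {v w : (ι → ℕ) → ℂ} (hv : FS v) (hw : FS w) :
    ip u (fun n => v n + w n) = ip u v + ip u w := by
  unfold ip
  simp_rw [mul_add]
  exact (summable_ip_right u hv).tsum_add (summable_ip_right u hw)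

lemma ip_mul_right (u v : (ι → ℕ) → ℂ) (c : ℂ) : ip u (fun n => c * v n) = c * ip u v := by
  unfold ip
  rw [← tsum_mul_left]
  refine tsum_congr fun n => by ring

/-- The commutation relation in norm form. -/
lemma ip_adz (z : ι → ℂ) {u : (ι → ℕ) → ℂ} (hu : FS u) :
    ip (adz z u) (adz z u) = ip (az z u) (az z u) + (∑ j, starRingEnd ℂ (z j) * z j) * ip u u := by
  have h1 : ip (adz z u) (adz z u) = ∑ j, ∑ l, starRingEnd ℂ (z j) * (z l * ip (cr j u) (cr l u)) := by
    unfold adz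
    rw [ip_sum_mul_left _ _ _ _ fun j _ => hu.cr j]
    refine Finset.sum_congr rfl fun j _ => ?_
    rw [ip_sum_mul_right _ _ _ _ fun j _ => hu.cr j, Finset.mul_sum]
  have h2 : ip (az z u) (az z u) = ∑ j, ∑ l, starRingEnd ℂ (z j) * (z l * ip (an l u) (an j u)) := by
    unfold az
    rw [ip_sum_mul_left _ _ _ _ fun j _ => hu.an j, Finset.sum_comm]
    refine Finset.sum_congr rfl fun j _ => ?_
    rw [ip_sum_mul_right _ _ _ _ fun j _ => hu.an j, Finset.mul_sum]
    refine Finset.sum_congr rfl fun l _ => ?_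
    rw [Complex.conj_conj]; ring
  have h3 : ∀ j l, ip (cr j u) (cr l u) = ip (an l u) (an j u) + if j = l then ip u u else 0 := by
    intro j l
    rw [ip_cr_left]
    have e1 : an j (cr l u) = fun n => cr l (an j u) n + (if j = l then 1 else 0) * u n := by
      funext n
      rw [an_cr]
      split_ifs <;> simp
    rw [e1, ip_add_right _ ((hu.an j).cr l) (hu.mul_left _), ip_mul_right, ip_an_left]
    split_ifs <;> simp
  rw [h1, h2, Finset.sum_mul, ← Finset.sum_add_distrib]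
  refine Finset.sum_congr rfl fun j _ => ?_
  simp_rw [h3, mul_add, Finset.sum_add_distrib]
  congr 1
  simp
  ring

/-- Squared norm of an occupation number vector. -/
noncomputable def ns (u : (ι → ℕ) → ℂ) : ℝ := ∑' n, ‖u n‖ ^ 2

lemma ip_self (u : (ι → ℕ) → ℂ) : ip u u = (ns u : ℂ) := by
  unfold ip ns
  rw [Complex.ofReal_tsum]
  refine tsum_congr fun n => ?_
  rw [Complex.conj_mul']
  push_cast; rfl

lemma ns_nonneg (u : (ι → ℕ) → ℂ) : 0 ≤ ns u := tsum_nonneg fun _ => by positivity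

lemma ns_adz (z : ι → ℂ) {u : (ι → ℕ) → ℂ} (hu : FS u) :
    ns (adz z u) = ns (az z u) + (∑ j, ‖z j‖ ^ 2) * ns u := by
  have h := ip_adz z hu
  rw [ip_self, ip_self, ip_self] at h
  have h2 : (∑ j, starRingEnd ℂ (z j) * z j) = ((∑ j, ‖z j‖ ^ 2 : ℝ) : ℂ) := by
    push_cast
    refine Finset.sum_congr rfl fun j _ => ?_
    rw [Complex.conj_mul']
  rw [h2] at h
  exact_mod_cast h

lemma FS.ofReal_ns {u : (ι → ℕ) → ℂ} (hu : FS u) :
    ENNReal.ofReal (ns u) = ∑' n, ‖u n‖ₑ ^ 2 := by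
  unfold ns
  rw [ENNReal.ofReal_tsum_of_nonneg (fun _ => by positivity)]
  · refine tsum_congr fun n => ?_
    rw [ENNReal.ofReal_pow (norm_nonneg _), ofReal_norm]
  · refine summable_of_hasFiniteSupport (hu.subset fun n hn => ?_)
    simp only [Function.mem_support, ne_eq] at hn ⊢
    intro h0
    apply hn
    rw [h0]; simp

lemma FS.summable_sq {u : (ι → ℕ) → ℂ} (hu : FS u) : Summable fun n => ‖u n‖ ^ 2 := by
  refine summable_of_hasFiniteSupport (hu.subset fun n hn => ?_)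
  simp only [Function.mem_support, ne_eq] at hn ⊢
  intro h0
  apply hn
  rw [h0]; simp

lemma Dop_zero (S : Finset ι) (a b c : E3) (s : ℝ) (ψ : (ι → ℕ) → E3 → ℂ) (n : ι → ℕ) (x : E3) :
    Dop 0 (fun x j => - ((s : ℂ) * (I * fS k g S a b c x j))) ψ n x
      = - (s : ℂ) * (az (fS k g S a b c x) (fun m => ψ m x) n -
        adz (fS k g S a b c x) (fun m => ψ m x) n) := by
  unfold Dop az adz
  rw [map_zero, zero_add, ← Finset.sum_sub_distrib, Finset.mul_sum, Finset.mul_sum]
  refine Finset.sum_congr rfl fun j _ => ?_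
  simp only [map_neg, map_mul, Complex.conj_ofReal, Complex.conj_I]
  linear_combination (s : ℂ) * (starRingEnd ℂ (fS k g S a b c x j) * an j (fun m => ψ m x) n -
    fS k g S a b c x j * cr j (fun m => ψ m x) n) * Complex.I_sq

lemma sum_norm_fS (S : Finset ι) (a b c x : E3) :
    ∑ j, ‖fS k g S a b c x j‖ ^ 2 = HS k g S a b := by
  unfold fS HS
  rw [← Finset.sum_filter_add_sum_filter_not Finset.univ (fun j => j ∈ S)]
  have h2 : Finset.univ.filter (fun j => j ∈ S) = S := by ext; simp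
  have h1 : ∑ j ∈ Finset.univ.filter (fun j => j ∉ S),
      ‖(if j ∈ S then lam k g a b (x + c) j else 0)‖ ^ 2 = 0 := by
    refine Finset.sum_eq_zero fun j hj => ?_
    rw [Finset.mem_filter] at hj
    simp [hj.2]
  rw [h1, add_zero, h2]
  refine Finset.sum_congr rfl fun j hj => ?_
  rw [if_pos hj, norm_lam]

lemma ns_Dop_zero_le {ψ : (ι → ℕ) → E3 → ℂ} (h : Nice ψ) (S : Finset ι) (a b c : E3) (s : ℝ)
    (x : E3) :
    ∑' n, ‖Dop 0 (fun x j => - ((s : ℂ) * (I * fS k g S a b c x j))) ψ n x‖ₑ ^ 2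
      ≤ ENNReal.ofReal (s ^ 2) * (4 * ∑' n, ‖az (fS k g S a b c x) (fun m => ψ m x) n‖ₑ ^ 2 +
        ENNReal.ofReal (2 * HS k g S a b) * ∑' n, ‖ψ n x‖ₑ ^ 2) := by
  have hu := h.fs x
  set u : (ι → ℕ) → ℂ := fun m => ψ m x with hudef
  set z := fS k g S a b c x with hz
  have hH : 0 ≤ HS k g S a b := Finset.sum_nonneg fun _ _ => by positivity
  have haz := hu.az z
  have hadz := hu.adz z
  have e1 : ∀ n, Dop 0 (fun x j => - ((s : ℂ) * (I * fS k g S a b c x j))) ψ n x
      = - (s : ℂ) * (az z u n - adz z u n) := fun n => Dop_zero S a b c s ψ n x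
  have hfs : FS (fun n => - (s : ℂ) * (az z u n - adz z u n)) := by
    have := (haz.add hadz.neg).mul_left (- (s:ℂ))
    simpa [sub_eq_add_neg] using this
  have e2 : ∑' n, ‖Dop 0 (fun x j => - ((s : ℂ) * (I * fS k g S a b c x j))) ψ n x‖ₑ ^ 2
      = ENNReal.ofReal (ns (fun n => - (s : ℂ) * (az z u n - adz z u n))) := by
    rw [hfs.ofReal_ns]
    refine tsum_congr fun n => by rw [e1]
  have e3 : ns (fun n => - (s : ℂ) * (az z u n - adz z u n))
      ≤ s ^ 2 * (4 * ns (az z u) + 2 * HS k g S a b * ns u) := by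
    have h1 : ns (fun n => - (s : ℂ) * (az z u n - adz z u n))
        ≤ s ^ 2 * (2 * ns (az z u) + 2 * ns (adz z u)) := by
      unfold ns
      rw [← tsum_mul_left, ← tsum_mul_left, ← (haz.summable_sq.mul_left 2).tsum_add
        (hadz.summable_sq.mul_left 2), ← tsum_mul_left]
      refine Summable.tsum_le_tsum (fun n => ?_) hfs.summable_sq
        (((haz.summable_sq.mul_left 2).add (hadz.summable_sq.mul_left 2)).mul_left _)
      rw [norm_mul, norm_neg, Complex.norm_real, mul_pow, Real.norm_eq_abs, sq_abs]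
      refine mul_le_mul_of_nonneg_left ?_ (sq_nonneg s)
      have h2 := norm_sub_le (az z u n) (adz z u n)
      have h3 := norm_nonneg (az z u n - adz z u n)
      nlinarith [sq_nonneg (‖az z u n‖ - ‖adz z u n‖), norm_nonneg (az z u n),
        norm_nonneg (adz z u n)]
    rw [ns_adz z hu, hz, sum_norm_fS] at h1
    refine h1.trans (le_of_eq ?_)
    rw [hz]; ring
  rw [e2]
  refine (ENNReal.ofReal_le_ofReal e3).trans (le_of_eq ?_)
  have hn1 := ns_nonneg (az z u)
  have hn2 := ns_nonneg u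
  rw [ENNReal.ofReal_mul (sq_nonneg s), ENNReal.ofReal_add (by positivity) (by positivity),
    ENNReal.ofReal_mul (by norm_num), ENNReal.ofReal_mul (by positivity), haz.ofReal_ns,
    hu.ofReal_ns]
  norm_num
  rfl

end Pool.Agent.LiebLoss
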