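import Pool.Agent.LiebLoss.Bound

/-!
# Composition of gauge translations and the abstract uncertainty inequality
-/

open MeasureTheory Complex Real
open scoped ENNReal

set_option linter.unusedSectionVars false

namespace Pool.Agent.LiebLoss

variable {ι : Type*} [Fintype ι] [DecidableEq ι]

lemma gt_sub (b : E3) (ζ : E3 → ι → ℂ) (G H : E3 × (ι → ℂ) → ℂ) (p : E3 × (ι → ℂ)) :
    gt b ζ G p - gt b ζ H p = gt b ζ (fun q => G q - H q) p := by
  unfold gt; ring

lemma nrm_triangle {G H K : E3 × (ι → ℂ) → ℂ} (hG : Measurable G) (hH : Measurable H)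
    (hK : Measurable K) :
    nrm (fun p => G p - K p) ≤ nrm (fun p => G p - H p) + nrm (fun p => H p - K p) := by
  unfold nrm
  have h : (fun p => G p - K p) = (fun p => G p - H p) + (fun p => H p - K p) := by
    funext p; simp
  rw [h]
  exact eLpNorm_add_le (hG.sub hH).aestronglyMeasurable (hH.sub hK).aestronglyMeasurable
    (by norm_num)

lemma nrm_sub_comm (G H : E3 × (ι → ℂ) → ℂ) :
    nrm (fun p => G p - H p) = nrm (fun p => H p - G p) := by
  rw [nrm_eq, nrm_eq]
  congr 1
  refine lintegral_congr fun p => ?_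
  rw [← enorm_neg, neg_sub]

/-- Telescoping for compositions. -/
lemma nrm_comp_sub (b : E3) {ζ : E3 → ι → ℂ} (hζ : Measurable ζ) {G H : E3 × (ι → ℂ) → ℂ}
    (hG : Measurable G) (hH : Measurable H) :
    nrm (fun p => gt b ζ H p - G p) ≤ nrm (fun p => H p - G p) +
      nrm (fun p => gt b ζ G p - G p) := by
  have h1 := nrm_triangle (measurable_gt b hζ hH) (measurable_gt b hζ hG) hG
  have h2 : (fun p => gt b ζ H p - gt b ζ G p) = gt b ζ (fun q => H q - G q) :=
    funext fun p => gt_sub b ζ H G p
  rw [h2, nrm_gt b hζ (G := fun q => H q - G q) (hH.sub hG)] at h1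
  exact h1

section Abstract

/-- Abstract uncertainty inequality: if the shift `ν` turns `gt 0 η` into its negative then no
state can be almost invariant under both. -/
lemma uncertainty {η ν : E3 → ι → ℂ} (hη : Measurable η) (hν : Measurable ν)
    (hph : ∀ x, Complex.exp (-I * (2 * sig (ν x) (η x) : ℝ)) = -1)
    {G : E3 × (ι → ℂ) → ℂ} (hG : Measurable G) :
    nrm G ≤ nrm (fun p => gt 0 η G p - G p) +
      nrm (fun p => gt 0 (fun x j => - ν x j) G p - G p) := by
  have hν' : Measurable (fun x j => - ν x j) := hν.neg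
  set T' := gt 0 (fun x j => - ν x j) G with hT'
  have hT'm : Measurable T' := measurable_gt 0 hν' hG
  have hPG : Measurable (gt 0 η G) := measurable_gt 0 hη hG
  have hPT : Measurable (gt 0 η T') := measurable_gt 0 hη hT'm
  have hsig1 : ∀ z : ι → ℂ, sig z (fun j => - z j) = 0 := by
    intro z
    unfold sig
    refine Finset.sum_eq_zero fun j _ => ?_
    rw [mul_neg, Complex.conj_mul']
    rw [← Complex.ofReal_pow, ← Complex.ofReal_neg, Complex.ofReal_im]
  have hTT : gt 0 ν T' = G := by
    funext p
    rw [hT', gt_gt]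
    have h1 : (fun (x : E3) (j : ι) => ν x j + -ν (x + 0) j) = fun _ _ => 0 := by
      funext x j; simp
    rw [h1, add_zero (0 : E3), gt_zero, add_zero, hsig1]
    simp
  have hTPT : ∀ p, gt 0 ν (gt 0 η T') p = - gt 0 η G p := by
    intro p
    have e1 : gt 0 η T' = fun q => Complex.exp (-I * sig (η q.1) (fun j => - ν q.1 j)) *
        gt 0 (fun x j => η x j + - ν x j) G q := by
      funext q
      rw [hT', gt_gt]
      simp only [add_zero]
    rw [e1]
    have e2 : gt 0 ν (fun q => Complex.exp (-I * sig (η q.1) (fun j => - ν q.1 j)) *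
        gt 0 (fun x j => η x j + - ν x j) G q) p
        = Complex.exp (-I * sig (η p.1) (fun j => - ν p.1 j)) *
          gt 0 ν (gt 0 (fun x j => η x j + - ν x j) G) p := by
      unfold gt
      simp only [add_zero]
      ring
    rw [e2, gt_gt]
    simp only [add_zero]
    have e3 : (fun (x : E3) (j : ι) => ν x j + (η x j + -ν x j)) = η := by
      funext x j; ring
    rw [e3, ← mul_assoc, ← Complex.exp_add]
    have e4 : -I * (sig (η p.1) (fun j => - ν p.1 j) : ℂ) +
        -I * (sig (ν p.1) (fun j => η p.1 j + - ν p.1 j) : ℂ)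
        = -I * (2 * sig (ν p.1) (η p.1) : ℝ) := by
      have h1 : sig (η p.1) (fun j => - ν p.1 j) = sig (ν p.1) (η p.1) := by
        unfold sig
        refine Finset.sum_congr rfl fun j _ => ?_
        simp only [mul_neg, Complex.neg_im, Complex.mul_im, Complex.conj_re, Complex.conj_im]
        ring
      have h2 : sig (ν p.1) (fun j => η p.1 j + - ν p.1 j) = sig (ν p.1) (η p.1) := by
        unfold sig
        refine Finset.sum_congr rfl fun j _ => ?_
        simp only [Complex.add_re, Complex.add_im, Complex.neg_re, Complex.neg_im, Complex.mul_im,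
          Complex.conj_re, Complex.conj_im]
        ring
      rw [h1, h2]
      push_cast
      ring
    rw [e4, hph]
    ring
  -- the triangle inequalities
  have h1 : nrm (fun p => T' p - gt 0 η T' p) ≤
      nrm (fun p => T' p - G p) + (nrm (fun p => G p - gt 0 η G p) +
        nrm (fun p => T' p - G p)) := by
    refine (nrm_triangle hT'm hG hPT).trans ?_
    gcongr
    refine (nrm_triangle hG hPG hPT).trans ?_
    gcongr
    have h2 : (fun p => gt 0 η G p - gt 0 η T' p) = gt 0 η (fun q => G q - T' q) :=
      funext fun p => gt_sub 0 η G T' p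
    rw [h2, nrm_gt 0 hη (G := fun q => G q - T' q) (hG.sub hT'm), nrm_sub_comm]
  have h2 : nrm (fun p => G p + gt 0 η G p) = nrm (fun p => T' p - gt 0 η T' p) := by
    rw [← nrm_gt 0 hν (G := fun p => T' p - gt 0 η T' p) (hT'm.sub hPT)]
    congr 1
    funext p
    rw [← gt_sub, hTT, hTPT]
    ring
  have h3 : nrm (fun p => G p + G p) ≤ nrm (fun p => G p - gt 0 η G p) +
      nrm (fun p => G p + gt 0 η G p) := by
    unfold nrm
    have h : (fun p => G p + G p) = (fun p => G p - gt 0 η G p) + (fun p => G p + gt 0 η G p) := by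
      funext p; simp
    rw [h]
    exact eLpNorm_add_le (hG.sub hPG).aestronglyMeasurable (hG.add hPG).aestronglyMeasurable
      (by norm_num)
  have h4 : nrm (fun p => G p + G p) = 2 * nrm G := by
    unfold nrm
    have h : (fun p => G p + G p) = (2:ℂ) • G := by
      funext p; simp [two_mul]
    rw [h, eLpNorm_const_smul]
    congr 1
    rw [← ofReal_norm]
    simp
  rw [h4, h2] at h3
  have h5 : 2 * nrm G ≤ 2 * (nrm (fun p => gt 0 η G p - G p) + nrm (fun p => T' p - G p)) := by
    refine h3.trans ?_
    rw [nrm_sub_comm G (gt 0 η G)] at h1 ⊢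
    calc _ ≤ nrm (fun p => gt 0 η G p - G p) + (nrm (fun p => T' p - G p) +
          (nrm (fun p => gt 0 η G p - G p) + nrm (fun p => T' p - G p))) := by gcongr
      _ = _ := by ring
  exact (ENNReal.mul_le_mul_iff_right (by norm_num) (by norm_num)).1 h5

end Abstract

end Pool.Agent.LiebLoss
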