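import Pool.Agent.LiebLoss.BesselBox

/-!
# States of the core
-/

open MeasureTheory Complex Real
open scoped ENNReal ContDiff

set_option linter.unusedSectionVars false

namespace Pool.Agent.LiebLoss

variable {ι : Type*} [Fintype ι] [DecidableEq ι]

/-- Finitely many configurations, continuous compactly supported components. -/
structure CS (ψ : (ι → ℕ) → E3 → ℂ) : Prop where
  fin : ∃ S : Finset (ι → ℕ), ∀ n ∉ S, ψ n = 0
  cont : ∀ n, Continuous (ψ n)
  supp : ∀ n, HasCompactSupport (ψ n)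

/-- Smooth states. -/
structure St (ψ : (ι → ℕ) → E3 → ℂ) : Prop where
  fin : ∃ S : Finset (ι → ℕ), ∀ n ∉ S, ψ n = 0
  smooth : ∀ n, ContDiff ℝ ∞ (ψ n)
  supp : ∀ n, HasCompactSupport (ψ n)

lemma St.cs {ψ : (ι → ℕ) → E3 → ℂ} (h : St ψ) : CS ψ := ⟨h.fin, fun n => (h.smooth n).continuous, h.supp⟩

lemma St.nice {ψ : (ι → ℕ) → E3 → ℂ} (h : St ψ) : Nice ψ :=
  ⟨h.fin, fun n => (h.smooth n).of_le (by norm_num)⟩

lemma CS.niceC {ψ : (ι → ℕ) → E3 → ℂ} (h : CS ψ) : NiceC ψ := ⟨h.fin, h.cont⟩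

lemma CS.fs {ψ : (ι → ℕ) → E3 → ℂ} (h : CS ψ) (x : E3) : FS (fun n => ψ n x) := by
  obtain ⟨S, hS⟩ := h.fin
  exact fs_of (S := S) fun n hn => by rw [hS n hn]; rfl

lemma IsState.st {ψ : (ι → ℕ) → E3 → ℂ} (h : IsState ψ) : St ψ :=
  ⟨⟨h.1.toFinset, fun n hn => by
    by_contra hc
    exact hn ((Set.Finite.mem_toFinset _).2 hc)⟩, fun n => (h.2 n).1, fun n => (h.2 n).2⟩

lemma CS.integrable_mul {ψ φ : (ι → ℕ) → E3 → ℂ} (h : CS ψ) (h' : CS φ) (n : ι → ℕ) :
    Integrable fun x => starRingEnd ℂ (ψ n x) * φ n x := by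
  refine Continuous.integrable_of_hasCompactSupport ?_ ?_
  · have h1 := h.cont n
    have h2 := h'.cont n
    have h3 : Continuous fun x => starRingEnd ℂ (ψ n x) := Complex.continuous_conj.comp h1
    fun_prop
  · exact (h'.supp n).mul_left

lemma CS.ip_eq_sum {ψ φ : (ι → ℕ) → E3 → ℂ} {S : Finset (ι → ℕ)} (hS : ∀ n ∉ S, φ n = 0)
    (x : E3) : ip (fun n => ψ n x) (fun n => φ n x) =
      ∑ n ∈ S, starRingEnd ℂ (ψ n x) * φ n x := by
  unfold ip
  exact tsum_eq_sum fun n hn => by simp [hS n hn]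

lemma CS.integrable_ip {ψ φ : (ι → ℕ) → E3 → ℂ} (h : CS ψ) (h' : CS φ) :
    Integrable fun x => ip (fun n => ψ n x) (fun n => φ n x) := by
  obtain ⟨S, hS⟩ := h'.fin
  simp_rw [CS.ip_eq_sum hS]
  exact integrable_finsetSum _ fun n _ => h.integrable_mul h' n

lemma CS.inner_eq {ψ φ : (ι → ℕ) → E3 → ℂ} (h : CS ψ) (h' : CS φ) :
    innerProd ψ φ = ∫ x, ip (fun n => ψ n x) (fun n => φ n x) := by
  obtain ⟨S, hS⟩ := h'.fin
  simp_rw [CS.ip_eq_sum hS]
  rw [integral_finsetSum _ fun n _ => h.integrable_mul h' n]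
  unfold innerProd
  exact tsum_eq_sum fun n hn => by simp [hS n hn]

lemma CS.add {ψ φ : (ι → ℕ) → E3 → ℂ} (h : CS ψ) (h' : CS φ) : CS (fun n x => ψ n x + φ n x) := by
  obtain ⟨S, hS⟩ := h.fin
  obtain ⟨T, hT⟩ := h'.fin
  refine ⟨⟨S ∪ T, fun n hn => ?_⟩, fun n => (h.cont n).add (h'.cont n), fun n =>
    (h.supp n).add (h'.supp n)⟩
  rw [Finset.mem_union, not_or] at hn
  funext x
  simp [hS n hn.1, hT n hn.2]

lemma CS.mul {ψ : (ι → ℕ) → E3 → ℂ} (h : CS ψ) {f : E3 → ℂ} (hf : Continuous f) :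
    CS (fun n x => f x * ψ n x) := by
  obtain ⟨S, hS⟩ := h.fin
  refine ⟨⟨S, fun n hn => ?_⟩, fun n => hf.mul (h.cont n), fun n => (h.supp n).mul_left⟩
  funext x
  simp [hS n hn]

lemma CS.zero : CS (fun (_ : ι → ℕ) (_ : E3) => (0 : ℂ)) :=
  ⟨⟨∅, fun _ _ => rfl⟩, fun _ => continuous_const, fun _ => HasCompactSupport.zero⟩

lemma CS.sum {κ : Type*} (s : Finset κ) {ψ : κ → (ι → ℕ) → E3 → ℂ} (h : ∀ i ∈ s, CS (ψ i)) :
    CS (fun n x => ∑ i ∈ s, ψ i n x) := by
  classical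
  induction s using Finset.induction_on with
  | empty => simpa using CS.zero
  | insert a s ha ih =>
    simp only [Finset.sum_insert ha]
    exact (h a (Finset.mem_insert_self _ _)).add
      (ih fun k hk => h k (Finset.mem_insert_of_mem hk))

lemma CS.ann {ψ : (ι → ℕ) → E3 → ℂ} (h : CS ψ) (j : ι) : CS (ann j ψ) := by
  obtain ⟨S, hS⟩ := h.fin
  refine ⟨⟨shiftSet S, fun n hn => ?_⟩, fun n => ?_, fun n => ?_⟩
  · funext x
    exact an_eq_zero_of (u := fun n => ψ n x) (fun n hn => by rw [hS n hn]; rfl) j hn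
  · unfold LiebLoss.ann
    have := h.cont
    fun_prop
  · unfold LiebLoss.ann
    exact (h.supp _).mul_left

lemma CS.cre {ψ : (ι → ℕ) → E3 → ℂ} (h : CS ψ) (j : ι) : CS (cre j ψ) := by
  obtain ⟨S, hS⟩ := h.fin
  refine ⟨⟨shiftSet S, fun n hn => ?_⟩, fun n => ?_, fun n => ?_⟩
  · funext x
    exact cr_eq_zero_of (u := fun n => ψ n x) (fun n hn => by rw [hS n hn]; rfl) j hn
  · unfold LiebLoss.cre
    have := h.cont
    fun_prop
  · unfold LiebLoss.cre
    exact (h.supp _).mul_left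

lemma ann_apply (j : ι) (ψ : (ι → ℕ) → E3 → ℂ) (x : E3) :
    (fun n => ann j ψ n x) = an j (fun n => ψ n x) := rfl

lemma cre_apply (j : ι) (ψ : (ι → ℕ) → E3 → ℂ) (x : E3) :
    (fun n => cre j ψ n x) = cr j (fun n => ψ n x) := rfl

lemma inner_add_right' {ψ φ χ : (ι → ℕ) → E3 → ℂ} (h : CS ψ) (h1 : CS φ) (h2 : CS χ) :
    innerProd ψ (fun n x => φ n x + χ n x) = innerProd ψ φ + innerProd ψ χ := by
  rw [h.inner_eq (h1.add h2), h.inner_eq h1, h.inner_eq h2, ← integral_add (h.integrable_ip h1)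
    (h.integrable_ip h2)]
  refine integral_congr_ae (Filter.Eventually.of_forall fun x => ?_)
  exact ip_add_right _ (h1.fs x) (h2.fs x)

lemma inner_mul_right' {ψ φ : (ι → ℕ) → E3 → ℂ} (h : CS ψ) (h1 : CS φ) (c : ℂ) :
    innerProd ψ (fun n x => c * φ n x) = c * innerProd ψ φ := by
  rw [h.inner_eq (h1.mul continuous_const), h.inner_eq h1, ← integral_const_mul]
  refine integral_congr_ae (Filter.Eventually.of_forall fun x => ?_)
  exact ip_mul_right _ _ c

lemma inner_sum_right' {κ : Type*} (s : Finset κ) {ψ : (ι → ℕ) → E3 → ℂ}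
    {φ : κ → (ι → ℕ) → E3 → ℂ} (h : CS ψ) (h1 : ∀ i ∈ s, CS (φ i)) :
    innerProd ψ (fun n x => ∑ i ∈ s, φ i n x) = ∑ i ∈ s, innerProd ψ (φ i) := by
  classical
  induction s using Finset.induction_on with
  | empty => simp [innerProd]
  | insert a s ha ih =>
    simp only [Finset.sum_insert ha]
    rw [inner_add_right' h (h1 a (Finset.mem_insert_self _ _))
      (CS.sum s fun k hk => h1 k (Finset.mem_insert_of_mem hk)),
      ih fun k hk => h1 k (Finset.mem_insert_of_mem hk)]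

lemma CS.conj_inner {ψ φ : (ι → ℕ) → E3 → ℂ} (h : CS ψ) (h' : CS φ) :
    starRingEnd ℂ (innerProd ψ φ) = innerProd φ ψ := by
  rw [h.inner_eq h', h'.inner_eq h, ← integral_conj]
  refine integral_congr_ae (Filter.Eventually.of_forall fun x => ?_)
  exact conj_ip _ _

/-- Norms agree. -/
lemma CS.inner_self {ψ : (ι → ℕ) → E3 → ℂ} (h : CS ψ) :
    nsq ψ ≠ ⊤ ∧ innerProd ψ ψ = ((nsq ψ).toReal : ℂ) := by
  have h1 := h.integrable_ip h
  have h2 : Integrable fun x => ns (fun n => ψ n x) := by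
    refine h1.re.congr (Filter.Eventually.of_forall fun x => ?_)
    simp only [ip_self]
    exact Complex.ofReal_re _
  have h3 : nsq ψ = ENNReal.ofReal (∫ x, ns (fun n => ψ n x)) := by
    rw [ofReal_integral_eq_lintegral_ofReal h2 (Filter.Eventually.of_forall fun x => ns_nonneg _)]
    unfold nsq
    refine lintegral_congr fun x => ?_
    rw [(h.fs x).ofReal_ns]
  refine ⟨by rw [h3]; exact ENNReal.ofReal_ne_top, ?_⟩
  rw [h3, ENNReal.toReal_ofReal (integral_nonneg fun x => ns_nonneg _), h.inner_eq h,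
    ← integral_complex_ofReal]
  refine integral_congr_ae (Filter.Eventually.of_forall fun x => ?_)
  exact ip_self _

end Pool.Agent.LiebLoss
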