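import Pool.Agent.LiebLoss.Norms

/-!
# Summing the key inequality over the translated loops
-/

open MeasureTheory Complex Real
open scoped ENNReal

set_option linter.unusedSectionVars false

namespace Pool.Agent.LiebLoss

variable {ι : Type*} [Fintype ι] [DecidableEq ι] {k g : ι → E3}

/-- Annihilation operator on states. -/
noncomputable def anS (j : ι) (ψ : (ι → ℕ) → E3 → ℂ) : (ι → ℕ) → E3 → ℂ :=
  fun n x => an j (fun m => ψ m x) n

/-- The Bessel hypothesis. -/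
def Bessel (k g : ι → E3) (S : Finset ι) (a b : E3) (C : Finset E3) (B : ℝ) : Prop :=
  ∀ v : ι → ℂ, ∑ c ∈ C, ‖∑ j ∈ S, Complex.exp (I * (inner ℝ (k j) c : ℝ)) *
    (starRingEnd ℂ (lam k g a b 0 j) * v j)‖ ^ 2 ≤ B * ∑ j ∈ S, ‖v j‖ ^ 2

lemma az_fS (S : Finset ι) (a b c x : E3) (u : (ι → ℕ) → ℂ) (n : ι → ℕ) :
    az (fS k g S a b c x) u n = ∑ j ∈ S, Complex.exp (I * (inner ℝ (k j) c : ℝ)) *
      (starRingEnd ℂ (lam k g a b 0 j) * (Complex.exp (I * (inner ℝ (k j) x : ℝ)) * an j u n)) := by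
  unfold az fS
  rw [← Finset.sum_filter_add_sum_filter_not Finset.univ (fun j => j ∈ S)]
  have h2 : Finset.univ.filter (fun j => j ∈ S) = S := by ext; simp
  have h1 : ∑ j ∈ Finset.univ.filter (fun j => j ∉ S),
      starRingEnd ℂ (if j ∈ S then lam k g a b (x + c) j else 0) * an j u n = 0 := by
    refine Finset.sum_eq_zero fun j hj => ?_
    rw [Finset.mem_filter] at hj
    simp [hj.2]
  rw [h1, add_zero, h2]
  refine Finset.sum_congr rfl fun j hj => ?_
  rw [if_pos hj, lam_shift, map_mul, ← Complex.exp_conj]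
  have e1 : starRingEnd ℂ (-I * (inner ℝ (k j) (x + c) : ℝ))
      = I * (inner ℝ (k j) c : ℝ) + I * (inner ℝ (k j) x : ℝ) := by
    rw [inner_add_right]
    simp only [map_mul, map_neg, Complex.conj_I, Complex.conj_ofReal]
    push_cast
    ring
  rw [e1, Complex.exp_add]
  ring

lemma bessel_pointwise {S : Finset ι} {a b : E3} {C : Finset E3} {B : ℝ} (hB0 : 0 ≤ B)
    (hB : Bessel k g S a b C B) (x : E3) (u : (ι → ℕ) → ℂ) :
    ∑ c ∈ C, ∑' n, ‖az (fS k g S a b c x) u n‖ₑ ^ 2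
      ≤ ENNReal.ofReal B * ∑ j ∈ S, ∑' n, ‖an j u n‖ₑ ^ 2 := by
  rw [← Summable.tsum_finsetSum (fun _ _ => ENNReal.summable),
    ← Summable.tsum_finsetSum (fun _ _ => ENNReal.summable), ← ENNReal.tsum_mul_left]
  refine ENNReal.tsum_le_tsum fun n => ?_
  have h1 := hB (fun j => Complex.exp (I * (inner ℝ (k j) x : ℝ)) * an j u n)
  have h2 : ∀ j, ‖Complex.exp (I * (inner ℝ (k j) x : ℝ)) * an j u n‖ = ‖an j u n‖ := by
    intro j
    rw [norm_mul, Complex.norm_exp]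
    simp
  simp_rw [← az_fS, h2] at h1
  have h3 := ENNReal.ofReal_le_ofReal h1
  rw [ENNReal.ofReal_mul hB0, ENNReal.ofReal_sum_of_nonneg (fun _ _ => by positivity),
    ENNReal.ofReal_sum_of_nonneg (fun _ _ => by positivity)] at h3
  simpa only [ENNReal.ofReal_pow (norm_nonneg _), ofReal_norm] using h3

lemma Nice.anS_niceC {ψ : (ι → ℕ) → E3 → ℂ} (h : NiceC ψ) (j : ι) : NiceC (anS j ψ) := by
  obtain ⟨S, hS⟩ := h.fin
  refine ⟨⟨shiftSet S, fun n hn => ?_⟩, fun n => ?_⟩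
  · funext x
    exact an_eq_zero_of (fun n hn => by rw [hS n hn]; rfl) j hn
  · unfold anS an
    have := h.cont
    fun_prop

/-- `a(f(x)) ψ`. -/
noncomputable def azS (k g : ι → E3) (S : Finset ι) (a b c : E3) (ψ : (ι → ℕ) → E3 → ℂ) :
    (ι → ℕ) → E3 → ℂ := fun n x => az (fS k g S a b c x) (fun m => ψ m x) n

lemma azS_niceC {ψ : (ι → ℕ) → E3 → ℂ} (h : NiceC ψ) (S : Finset ι) (a b c : E3) :
    NiceC (azS k g S a b c ψ) := by
  obtain ⟨S0, hS⟩ := h.fin
  refine ⟨⟨shiftSet S0, fun n hn => ?_⟩, fun n => ?_⟩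
  · funext x
    unfold azS az
    refine Finset.sum_eq_zero fun j _ => ?_
    rw [an_eq_zero_of (fun n hn => by rw [hS n hn]; rfl) j hn, mul_zero]
  · unfold azS az an
    have := h.cont
    have h3 : ∀ j, Continuous fun x => fS k g S a b c x j := fun j =>
      (continuous_apply j).comp (continuous_fS S a b c)
    have h4 : ∀ j, Continuous fun x => starRingEnd ℂ (fS k g S a b c x j) := fun j =>
      Complex.continuous_conj.comp (h3 j)
    fun_prop

lemma NiceC.measurable_sum {φ : (ι → ℕ) → E3 → ℂ} (h : NiceC φ) :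
    Measurable fun x => ∑' n, ‖φ n x‖ₑ ^ 2 := by
  obtain ⟨S, hS⟩ := h.fin
  have e1 : (fun x => ∑' n, ‖φ n x‖ₑ ^ 2) = fun x => ∑ n ∈ S, ‖φ n x‖ₑ ^ 2 := by
    funext x
    refine tsum_eq_sum fun n hn => ?_
    simp [hS n hn]
  rw [e1]
  have := fun n => (h.cont n).measurable
  fun_prop

lemma bessel_nsq {ψ : (ι → ℕ) → E3 → ℂ} (h : NiceC ψ) {S : Finset ι} {a b : E3} {C : Finset E3}
    {B : ℝ} (hB0 : 0 ≤ B) (hB : Bessel k g S a b C B) :
    ∑ c ∈ C, nsq (azS k g S a b c ψ) ≤ ENNReal.ofReal B * ∑ j ∈ S, nsq (anS j ψ) := by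
  unfold nsq
  rw [← lintegral_finsetSum _ fun c _ => (azS_niceC h S a b c).measurable_sum,
    ← lintegral_finsetSum _ fun j _ => (Nice.anS_niceC h j).measurable_sum,
    ← lintegral_const_mul _ (Finset.measurable_fun_sum _ fun j _ =>
      (Nice.anS_niceC h j).measurable_sum)]
  exact lintegral_mono fun x => bessel_pointwise hB0 hB x _

lemma nrm_Dop_zero_le {ψ : (ι → ℕ) → E3 → ℂ} (h : Nice ψ) (S : Finset ι) (a b c : E3) (s : ℝ) :
    nrm (BT (Dop 0 (fun x j => - ((s : ℂ) * (I * fS k g S a b c x j))) ψ)) ^ 2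
      ≤ ENNReal.ofReal (s ^ 2) * (4 * nsq (azS k g S a b c ψ) +
        ENNReal.ofReal (2 * HS k g S a b) * nsq ψ) := by
  have hf := continuous_fS (k := k) (g := g) S a b c
  have hg : Continuous (fun (x : E3) (j : ι) => - ((s : ℂ) * (I * fS k g S a b c x j))) := by
    refine continuous_pi fun j => ?_
    have : Continuous fun x => fS k g S a b c x j := (continuous_apply j).comp hf
    fun_prop
  rw [(Dop_niceC h 0 hg).nrm_sq_eq]
  unfold nsq
  have m1 := (azS_niceC (k := k) (g := g) h.toC S a b c).measurable_sum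
  have m2 := h.toC.measurable_sum
  have m3 : Measurable fun x => 4 * ∑' n, ‖azS k g S a b c ψ n x‖ₑ ^ 2 +
      ENNReal.ofReal (2 * HS k g S a b) * ∑' n, ‖ψ n x‖ₑ ^ 2 :=
    (m1.const_mul 4).add (m2.const_mul _)
  rw [← lintegral_const_mul _ m1, ← lintegral_const_mul _ m2,
    ← lintegral_add_left (m1.const_mul _), ← lintegral_const_mul _ m3]
  exact lintegral_mono fun x => ns_Dop_zero_le h S a b c s x

/-- Lower bound of the field energy in terms of the geometry of the loops. -/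
theorem field_energy_ge (hp : Parity k g) {ψ : (ι → ℕ) → E3 → ℂ} (h : Nice ψ)
    (hfin : nsq ψ ≠ ⊤) (hfin2 : ∀ j, nsq (anS j ψ) ≠ ⊤) (S : Finset ι) (a b : E3)
    (C : Finset E3) {B : ℝ} (hB0 : 0 < B) (hB : Bessel k g S a b C B) (N : ℕ) (hN : 1 ≤ N)
    (hH : 0 < HS k g S a b)
    (hL : ∀ c ∈ C, DD k g ψ c + DD k g ψ (-c) +
      N * (DD k g ψ a + DD k g ψ b + DD k g ψ (-a) + DD k g ψ (-b)) ≤ nrm (BT ψ) / 2)
    (hbig : 4 * Real.pi ^ 2 ≤ N ^ 2 * HS k g S a b) :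
    C.card * (N ^ 2 * HS k g S a b ^ 2 / (8 * Real.pi ^ 2 * B)) * (nsq ψ).toReal
      ≤ ∑ j ∈ S, (nsq (anS j ψ)).toReal := by
  have hpi := Real.pi_pos
  have hN0 : (0:ℝ) < N := by exact_mod_cast hN
  set H := HS k g S a b with hHdef
  set s : ℝ := Real.pi / (2 * N * H) with hs
  have hs1 : 2 * (s * N * H) = Real.pi := by rw [hs]; field_simp
  have hP : nrm (BT ψ) ^ 2 = nsq ψ := h.toC.nrm_sq_eq
  have hPfin : nrm (BT ψ) ≠ ⊤ := by
    intro hc
    rw [hc] at hP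
    exact hfin (by rw [← hP]; simp)
  -- one `c`
  have hone : ∀ c ∈ C, nsq ψ / 4 ≤ ENNReal.ofReal (s ^ 2) * (4 * nsq (azS k g S a b c ψ) +
      ENNReal.ofReal (2 * H) * nsq ψ) := by
    intro c hc
    have h1 := key hp h S a b c N s hs1
    have h2 : nrm (BT ψ) ≤ nrm (BT ψ) / 2 +
        nrm (BT (Dop 0 (fun x j => - ((s : ℂ) * (I * fS k g S a b c x j))) ψ)) :=
      h1.trans (add_le_add (hL c hc) le_rfl)
    have h3 : nrm (BT ψ) / 2 ≤
        nrm (BT (Dop 0 (fun x j => - ((s : ℂ) * (I * fS k g S a b c x j))) ψ)) := by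
      have h4 : nrm (BT ψ) / 2 + nrm (BT ψ) / 2 = nrm (BT ψ) := ENNReal.add_halves _
      have h5 : nrm (BT ψ) / 2 ≠ ⊤ := (ENNReal.div_lt_top hPfin (by norm_num)).ne
      rw [← h4] at h2
      conv_rhs at h2 => rw [ENNReal.add_halves]
      exact (ENNReal.add_le_add_iff_left h5).1 h2
    have h6 : (nrm (BT ψ) / 2) ^ 2 = nsq ψ / 4 := by
      rw [div_eq_mul_inv, mul_pow, hP, div_eq_mul_inv]
      congr 1
      rw [← ENNReal.inv_pow]
      norm_num
    rw [← h6]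
    exact (pow_le_pow_left' h3 2).trans (nrm_Dop_zero_le h S a b c s)
  have hsum : ∑ c ∈ C, nsq ψ / 4 ≤ ENNReal.ofReal (s ^ 2) *
      (4 * (ENNReal.ofReal B * ∑ j ∈ S, nsq (anS j ψ)) +
        C.card * (ENNReal.ofReal (2 * H) * nsq ψ)) := by
    refine (Finset.sum_le_sum hone).trans ?_
    rw [← Finset.mul_sum, Finset.sum_add_distrib, ← Finset.mul_sum, Finset.sum_const,
      nsmul_eq_mul]
    gcongr
    exact bessel_nsq h.toC hB0.le hB
  rw [Finset.sum_const, nsmul_eq_mul] at hsum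
  -- pass to real numbers
  have hAfin : ∑ j ∈ S, nsq (anS j ψ) ≠ ⊤ := ENNReal.sum_ne_top.2 fun j _ => hfin2 j
  have hreal := ENNReal.toReal_mono (by finiteness) hsum
  rw [ENNReal.toReal_mul, ENNReal.toReal_natCast, ENNReal.toReal_div, ENNReal.toReal_mul,
    ENNReal.toReal_ofReal (sq_nonneg s), ENNReal.toReal_add (by finiteness) (by finiteness),
    ENNReal.toReal_mul, ENNReal.toReal_mul, ENNReal.toReal_ofReal hB0.le, ENNReal.toReal_mul,
    ENNReal.toReal_natCast, ENNReal.toReal_mul, ENNReal.toReal_ofReal (by positivity),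
    ENNReal.toReal_sum (fun j _ => hfin2 j)] at hreal
  set P := (nsq ψ).toReal
  set A := ∑ j ∈ S, (nsq (anS j ψ)).toReal
  have hP0 : 0 ≤ P := ENNReal.toReal_nonneg
  have hC0 : (0:ℝ) ≤ C.card := Nat.cast_nonneg _
  have hs2 : s ^ 2 * H = Real.pi ^ 2 / (4 * N ^ 2 * H) := by rw [hs]; field_simp; ring
  have hs3 : s ^ 2 * H ≤ 1 / 16 := by
    rw [hs2, div_le_div_iff₀ (by positivity) (by norm_num)]
    nlinarith
  have h7 : (C.card : ℝ) * P / 8 ≤ 4 * s ^ 2 * B * A := by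
    simp only [ENNReal.toReal_ofNat] at hreal
    have h8 : s ^ 2 * H * (C.card * P) ≤ 1 / 16 * (C.card * P) :=
      mul_le_mul_of_nonneg_right hs3 (by positivity)
    nlinarith
  have h9 : C.card * (N ^ 2 * H ^ 2 / (8 * Real.pi ^ 2 * B)) * P
      = (C.card * P / 8) * (N ^ 2 * H ^ 2 / (Real.pi ^ 2 * B)) := by field_simp
  rw [h9]
  have h10 : 4 * s ^ 2 * B * A * (N ^ 2 * H ^ 2 / (Real.pi ^ 2 * B)) = A := by
    rw [hs]; field_simp; ring
  calc _ ≤ 4 * s ^ 2 * B * A * (N ^ 2 * H ^ 2 / (Real.pi ^ 2 * B)) :=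
        mul_le_mul_of_nonneg_right h7 (by positivity)
    _ = A := h10

end Pool.Agent.LiebLoss
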