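import Pool.Agent.LiebLoss.Bargmann
import Pool.Agent.LiebLoss.Defs

/-!
# Gauge translations: Weyl operators on the Bargmann space combined with translations
-/

open MeasureTheory Complex Real
open scoped ENNReal

set_option linter.unusedSectionVars false

namespace Pool.Agent.LiebLoss

variable {ι : Type*} [Fintype ι] [DecidableEq ι]

/-- The factor of the Weyl operator. -/
noncomputable def wph (z w : ι → ℂ) : ℂ :=
  Complex.exp (-(∑ j, ((‖z j‖ ^ 2 : ℝ) : ℂ)) / 2 + I * ∑ j, z j * w j)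

/-- Gauge translation by `b` with field amplitude `ζ`. -/
noncomputable def gt (b : E3) (ζ : E3 → ι → ℂ) (G : E3 × (ι → ℂ) → ℂ) : E3 × (ι → ℂ) → ℂ :=
  fun p => wph (ζ p.1) p.2 * G (p.1 + b, fun j => p.2 j + I * starRingEnd ℂ (ζ p.1 j))

lemma norm_sq_shift (z w : ℂ) :
    ‖w + I * starRingEnd ℂ z‖ ^ 2 = ‖w‖ ^ 2 + ‖z‖ ^ 2 - 2 * (I * (z * w)).re := by
  rw [← Complex.normSq_eq_norm_sq, ← Complex.normSq_eq_norm_sq, ← Complex.normSq_eq_norm_sq]
  simp only [Complex.normSq_apply, Complex.add_re, Complex.mul_re, Complex.I_re, Complex.conj_re,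
    Complex.I_im, Complex.conj_im, Complex.add_im, Complex.mul_im]
  ring

lemma wt_wph (z w : ι → ℂ) :
    wt w * ‖wph z w‖ ^ 2 = wt (fun j => w j + I * starRingEnd ℂ (z j)) := by
  have h1 : ‖wph z w‖ = ∏ j, Real.exp (-‖z j‖ ^ 2 / 2 + (I * (z j * w j)).re) := by
    unfold wph
    rw [Complex.norm_exp, ← Real.exp_sum]
    congr 1
    rw [Complex.add_re, Finset.sum_add_distrib, Finset.mul_sum, Complex.re_sum]
    congr 1
    rw [← Complex.ofReal_sum]
    have : -((∑ j, ‖z j‖ ^ 2 : ℝ) : ℂ) / 2 = ((-(∑ j, ‖z j‖ ^ 2) / 2 : ℝ) : ℂ) := by push_cast; ring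
    rw [this, Complex.ofReal_re, ← Finset.sum_div, ← Finset.sum_neg_distrib]
  rw [h1]
  unfold wt
  rw [← Finset.prod_pow, ← Finset.prod_mul_distrib]
  refine Finset.prod_congr rfl fun j _ => ?_
  unfold wt1
  rw [norm_sq_shift, ← Real.exp_nat_mul, div_mul_eq_mul_div, ← Real.exp_add]
  congr 2
  push_cast
  ring

lemma lintegral_weyl (z : ι → ℂ) {g : (ι → ℂ) → ℂ} (hg : Measurable g) :
    ∫⁻ w, ‖wph z w * g (fun j => w j + I * starRingEnd ℂ (z j))‖ₑ ^ 2 ∂(gam ι)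
      = ∫⁻ w, ‖g w‖ₑ ^ 2 ∂(gam ι) := by
  have hw := (continuous_wt (ι := ι)).measurable
  have hsh : Measurable (fun w : ι → ℂ => (fun j => w j + I * starRingEnd ℂ (z j))) := by fun_prop
  have hph : Measurable (fun w : ι → ℂ => wph z w) := by unfold wph; fun_prop
  unfold gam
  rw [lintegral_withDensity_eq_lintegral_mul _ (by fun_prop) (by fun_prop),
    lintegral_withDensity_eq_lintegral_mul _ (by fun_prop) (by fun_prop)]
  have e1 : ∀ w : ι → ℂ, ((fun w : ι → ℂ => ENNReal.ofReal (wt w)) *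
      (fun w => ‖wph z w * g (fun j => w j + I * starRingEnd ℂ (z j))‖ₑ ^ 2)) w
      = (fun v : ι → ℂ => ENNReal.ofReal (wt v) * ‖g v‖ₑ ^ 2)
        (w + fun j => I * starRingEnd ℂ (z j)) := by
    intro w
    have h1 : (w + fun j => I * starRingEnd ℂ (z j)) = (fun j => w j + I * starRingEnd ℂ (z j)) :=
      rfl
    simp only [Pi.mul_apply, h1]
    rw [← wt_wph, enorm_mul, mul_pow, ENNReal.ofReal_mul (wt_pos w).le,
      ENNReal.ofReal_pow (norm_nonneg _), ofReal_norm]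
    ring
  simp_rw [e1]
  rw [lintegral_add_right_eq_self (fun v : ι → ℂ => ENNReal.ofReal (wt v) * ‖g v‖ₑ ^ 2)]
  rfl

/-- The reference measure on `ℝ³ × ℂ^ι`. -/
noncomputable def mu (ι : Type*) [Fintype ι] : Measure (E3 × (ι → ℂ)) :=
  (volume : Measure E3).prod (gam ι)

instance : SFinite (gam ι) := by unfold gam; infer_instance

instance : SFinite (mu ι) := by unfold mu; infer_instance

lemma lintegral_gt (b : E3) {ζ : E3 → ι → ℂ} (hζ : Measurable ζ) {G : E3 × (ι → ℂ) → ℂ}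
    (hG : Measurable G) :
    ∫⁻ p, ‖gt b ζ G p‖ₑ ^ 2 ∂(mu ι) = ∫⁻ p, ‖G p‖ₑ ^ 2 ∂(mu ι) := by
  have hζj : ∀ j, Measurable (fun x => ζ x j) := fun j => (measurable_pi_apply j).comp hζ
  have hm : Measurable (gt b ζ G) := by
    unfold gt wph
    refine Measurable.mul ?_ (hG.comp ?_)
    · have h2 : ∀ j, Measurable (fun p : E3 × (ι → ℂ) => ζ p.1 j) :=
        fun j => (hζj j).comp measurable_fst
      fun_prop
    · refine Measurable.prodMk (by fun_prop) ?_
      have h2 : ∀ j, Measurable (fun p : E3 × (ι → ℂ) => ζ p.1 j) :=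
        fun j => (hζj j).comp measurable_fst
      fun_prop
  unfold mu
  rw [lintegral_prod _ (by fun_prop), lintegral_prod _ (by fun_prop)]
  have h1 : ∀ x : E3, ∫⁻ w, ‖gt b ζ G (x, w)‖ₑ ^ 2 ∂(gam ι)
      = (fun y => ∫⁻ w, ‖G (y, w)‖ₑ ^ 2 ∂(gam ι)) (x + b) := by
    intro x
    exact lintegral_weyl (ζ x) (g := fun w => G (x + b, w)) (by fun_prop)
  simp_rw [h1]
  rw [lintegral_add_right_eq_self (fun y => ∫⁻ w, ‖G (y, w)‖ₑ ^ 2 ∂(gam ι))]

/-- The `L²` norm. -/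
noncomputable def nrm (G : E3 × (ι → ℂ) → ℂ) : ℝ≥0∞ := eLpNorm G 2 (mu ι)

lemma nrm_eq (G : E3 × (ι → ℂ) → ℂ) :
    nrm G = (∫⁻ p, ‖G p‖ₑ ^ 2 ∂(mu ι)) ^ (1 / 2 : ℝ) := by
  unfold nrm
  rw [eLpNorm_eq_lintegral_rpow_enorm_toReal (by norm_num) (by norm_num)]
  norm_num

lemma nrm_sq (G : E3 × (ι → ℂ) → ℂ) :
    nrm G ^ 2 = ∫⁻ p, ‖G p‖ₑ ^ 2 ∂(mu ι) := by
  rw [nrm_eq, ← ENNReal.rpow_natCast, ← ENNReal.rpow_mul]
  norm_num

lemma nrm_gt (b : E3) {ζ : E3 → ι → ℂ} (hζ : Measurable ζ) {G : E3 × (ι → ℂ) → ℂ}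
    (hG : Measurable G) : nrm (gt b ζ G) = nrm G := by
  rw [nrm_eq, nrm_eq, lintegral_gt b hζ hG]

lemma measurable_gt (b : E3) {ζ : E3 → ι → ℂ} (hζ : Measurable ζ) {G : E3 × (ι → ℂ) → ℂ}
    (hG : Measurable G) : Measurable (gt b ζ G) := by
  have hζj : ∀ j, Measurable (fun x => ζ x j) := fun j => (measurable_pi_apply j).comp hζ
  unfold gt wph
  refine Measurable.mul ?_ (hG.comp ?_)
  · have h2 : ∀ j, Measurable (fun p : E3 × (ι → ℂ) => ζ p.1 j) :=
        fun j => (hζj j).comp measurable_fst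
    fun_prop
  · refine Measurable.prodMk (by fun_prop) ?_
    have h2 : ∀ j, Measurable (fun p : E3 × (ι → ℂ) => ζ p.1 j) :=
        fun j => (hζj j).comp measurable_fst
    fun_prop

/-- The symplectic form. -/
noncomputable def sig (z z' : ι → ℂ) : ℝ := ∑ j, (starRingEnd ℂ (z j) * z' j).im

lemma wph_mul (z z' w : ι → ℂ) :
    wph z w * wph z' (fun j => w j + I * starRingEnd ℂ (z j))
      = Complex.exp (-I * sig z z') * wph (fun j => z j + z' j) w := by
  unfold wph sig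
  rw [← Complex.exp_add, ← Complex.exp_add]
  congr 1
  have key : ∀ j, -((‖z j‖ ^ 2 : ℝ) : ℂ) / 2 - ((‖z' j‖ ^ 2 : ℝ) : ℂ) / 2
      - z' j * starRingEnd ℂ (z j)
      = -((‖z j + z' j‖ ^ 2 : ℝ) : ℂ) / 2 - I * (((starRingEnd ℂ (z j) * z' j).im : ℝ) : ℂ) := by
    intro j
    apply Complex.ext
    · simp [← Complex.normSq_eq_norm_sq, Complex.normSq_apply]
      ring
    · simp [← Complex.normSq_eq_norm_sq, Complex.normSq_apply]
      ring
  have h2 := Finset.sum_congr (rfl : (Finset.univ : Finset ι) = Finset.univ) (fun j _ => key j)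
  simp only [Finset.sum_sub_distrib, neg_div, Finset.sum_neg_distrib, ← Finset.sum_div,
    ← Finset.mul_sum] at h2
  have h3 : ∑ j, z' j * (w j + I * starRingEnd ℂ (z j))
      = ∑ j, z' j * w j + I * ∑ j, z' j * starRingEnd ℂ (z j) := by
    rw [Finset.mul_sum, ← Finset.sum_add_distrib]
    refine Finset.sum_congr rfl fun j _ => by ring
  have h4 : ∑ j, (z j + z' j) * w j = ∑ j, z j * w j + ∑ j, z' j * w j := by
    rw [← Finset.sum_add_distrib]
    refine Finset.sum_congr rfl fun j _ => by ring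
  rw [h3, h4]
  push_cast at h2 ⊢
  linear_combination h2 + (∑ j, z' j * starRingEnd ℂ (z j)) * (Complex.I_sq)

/-- Composition of gauge translations. -/
lemma gt_gt (b b' : E3) (ζ ζ' : E3 → ι → ℂ) (G : E3 × (ι → ℂ) → ℂ) (p : E3 × (ι → ℂ)) :
    gt b ζ (gt b' ζ' G) p = Complex.exp (-I * sig (ζ p.1) (ζ' (p.1 + b))) *
      gt (b + b') (fun x j => ζ x j + ζ' (x + b) j) G p := by
  unfold gt
  simp only
  rw [← mul_assoc, ← mul_assoc, wph_mul]
  congr 2
  refine Prod.ext (by simp [add_assoc]) ?_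
  funext j
  simp only [map_add]
  ring

lemma gt_zero (G : E3 × (ι → ℂ) → ℂ) : gt 0 (fun _ _ => 0) G = G := by
  funext p
  unfold gt wph
  simp

end Pool.Agent.LiebLoss
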